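import Mathlib

/-!
# LC6 C01: chains of slabs as matrix products

`S` a finite set of states, `M ℓ a b c` a weight for the slab `ℓ` (three consecutive layers `2ℓ, 2ℓ+1, 2ℓ+2`); sum over the middle
layers: matrices `P ℓ a c = ∑_b M ℓ a b c`.
* `slab_path`: `∑_{σ : Fin (m+1) → S} u (σ 0) w (σ m) ∏_{ℓ<n} M ℓ (σ 2ℓ) (σ (2ℓ+1)) (σ (2ℓ+2)) = u ⬝ᵥ (P 0 ⋯ P (n-1)) *ᵥ w`, `m = 2 n`.
  Induction on `n` for all `u`, `w` (split off the last two layers; e.g. first restate the sum over `ℕ → S`-like families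
  `Fin (2 n + 1)`, use `Fin.snocEquiv`/`Fin.consEquiv` twice).
* `slab_ring`: for `m + 1 = 2 n`, `n ≥ 1`, `σ : Fin (m+1) → S` with `Fin.ofNat (m+1) (2 n) = 0`: the sum is the trace of the product (sum of
  `slab_path` with `u = w = ` indicator of a state; a ring is a path with equal ends).
-/

set_option autoImplicit false

open Finset Matrix

namespace Pool.Agent.LC

variable {S : Type} [Fintype S] [DecidableEq S]

private theorem C01_sum {S : Type} [Fintype S] {n : ℕ} (F : (Fin (n + 1) → S) → ℝ) :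
    ∑ σ, F σ = ∑ a, ∑ τ : Fin n → S, F (Fin.cons a τ) := by
  rw [← (Fin.consEquiv (fun _ : Fin (n + 1) => S)).sum_comp, Fintype.sum_prod_type]
  rfl

private theorem C01_cons {S : Type} {m : ℕ} (a b : S) (τ : Fin (m + 1) → S) (j : ℕ) (hj : j ≤ m) :
    (Fin.cons a (Fin.cons b τ : Fin (m + 2) → S) : Fin (m + 3) → S) (Fin.ofNat (m + 3) (j + 2)) =
      τ (Fin.ofNat (m + 1) j) := by
  have h : Fin.ofNat (m + 3) (j + 2) = Fin.succ (Fin.succ (Fin.ofNat (m + 1) j)) := by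
    ext
    simp only [Fin.val_ofNat, Fin.val_succ]
    rw [Nat.mod_eq_of_lt (by omega), Nat.mod_eq_of_lt (by omega)]
  rw [h, Fin.cons_succ, Fin.cons_succ]

private theorem C01_snoc {S : Type} {m : ℕ} (σ : Fin (m + 1) → S) (j : ℕ) (hj : j ≤ m + 1) :
    (Fin.snoc σ (σ 0) : Fin (m + 2) → S) (Fin.ofNat (m + 2) j) = σ (Fin.ofNat (m + 1) j) := by
  rcases Nat.lt_or_ge j (m + 1) with h | h
  · have h1 : Fin.ofNat (m + 2) j = Fin.castSucc (Fin.ofNat (m + 1) j) := by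
      ext
      simp only [Fin.val_ofNat, Fin.val_castSucc]
      rw [Nat.mod_eq_of_lt (by omega), Nat.mod_eq_of_lt (by omega)]
    rw [h1]
    exact Fin.snoc_castSucc (α := fun _ => S) _ _ _
  · have h0 : j = m + 1 := by omega
    subst h0
    have h1 : Fin.ofNat (m + 2) (m + 1) = Fin.last (m + 1) := by
      ext
      simp only [Fin.val_ofNat, Fin.val_last]
      rw [Nat.mod_eq_of_lt (by omega)]
    have h2 : Fin.ofNat (m + 1) (m + 1) = 0 := by
      ext
      simp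
    rw [h1, h2]
    exact Fin.snoc_last (α := fun _ => S) _ _

theorem slab_path (n m : ℕ) (hm : m = 2 * n) (M : ℕ → S → S → S → ℝ) (u w : S → ℝ) :
    ∑ σ : Fin (m + 1) → S, u (σ 0) * w (σ (Fin.last m)) *
        ∏ ℓ ∈ range n, M ℓ (σ (Fin.ofNat (m + 1) (2 * ℓ))) (σ (Fin.ofNat (m + 1) (2 * ℓ + 1))) (σ (Fin.ofNat (m + 1) (2 * ℓ + 2))) =
      u ⬝ᵥ ((((List.range n).map fun ℓ => (Matrix.of fun a c => ∑ b, M ℓ a b c : Matrix S S ℝ)).prod) *ᵥ w) := by
  induction n generalizing m M u with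
  | zero =>
    subst hm
    rw [C01_sum]
    simp only [Nat.mul_zero, Finset.range_zero, Finset.prod_empty, mul_one, Fintype.sum_unique,
      Fin.cons_zero, List.range_zero, List.map_nil, List.prod_nil, Matrix.one_mulVec]
    refine Finset.sum_congr rfl fun a _ => ?_
    rfl
  | succ n ih =>
    obtain ⟨m, rfl⟩ : ∃ m', m = m' + 2 := ⟨2 * n, by omega⟩
    have hm' : m = 2 * n := by omega
    have hI := ih m hm' (fun ℓ => M (ℓ + 1)) (fun c => ∑ a, u a * ∑ b, M 0 a b c)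
    rw [List.range_succ_eq_map, List.map_cons, List.prod_cons, List.map_map, ← Matrix.mulVec_mulVec,
      Matrix.dotProduct_mulVec]
    have hu : (u ᵥ* (Matrix.of fun a c => ∑ b, M 0 a b c : Matrix S S ℝ)) = fun c => ∑ a, u a * ∑ b, M 0 a b c := by
      funext c
      rfl
    rw [hu]
    have hl : ((List.range n).map ((fun ℓ => (Matrix.of fun a c => ∑ b, M ℓ a b c : Matrix S S ℝ)) ∘ Nat.succ)) =
        (List.range n).map fun ℓ => (Matrix.of fun a c => ∑ b, M (ℓ + 1) a b c : Matrix S S ℝ) := rfl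
    rw [hl, ← hI, C01_sum]
    have h1 : ∀ a : S, ∑ τ : Fin (m + 2) → S,
        u ((Fin.cons a τ : Fin (m + 3) → S) 0) * w ((Fin.cons a τ : Fin (m + 3) → S) (Fin.last (m + 2))) *
          ∏ ℓ ∈ range (n + 1), M ℓ ((Fin.cons a τ : Fin (m + 3) → S) (Fin.ofNat (m + 2 + 1) (2 * ℓ)))
            ((Fin.cons a τ : Fin (m + 3) → S) (Fin.ofNat (m + 2 + 1) (2 * ℓ + 1)))
            ((Fin.cons a τ : Fin (m + 3) → S) (Fin.ofNat (m + 2 + 1) (2 * ℓ + 2))) =
        ∑ b, ∑ τ : Fin (m + 1) → S, u a * w (τ (Fin.last m)) * (M 0 a b (τ 0) *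
          ∏ ℓ ∈ range n, M (ℓ + 1) (τ (Fin.ofNat (m + 1) (2 * ℓ))) (τ (Fin.ofNat (m + 1) (2 * ℓ + 1)))
            (τ (Fin.ofNat (m + 1) (2 * ℓ + 2)))) := by
      intro a
      rw [C01_sum]
      refine Finset.sum_congr rfl fun b _ => Finset.sum_congr rfl fun τ _ => ?_
      have e0 : (Fin.cons a (Fin.cons b τ : Fin (m + 2) → S) : Fin (m + 3) → S) 0 = a := rfl
      have e1 : (Fin.cons a (Fin.cons b τ : Fin (m + 2) → S) : Fin (m + 3) → S) (Fin.last (m + 2)) = τ (Fin.last m) := rfl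
      have e2 : (Fin.cons a (Fin.cons b τ : Fin (m + 2) → S) : Fin (m + 3) → S) (Fin.ofNat (m + 2 + 1) (2 * 0)) = a := by
        have : Fin.ofNat (m + 2 + 1) (2 * 0) = 0 := by ext; simp
        rw [this]
        rfl
      have e3 : (Fin.cons a (Fin.cons b τ : Fin (m + 2) → S) : Fin (m + 3) → S) (Fin.ofNat (m + 2 + 1) (2 * 0 + 1)) = b := by
        have : Fin.ofNat (m + 2 + 1) (2 * 0 + 1) = Fin.succ 0 := by
          ext
          simp only [Fin.val_ofNat, Fin.val_succ]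
          rw [Nat.mod_eq_of_lt (by omega)]
          rfl
        rw [this]
        rfl
      have e4 : (Fin.cons a (Fin.cons b τ : Fin (m + 2) → S) : Fin (m + 3) → S) (Fin.ofNat (m + 2 + 1) (2 * 0 + 2)) = τ 0 := by
        have h := C01_cons a b τ 0 (Nat.zero_le _)
        have h0 : Fin.ofNat (m + 1) 0 = 0 := by ext; simp
        rw [h0] at h
        exact h
      rw [Finset.prod_range_succ', e0, e1, e2, e3, e4, mul_comm (∏ ℓ ∈ range n, _) (M 0 a b (τ 0))]
      congr 2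
      refine Finset.prod_congr rfl fun ℓ hℓ => ?_
      have hl : ℓ < n := Finset.mem_range.1 hℓ
      have f1 := C01_cons a b τ (2 * ℓ) (by omega)
      have f2 := C01_cons a b τ (2 * ℓ + 1) (by omega)
      have f3 := C01_cons a b τ (2 * ℓ + 2) (by omega)
      have g1 : 2 * (ℓ + 1) = 2 * ℓ + 2 := by ring
      have g2 : 2 * (ℓ + 1) + 1 = 2 * ℓ + 1 + 2 := by ring
      have g3 : 2 * (ℓ + 1) + 2 = 2 * ℓ + 2 + 2 := by ring
      rw [g2, g3, g1, ← f1, ← f2, ← f3]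
    rw [Finset.sum_congr rfl fun a _ => h1 a]
    rw [Finset.sum_congr rfl fun a _ => Finset.sum_comm, Finset.sum_comm]
    refine Finset.sum_congr rfl fun τ _ => ?_
    rw [Finset.sum_mul, Finset.sum_mul]
    refine Finset.sum_congr rfl fun a _ => ?_
    rw [Finset.mul_sum, Finset.sum_mul, Finset.sum_mul]
    refine Finset.sum_congr rfl fun b _ => ?_
    ring

theorem slab_ring (n m : ℕ) (hn : 1 ≤ n) (hm : m + 1 = 2 * n) (M : ℕ → S → S → S → ℝ) :
    ∑ σ : Fin (m + 1) → S,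
        ∏ ℓ ∈ range n, M ℓ (σ (Fin.ofNat (m + 1) (2 * ℓ))) (σ (Fin.ofNat (m + 1) (2 * ℓ + 1))) (σ (Fin.ofNat (m + 1) (2 * ℓ + 2))) =
      (((List.range n).map fun ℓ => (Matrix.of fun a c => ∑ b, M ℓ a b c : Matrix S S ℝ)).prod).trace := by
  set Q : Matrix S S ℝ := ((List.range n).map fun ℓ => (Matrix.of fun a c => ∑ b, M ℓ a b c : Matrix S S ℝ)).prod with hQ
  have h1 : ∀ s : S, Q s s = ∑ σ : Fin (m + 2) → S, (if σ 0 = s then 1 else 0) * (if σ (Fin.last (m + 1)) = s then 1 else 0) *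
      ∏ ℓ ∈ range n, M ℓ (σ (Fin.ofNat (m + 2) (2 * ℓ))) (σ (Fin.ofNat (m + 2) (2 * ℓ + 1))) (σ (Fin.ofNat (m + 2) (2 * ℓ + 2))) := by
    intro s
    have h2 := slab_path n (m + 1) hm M (fun x => if x = s then 1 else 0) (fun x => if x = s then 1 else 0)
    rw [← hQ] at h2
    rw [h2]
    simp [dotProduct, Matrix.mulVec]
  unfold Matrix.trace
  simp only [Matrix.diag_apply]
  rw [Finset.sum_congr rfl fun s _ => h1 s, Finset.sum_comm]
  have h3 : ∀ σ : Fin (m + 2) → S, ∑ s, (if σ 0 = s then (1 : ℝ) else 0) * (if σ (Fin.last (m + 1)) = s then 1 else 0) *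
      ∏ ℓ ∈ range n, M ℓ (σ (Fin.ofNat (m + 2) (2 * ℓ))) (σ (Fin.ofNat (m + 2) (2 * ℓ + 1))) (σ (Fin.ofNat (m + 2) (2 * ℓ + 2))) =
      if σ (Fin.last (m + 1)) = σ 0 then
        ∏ ℓ ∈ range n, M ℓ (σ (Fin.ofNat (m + 2) (2 * ℓ))) (σ (Fin.ofNat (m + 2) (2 * ℓ + 1))) (σ (Fin.ofNat (m + 2) (2 * ℓ + 2)))
      else 0 := by
    intro σ
    rw [Finset.sum_eq_single (σ 0)]
    · rw [if_pos rfl, one_mul]
      split_ifs
      · rw [one_mul]
      · rw [zero_mul]
    · intro s _ hs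
      rw [if_neg (Ne.symm hs), zero_mul, zero_mul]
    · intro h
      exact absurd (Finset.mem_univ _) h
  rw [Finset.sum_congr rfl fun σ _ => h3 σ]
  rw [← (Fin.snocEquiv (fun _ : Fin (m + 2) => S)).sum_comp, Fintype.sum_prod_type, Finset.sum_comm]
  refine Finset.sum_congr rfl fun σ _ => ?_
  have h4 : ∀ x : S, (Fin.snocEquiv (fun _ : Fin (m + 2) => S)) (x, σ) = (Fin.snoc σ x : Fin (m + 2) → S) := fun x => rfl
  have h5 : ∀ x : S, (Fin.snoc σ x : Fin (m + 2) → S) (Fin.last (m + 1)) = x := fun x => Fin.snoc_last (α := fun _ => S) _ _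
  have h6 : ∀ x : S, (Fin.snoc σ x : Fin (m + 2) → S) 0 = σ 0 := by
    intro x
    have h7 : (0 : Fin (m + 2)) = Fin.castSucc 0 := rfl
    rw [h7]
    exact Fin.snoc_castSucc (α := fun _ => S) _ _ _
  simp only [h4, h5, h6]
  rw [Finset.sum_ite_eq' Finset.univ (σ 0), if_pos (Finset.mem_univ _)]
  refine Finset.prod_congr rfl fun ℓ hℓ => ?_
  have hl : ℓ < n := Finset.mem_range.1 hℓ
  rw [C01_snoc σ (2 * ℓ) (by omega), C01_snoc σ (2 * ℓ + 1) (by omega), C01_snoc σ (2 * ℓ + 2) (by omega)]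

end Pool.Agent.LC
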