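import Mathlib
import Pool.Agent.Lib_MP_2c424f_lin.E1

/-!
# LC6 C02: trace Hölder and log-convexity (linear algebra)

`T`, `P ℓ` real symmetric matrices, `v` a vector, `L = 2^r`.
* `slab_holder`: `⟨v, T^s P_0 ⋯ P_{L-2} T^s v⟩ = Tr (B P_0 ⋯ P_{L-2})`, `B = x xᵀ` (`vecMulVec x x`), `x = T^s v`.  For `r = 0` (`L = 1`) there is
  nothing to do.  For `r = r' + 1`: `LIN.trace_holder r'` with `A 0 = B`, `A (ℓ+1) = P ℓ`; `Tr ((B Bᵀ)^(2^r')) = ⟨x, x⟩^L`,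
  `Tr ((P Pᵀ)^(2^r')) = Tr (P^L)`; `⟨x, x⟩ = ⟨v, T^(2s) v⟩`.
* `log_conv`: `x = T^m v`, `a_k = ⟨x, T^(2k) x⟩ ≥ 0`: `a_1^L ≤ a_0^(L-1) a_L` for `L = 2^r` (induction: `a_k^2 ≤ a_0 a_{2k}`, Cauchy–Schwarz) and
  `a_L ≤ Tr (T^(2L)) a_0` (`xᵀ A x ≤ Tr A · |x|^2` for `A = T^L (T^L)ᵀ`: `xᵀ A x = |T^L x|^2 ≤ |x|^2 ∑_ab (T^L)_ab^2`).
* `slab_main`: `N := ⟨v, T^s P_0 ⋯ T^s v⟩`.  `N^L Zp ≤ ⟨v,T^(2s)v⟩^L (∏_ℓ Tr (P_ℓ^L)) Zp ≤ (⟨v,T^(2s)v⟩ Zp)^L (∏ ρ_ℓ)^L ≤ c^L ⟨v,T^(m+2)v⟩^L (∏ ρ)^L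
  ≤ c^L Zp Zf^L (∏ ρ)^L`, `m = 2 (L-1) + 2 s`; cancel `Zp` and take the `L`-th root.
-/

set_option autoImplicit false

open Finset Matrix

namespace Pool.Agent.LC

variable {S : Type} [Fintype S] [DecidableEq S]

private theorem C02_trace_vv (x y : S → ℝ) : (vecMulVec x y).trace = x ⬝ᵥ y := by
  simp [Matrix.trace, vecMulVec_apply, dotProduct]

private theorem C02_pow_sym (T : Matrix S S ℝ) (hT : Tᵀ = T) (k : ℕ) : (T ^ k)ᵀ = T ^ k := by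
  rw [Matrix.transpose_pow, hT]

private theorem C02_move (A : Matrix S S ℝ) (hA : Aᵀ = A) (x y : S → ℝ) :
    x ⬝ᵥ (A *ᵥ y) = (A *ᵥ x) ⬝ᵥ y := by
  rw [Matrix.dotProduct_mulVec, ← Matrix.mulVec_transpose, hA]

private theorem C02_sq (T : Matrix S S ℝ) (hT : Tᵀ = T) (k : ℕ) (v : S → ℝ) :
    v ⬝ᵥ ((T ^ (2 * k)) *ᵥ v) = (T ^ k *ᵥ v) ⬝ᵥ (T ^ k *ᵥ v) := by
  rw [two_mul, pow_add, ← Matrix.mulVec_mulVec, C02_move _ (C02_pow_sym T hT k)]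

private theorem C02_self_nonneg (x : S → ℝ) : 0 ≤ x ⬝ᵥ x := by
  unfold dotProduct
  exact Finset.sum_nonneg fun i _ => mul_self_nonneg _

private theorem C02_nonneg (T : Matrix S S ℝ) (hT : Tᵀ = T) (k : ℕ) (v : S → ℝ) :
    0 ≤ v ⬝ᵥ ((T ^ (2 * k)) *ᵥ v) := by
  rw [C02_sq T hT]
  exact C02_self_nonneg _

private theorem C02_CS (x y : S → ℝ) : (x ⬝ᵥ y) ^ 2 ≤ (x ⬝ᵥ x) * (y ⬝ᵥ y) := by
  unfold dotProduct
  have h := Finset.sum_mul_sq_le_sq_mul_sq univ x y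
  refine h.trans (le_of_eq ?_)
  congr 1
  · exact Finset.sum_congr rfl fun i _ => sq _
  · exact Finset.sum_congr rfl fun i _ => sq _

private theorem C02_trace_tt (A : Matrix S S ℝ) : (A * Aᵀ).trace = ∑ i, ∑ j, A i j ^ 2 := by
  simp only [Matrix.trace, Matrix.diag_apply, Matrix.mul_apply, Matrix.transpose_apply, sq]

private theorem C02_op (A : Matrix S S ℝ) (x : S → ℝ) :
    (A *ᵥ x) ⬝ᵥ (A *ᵥ x) ≤ (A * Aᵀ).trace * (x ⬝ᵥ x) := by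
  rw [C02_trace_tt]
  unfold dotProduct
  rw [Finset.sum_mul]
  apply Finset.sum_le_sum
  intro i _
  rw [← sq]
  have h := C02_CS (A i) x
  have e : (A *ᵥ x) i = A i ⬝ᵥ x := rfl
  rw [e]
  refine h.trans (le_of_eq ?_)
  unfold dotProduct
  congr 1
  exact Finset.sum_congr rfl fun j _ => (sq _).symm

private theorem C02_rank_pow (x : S → ℝ) (k : ℕ) :
    (((vecMulVec x x) * (vecMulVec x x)ᵀ) ^ (k + 1)).trace = (x ⬝ᵥ x) ^ (2 * (k + 1)) := by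
  set d := x ⬝ᵥ x with hd
  have h1 : vecMulVec x x * (vecMulVec x x)ᵀ = d • vecMulVec x x := by
    rw [transpose_vecMulVec, vecMulVec_mul_vecMulVec, ← hd]
    ext i j
    simp [vecMulVec_apply]
    ring
  have h0 : vecMulVec x x * vecMulVec x x = d • vecMulVec x x := by
    rw [transpose_vecMulVec] at h1
    exact h1
  have h2 : ∀ k : ℕ, (vecMulVec x x) ^ (k + 1) = d ^ k • vecMulVec x x := by
    intro k
    induction k with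
    | zero => simp
    | succ k ih =>
      rw [pow_succ, ih, Matrix.smul_mul, h0, smul_smul, pow_succ]
  rw [h1, smul_pow, h2, smul_smul, Matrix.trace_smul, C02_trace_vv, ← hd, smul_eq_mul]
  ring

private theorem C02_trace_pow_nonneg (r : ℕ) (P : Matrix S S ℝ) (hP : Pᵀ = P) :
    0 ≤ (P ^ (2 ^ (r + 1))).trace := by
  have h : P ^ (2 ^ (r + 1)) = P ^ (2 ^ r) * (P ^ (2 ^ r))ᵀ := by
    rw [C02_pow_sym P hP, ← pow_add, pow_succ]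
    congr 1
    ring
  rw [h, C02_trace_tt]
  exact Finset.sum_nonneg fun i _ => Finset.sum_nonneg fun j _ => sq_nonneg _

theorem slab_holder (r s : ℕ) (T : Matrix S S ℝ) (hT : Tᵀ = T) (P : ℕ → Matrix S S ℝ) (hP : ∀ ℓ, (P ℓ)ᵀ = P ℓ) (v : S → ℝ)
    (h0 : 0 ≤ v ⬝ᵥ ((T ^ s * ((List.range (2 ^ r - 1)).map P).prod * T ^ s) *ᵥ v)) :
    (v ⬝ᵥ ((T ^ s * ((List.range (2 ^ r - 1)).map P).prod * T ^ s) *ᵥ v)) ^ (2 ^ r) ≤
      (v ⬝ᵥ ((T ^ (2 * s)) *ᵥ v)) ^ (2 ^ r) * ∏ ℓ ∈ range (2 ^ r - 1), (P ℓ ^ (2 ^ r)).trace := by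
  rcases r with _ | r
  · simp only [pow_zero, Nat.sub_self, List.range_zero, List.map_nil, List.prod_nil, mul_one,
      Finset.range_zero, Finset.prod_empty, pow_one]
    rw [← pow_add, two_mul]
  · obtain ⟨M, hM⟩ : ∃ M, 2 ^ (r + 1) = M + 1 := ⟨2 ^ (r + 1) - 1, by
      have : 0 < 2 ^ (r + 1) := by positivity
      omega⟩
    obtain ⟨k, hk⟩ : ∃ k, 2 ^ r = k + 1 := ⟨2 ^ r - 1, by
      have : 0 < 2 ^ r := by positivity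
      omega⟩
    set x : S → ℝ := T ^ s *ᵥ v with hx
    set Q : Matrix S S ℝ := ((List.range (2 ^ (r + 1) - 1)).map P).prod with hQ
    have hN : v ⬝ᵥ ((T ^ s * Q * T ^ s) *ᵥ v) = x ⬝ᵥ (Q *ᵥ x) := by
      rw [Matrix.mul_assoc, ← Matrix.mulVec_mulVec, ← Matrix.mulVec_mulVec,
        C02_move _ (C02_pow_sym T hT s)]
    rw [hN] at h0 ⊢
    set g : ℕ → Matrix S S ℝ := fun j => if j = 0 then vecMulVec x x else P (j - 1) with hg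
    have hold := Pool.Agent.LIN.trace_holder r (fun j : Fin (2 ^ (r + 1)) => g j.val)
    have e1 : List.ofFn (fun j : Fin (2 ^ (r + 1)) => g j.val) =
        (List.range (2 ^ (r + 1))).map g := by
      apply List.ext_getElem
      · simp
      · intro i h1 h2
        simp
    rw [e1, Finset.prod_fin_eq_prod_range] at hold
    have e2 : ∏ i ∈ range (2 ^ (r + 1)), (if h : i < 2 ^ (r + 1) then
        ((g (⟨i, h⟩ : Fin (2 ^ (r + 1))).val * (g (⟨i, h⟩ : Fin (2 ^ (r + 1))).val)ᵀ) ^ 2 ^ r).trace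
          else 1) = ∏ i ∈ range (M + 1), ((g i * (g i)ᵀ) ^ 2 ^ r).trace := by
      rw [← hM]
      apply Finset.prod_congr rfl
      intro i hi
      rw [Finset.mem_range] at hi
      rw [dif_pos hi]
    rw [e2, Finset.prod_range_succ', hM, List.range_succ_eq_map, List.map_cons, List.map_map,
      List.prod_cons] at hold
    have e3 : ((List.range M).map (g ∘ Nat.succ)).prod = Q := by
      rw [hQ, hM, Nat.add_sub_cancel]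
      congr 1
    have e4 : g 0 = vecMulVec x x := by rw [hg]; simp
    have e5 : (g 0 * Q).trace = x ⬝ᵥ (Q *ᵥ x) := by
      rw [e4, vecMulVec_mul, C02_trace_vv, dotProduct_comm, ← Matrix.dotProduct_mulVec]
    rw [e3, e5, abs_of_nonneg h0] at hold
    rw [hM]
    refine hold.trans (le_of_eq ?_)
    have e6 : ((g 0 * (g 0)ᵀ) ^ 2 ^ r).trace = (v ⬝ᵥ ((T ^ (2 * s)) *ᵥ v)) ^ (M + 1) := by
      rw [e4, hk, C02_rank_pow, C02_sq T hT, ← hx, ← hM, pow_succ 2 r, hk]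
      congr 1
      ring
    have e7 : ∏ i ∈ range M, ((g (i + 1) * (g (i + 1))ᵀ) ^ 2 ^ r).trace =
        ∏ ℓ ∈ range (M + 1 - 1), (P ℓ ^ (M + 1)).trace := by
      rw [Nat.add_sub_cancel]
      apply Finset.prod_congr rfl
      intro i _
      have e8 : g (i + 1) = P i := by rw [hg]; simp
      rw [e8, hP i, ← sq, ← pow_mul, ← hM, pow_succ 2 r]
      congr 2
      ring
    rw [e6, e7, mul_comm]

theorem log_conv (r m : ℕ) (T : Matrix S S ℝ) (hT : Tᵀ = T) (v : S → ℝ) :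
    (v ⬝ᵥ ((T ^ (2 * m + 2)) *ᵥ v)) ^ (2 ^ r) ≤ (T ^ (2 * 2 ^ r)).trace * (v ⬝ᵥ ((T ^ (2 * m)) *ᵥ v)) ^ (2 ^ r) := by
  set x : S → ℝ := T ^ m *ᵥ v with hx
  have ha : ∀ k : ℕ, v ⬝ᵥ ((T ^ (2 * m + 2 * k)) *ᵥ v) = x ⬝ᵥ ((T ^ (2 * k)) *ᵥ x) := by
    intro k
    rw [show 2 * m + 2 * k = m + (2 * k + m) by ring, pow_add, pow_add, ← Matrix.mulVec_mulVec,
      ← Matrix.mulVec_mulVec, C02_move _ (C02_pow_sym T hT m)]
  have h0 : v ⬝ᵥ ((T ^ (2 * m)) *ᵥ v) = x ⬝ᵥ x := by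
    have := ha 0
    simpa using this
  have h1 : v ⬝ᵥ ((T ^ (2 * m + 2)) *ᵥ v) = x ⬝ᵥ ((T ^ (2 * 1)) *ᵥ x) := by
    have := ha 1
    simpa using this
  rw [h0, h1]
  set a : ℕ → ℝ := fun k => x ⬝ᵥ ((T ^ (2 * k)) *ᵥ x) with haa
  have hnn : ∀ k, 0 ≤ a k := fun k => C02_nonneg T hT k x
  have hx0 : 0 ≤ x ⬝ᵥ x := C02_self_nonneg x
  have hcs : ∀ k, a k ^ 2 ≤ (x ⬝ᵥ x) * a (2 * k) := by
    intro k
    have h := C02_CS x ((T ^ (2 * k)) *ᵥ x)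
    have e : ((T ^ (2 * k)) *ᵥ x) ⬝ᵥ ((T ^ (2 * k)) *ᵥ x) = a (2 * k) := by
      rw [haa]
      simp only
      rw [C02_sq T hT]
    rw [e] at h
    exact h
  have hind : ∀ r : ℕ, a 1 ^ (2 ^ r) ≤ (x ⬝ᵥ x) ^ (2 ^ r - 1) * a (2 ^ r) := by
    intro r
    induction r with
    | zero => simp
    | succ r ih =>
      have hp : 0 < 2 ^ r := by positivity
      calc a 1 ^ (2 ^ (r + 1)) = (a 1 ^ (2 ^ r)) ^ 2 := by rw [← pow_mul, pow_succ]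
        _ ≤ ((x ⬝ᵥ x) ^ (2 ^ r - 1) * a (2 ^ r)) ^ 2 :=
            pow_le_pow_left₀ (pow_nonneg (hnn 1) _) ih 2
        _ = ((x ⬝ᵥ x) ^ (2 ^ r - 1)) ^ 2 * a (2 ^ r) ^ 2 := by ring
        _ ≤ ((x ⬝ᵥ x) ^ (2 ^ r - 1)) ^ 2 * ((x ⬝ᵥ x) * a (2 * 2 ^ r)) :=
            mul_le_mul_of_nonneg_left (hcs _) (by positivity)
        _ = (x ⬝ᵥ x) ^ (2 ^ (r + 1) - 1) * a (2 ^ (r + 1)) := by
            rw [← pow_mul, ← mul_assoc, ← pow_succ]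
            congr 2
            · have : 2 ^ (r + 1) = 2 * 2 ^ r := by ring
              omega
            · ring
  have hlast : a (2 ^ r) ≤ (T ^ (2 * 2 ^ r)).trace * (x ⬝ᵥ x) := by
    rw [haa]
    simp only
    rw [C02_sq T hT]
    have h := C02_op (T ^ (2 ^ r)) x
    rw [C02_pow_sym T hT, ← pow_add, ← two_mul] at h
    exact h
  have hp : 0 < 2 ^ r := by positivity
  calc a 1 ^ (2 ^ r) ≤ (x ⬝ᵥ x) ^ (2 ^ r - 1) * a (2 ^ r) := hind r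
    _ ≤ (x ⬝ᵥ x) ^ (2 ^ r - 1) * ((T ^ (2 * 2 ^ r)).trace * (x ⬝ᵥ x)) :=
        mul_le_mul_of_nonneg_left hlast (by positivity)
    _ = (T ^ (2 * 2 ^ r)).trace * ((x ⬝ᵥ x) ^ (2 ^ r - 1) * (x ⬝ᵥ x)) := by ring
    _ = (T ^ (2 * 2 ^ r)).trace * (x ⬝ᵥ x) ^ (2 ^ r) := by
        rw [← pow_succ, show 2 ^ r - 1 + 1 = 2 ^ r by omega]

theorem slab_main (r s : ℕ) (T : Matrix S S ℝ) (hT : Tᵀ = T) (P : ℕ → Matrix S S ℝ) (hP : ∀ ℓ, (P ℓ)ᵀ = P ℓ) (v : S → ℝ)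
    (h0 : 0 ≤ v ⬝ᵥ ((T ^ s * ((List.range (2 ^ r - 1)).map P).prod * T ^ s) *ᵥ v))
    (hZ : 0 < (T ^ (2 * 2 ^ r)).trace) (c : ℝ) (hc : 0 ≤ c)
    (hsw : (v ⬝ᵥ ((T ^ (2 * s)) *ᵥ v)) * (T ^ (2 * 2 ^ r)).trace ≤ c * (v ⬝ᵥ ((T ^ (2 * s + 2 * 2 ^ r)) *ᵥ v)))
    (ρ : ℕ → ℝ) (hρ : ∀ ℓ, 0 ≤ ρ ℓ) (hb : ∀ ℓ < 2 ^ r - 1, (P ℓ ^ (2 ^ r)).trace ≤ (T ^ (2 * 2 ^ r)).trace * ρ ℓ ^ (2 ^ r)) :
    v ⬝ᵥ ((T ^ s * ((List.range (2 ^ r - 1)).map P).prod * T ^ s) *ᵥ v) ≤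
      c * (v ⬝ᵥ ((T ^ (2 * (2 ^ r - 1) + 2 * s)) *ᵥ v)) * ∏ ℓ ∈ range (2 ^ r - 1), ρ ℓ := by
  set Nn : ℝ := v ⬝ᵥ ((T ^ s * ((List.range (2 ^ r - 1)).map P).prod * T ^ s) *ᵥ v) with hNn
  set Zp : ℝ := (T ^ (2 * 2 ^ r)).trace with hZp
  set A : ℝ := v ⬝ᵥ ((T ^ (2 * s)) *ᵥ v) with hA
  set L : ℕ := 2 ^ r with hL
  have hL1 : 1 ≤ L := Nat.one_le_two_pow
  have hA0 : 0 ≤ A := C02_nonneg T hT s v
  have h1 := slab_holder r s T hT P hP v h0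
  rw [← hNn, ← hA, ← hL] at h1
  set R : ℝ := ∏ ℓ ∈ range (L - 1), ρ ℓ with hR
  have hR0 : 0 ≤ R := Finset.prod_nonneg fun ℓ _ => hρ ℓ
  have h2 : ∏ ℓ ∈ range (L - 1), (P ℓ ^ L).trace ≤ ∏ ℓ ∈ range (L - 1), (Zp * ρ ℓ ^ L) := by
    apply Finset.prod_le_prod
    · intro ℓ hℓ
      rcases r with _ | r'
      · simp [hL] at hℓ
      · exact C02_trace_pow_nonneg r' (P ℓ) (hP ℓ)
    · intro ℓ hℓ
      exact hb ℓ (Finset.mem_range.mp hℓ)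
  have h3 : ∏ ℓ ∈ range (L - 1), (Zp * ρ ℓ ^ L) = Zp ^ (L - 1) * R ^ L := by
    rw [Finset.prod_mul_distrib, Finset.prod_const, Finset.card_range, Finset.prod_pow]
  rw [h3] at h2
  have h4 : Nn ^ L * Zp ≤ (A * Zp) ^ L * R ^ L := by
    calc Nn ^ L * Zp ≤ (A ^ L * (Zp ^ (L - 1) * R ^ L)) * Zp :=
          mul_le_mul_of_nonneg_right (h1.trans (mul_le_mul_of_nonneg_left h2 (by positivity))) hZ.le
      _ = A ^ L * (Zp ^ (L - 1) * Zp) * R ^ L := by ring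
      _ = (A * Zp) ^ L * R ^ L := by
          rw [← pow_succ, show L - 1 + 1 = L by omega, mul_pow]
  set A' : ℝ := v ⬝ᵥ ((T ^ (2 * (L - 1) + 2 * s)) *ᵥ v) with hA'
  have e1 : 2 * (L - 1) + 2 * s = 2 * (s + (L - 1)) := by ring
  have hA'0 : 0 ≤ A' := by
    rw [hA', e1]
    exact C02_nonneg T hT _ v
  have h5 := log_conv r (s + (L - 1)) T hT v
  rw [show 2 * (s + (L - 1)) + 2 = 2 * s + 2 * L by omega, ← hL, ← hZp, ← e1, ← hA'] at h5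
  have hAZ : 0 ≤ A * Zp := mul_nonneg hA0 hZ.le
  have h6 : Nn ^ L * Zp ≤ (c * A' * R) ^ L * Zp := by
    calc Nn ^ L * Zp ≤ (A * Zp) ^ L * R ^ L := h4
      _ ≤ (c * (v ⬝ᵥ ((T ^ (2 * s + 2 * L)) *ᵥ v))) ^ L * R ^ L :=
          mul_le_mul_of_nonneg_right (pow_le_pow_left₀ hAZ hsw L) (by positivity)
      _ = c ^ L * (v ⬝ᵥ ((T ^ (2 * s + 2 * L)) *ᵥ v)) ^ L * R ^ L := by rw [mul_pow]
      _ ≤ c ^ L * (Zp * A' ^ L) * R ^ L :=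
          mul_le_mul_of_nonneg_right (mul_le_mul_of_nonneg_left h5 (by positivity)) (by positivity)
      _ = (c * A' * R) ^ L * Zp := by
          rw [mul_pow, mul_pow]
          ring
  have h7 : Nn ^ L ≤ (c * A' * R) ^ L := le_of_mul_le_mul_right h6 hZ
  exact (pow_le_pow_iff_left₀ h0 (by positivity) (by omega)).mp h7

end Pool.Agent.LC
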