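import Pool.Agent.Lib_MP_2c424f_lc6.Defs
import Pool.Agent.Lib_MP_2c424f_lc6.C01
import Pool.Agent.Lib_MP_2c424f_lc2.B02

/-!
# LC6 C03: the product domains in layers

A pair `(f, g)` of colourings of `WV per L s` is a family of layers `σ : Fin (lm (per j) (L j) s + 1) → (YV → Fin q × Fin q)`,
`σ a y = (f (inj j a y), g (inj j a y))` (`layE`, `split_proper` of `Lib_MP_2c424f_lc2/B02.lean`; note `YV j (fun i => per i) L s` is
definitionally the type of the families over `{i // i ≠ j}`).  The pair is counted in `N2` iff every layer is `vld`, neighbouring layers are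
`dif`, the layers `0` and last are `smy` if `per j = false`, and the events hold.
The block `t` has its points in the layers `off + 2 t j + {0, 1, 2}`: `Wpt per L s t a b = inj j (Fin.ofNat _ (..)) (Ypt ..)`, so for
`off + 2 t_j = 2 ℓ'` the event is `Qs` (with `ℓ = t j`) of the layers `2ℓ', 2ℓ'+1, 2ℓ'+2`.
* `path_val` (`s` even, `s ≥ 1`, `m = lm false (L j) s = 2 (L j - 1 + s)`): `slab_path` with `n = L j - 1 + s`, `u = w = vY`,
  `M ℓ a b c = T a b T b c [Qs (ℓ - s/2) a b c if s/2 ≤ ℓ < s/2 + L j - 1]`; the free slabs give `T^2`, in all `T^s` before and after.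
* `ring_val` (`m + 1 = 2 L j`): `slab_ring` with `n = L j`.
-/

set_option autoImplicit false

open Finset Matrix

namespace Pool.Agent.LC

open Pool.Agent.LO Pool.Agent.LIN Pool.Agent.THR Pool.Agent.COR

variable {d q : ℕ}

private theorem c3_inj_same {I : Type} [DecidableEq I] {n : I → ℕ} (j : I) (a : Fin (n j))
    (y : ∀ i : {i // i ≠ j}, Fin (n i)) : inj j a y j = a := by
  unfold inj
  simp [Equiv.piSplitAt]

private theorem c3_inj_ne {I : Type} [DecidableEq I] {n : I → ℕ} (j : I) (a : Fin (n j))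
    (y : ∀ i : {i // i ≠ j}, Fin (n i)) (i : I) (h : i ≠ j) : inj j a y i = y ⟨i, h⟩ := by
  unfold inj
  simp [Equiv.piSplitAt, h]

private theorem c3_inj_surj {I : Type} [DecidableEq I] {n : I → ℕ} (j : I) (x : ∀ i, Fin (n i)) :
    inj j (x j) (fun i => x i) = x := by
  funext i
  by_cases h : i = j
  · subst h
    exact c3_inj_same _ _ _
  · rw [c3_inj_ne j _ _ i h]

/-- pairs of colourings are families of layers -/
private def pairE (q : ℕ) (per : Fin d → Bool) (L : Fin d → ℕ) (s : ℕ) (j : Fin d) :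
    ((WV per L s → Fin q) × (WV per L s → Fin q)) ≃
      (Fin (lm (per j) (L j) s + 1) → YV j (fun i => per i) L s → Fin q × Fin q) :=
  (Equiv.arrowProdEquivProdArrow (WV per L s) (fun _ => Fin q) (fun _ => Fin q)).symm.trans
    (layE (n := fun i => lm (per i) (L i) s + 1) (Fin q × Fin q) j)

private theorem pairE_apply (per : Fin d → Bool) (L : Fin d → ℕ) (s : ℕ) (j : Fin d)
    (p : (WV per L s → Fin q) × (WV per L s → Fin q)) (a : Fin (lm (per j) (L j) s + 1))
    (y : YV j (fun i => per i) L s) :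
    pairE q per L s j p a y =
      (p.1 (inj (n := fun i => lm (per i) (L i) s + 1) j a y), p.2 (inj (n := fun i => lm (per i) (L i) s + 1) j a y)) := rfl

private theorem Wpt_inj (per : Fin d → Bool) (L : Fin d → ℕ) (s : ℕ) (j : Fin d) (t : Fin d → ℕ) (α β : Bt d) :
    Wpt per L s t α β = inj (n := fun i => lm (per i) (L i) s + 1) j
      (Fin.ofNat (lm (per j) (L j) s + 1) (off (per j) s + 2 * t j + b01 (α j) + b01 (β j)))
      (Ypt j (fun i => per i) L s t α β) := by
  funext i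
  by_cases h : i = j
  · subst h
    rw [c3_inj_same]
    rfl
  · rw [c3_inj_ne j _ _ i h]
    rfl

private theorem l3_b01 {A : Type} (N o : ℕ) (σ : Fin (N + 1) → A) (x y : Bool) :
    σ (Fin.ofNat (N + 1) (o + b01 x + b01 y)) =
      l3 (σ (Fin.ofNat (N + 1) o)) (σ (Fin.ofNat (N + 1) (o + 1))) (σ (Fin.ofNat (N + 1) (o + 2))) x y := by
  cases x <;> cases y <;> rfl

open scoped Classical in
private theorem N2_layers (per : Fin d → Bool) (L : Fin d → ℕ) (s : ℕ) (j : Fin d)
    (Γ : (Fin d → ℕ) → Option (Option (Fin q))) :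
    N2 (WG per L s) (Wgl per L s) (WE per L s Γ) =
      ∑ σ : Fin (lm (per j) (L j) s + 1) → YV j (fun i => per i) L s → Fin q × Fin q,
        (if (∀ a, vld (YG j (fun i => per i) L s) (Ygl j (fun i => per i) L s) (σ a)) ∧
            (∀ a a', (lnG (per j) (lm (per j) (L j) s + 1)).Adj a a' → dif (σ a) (σ a')) ∧
            (∀ a : Fin (lm (per j) (L j) s + 1), per j = false → (a.val = 0 ∨ a.val = lm (per j) (L j) s) → smy (σ a)) ∧
            ∀ ℓ < nbk (per j) (L j), Qs j (fun i => per i) L s Γ ℓ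
              (σ (Fin.ofNat (lm (per j) (L j) s + 1) (off (per j) s + 2 * ℓ)))
              (σ (Fin.ofNat (lm (per j) (L j) s + 1) (off (per j) s + 2 * ℓ + 1)))
              (σ (Fin.ofNat (lm (per j) (L j) s + 1) (off (per j) s + 2 * ℓ + 2))) then (1 : ℝ) else 0) := by
  unfold N2
  rw [Finset.sum_boole, Nat.cast_inj]
  refine Finset.card_equiv (pairE q per L s j) fun p => ?_
  simp only [Finset.mem_filter, Finset.mem_univ, true_and]
  have h1 := split_proper (n := fun i => lm (per i) (L i) s + 1) j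
    (fun i => lnG (per i) (lm (per i) (L i) s + 1)) p.1
  have h2 := split_proper (n := fun i => lm (per i) (L i) s + 1) j
    (fun i => lnG (per i) (lm (per i) (L i) s + 1)) p.2
  have hW : ∀ t : Fin d → ℕ, ∀ α β : Bt d, p.1 (Wpt per L s t α β) =
      (l3 (pairE q per L s j p (Fin.ofNat (lm (per j) (L j) s + 1) (off (per j) s + 2 * t j)))
        (pairE q per L s j p (Fin.ofNat (lm (per j) (L j) s + 1) (off (per j) s + 2 * t j + 1)))
        (pairE q per L s j p (Fin.ofNat (lm (per j) (L j) s + 1) (off (per j) s + 2 * t j + 2)))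
        (α j) (β j) (Ypt j (fun i => per i) L s t α β)).1 := by
    intro t α β
    rw [Wpt_inj per L s j t α β, ← l3_b01]
    rfl
  constructor
  · rintro ⟨hf, hg, hgl, hE⟩
    obtain ⟨hf1, hf2⟩ := h1.1 hf
    obtain ⟨hg1, hg2⟩ := h2.1 hg
    refine ⟨fun a => ⟨fun y y' hy => hf1 a y y' hy, fun y y' hy => hg1 a y y' hy, ?_⟩, fun a a' ha y => ⟨hf2 a a' ha y, hg2 a a' ha y⟩, ?_, ?_⟩
    · rintro y ⟨i, hi, hi2⟩
      refine hgl (inj (n := fun i => lm (per i) (L i) s + 1) j a y) ⟨i.1, hi, ?_⟩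
      have := c3_inj_ne (n := fun i => lm (per i) (L i) s + 1) j a y i.1 i.2
      rw [this]
      exact hi2
    · intro a hp ha y
      refine hgl (inj (n := fun i => lm (per i) (L i) s + 1) j a y) ⟨j, hp, ?_⟩
      have := c3_inj_same (n := fun i => lm (per i) (L i) s + 1) j a y
      rw [this]
      exact ha
    · intro ℓ hℓ t ht htn τ hτ
      have h3 := hE t (fun i => by
        by_cases h : i = j
        · subst h
          rw [ht]
          exact hℓ
        · exact htn ⟨i, h⟩) τ hτ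
      have e : (fun α β => p.1 (Wpt per L s t α β)) = fun α β =>
          (l3 (pairE q per L s j p (Fin.ofNat (lm (per j) (L j) s + 1) (off (per j) s + 2 * ℓ)))
        (pairE q per L s j p (Fin.ofNat (lm (per j) (L j) s + 1) (off (per j) s + 2 * ℓ + 1)))
        (pairE q per L s j p (Fin.ofNat (lm (per j) (L j) s + 1) (off (per j) s + 2 * ℓ + 2)))
        (α j) (β j) (Ypt j (fun i => per i) L s t α β)).1 := by
        funext α β
        rw [hW t α β, ht]
      rw [e] at h3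
      exact h3
  · rintro ⟨hv, hd, hs, hQ⟩
    refine ⟨h1.2 ⟨fun a y y' hy => (hv a).1 y y' hy, fun a a' ha y => (hd a a' ha y).1⟩,
      h2.2 ⟨fun a y y' hy => (hv a).2.1 y y' hy, fun a a' ha y => (hd a a' ha y).2⟩, ?_, ?_⟩
    · rintro x ⟨i, hi, hi2⟩
      have e := c3_inj_surj (n := fun i => lm (per i) (L i) s + 1) j x
      by_cases h : i = j
      · subst h
        have h4 := hs (x i) hi hi2 (fun k => x k)
        rw [pairE_apply] at h4
        simp only at h4
        rw [e] at h4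
        exact h4
      · have h4 := (hv (x j)).2.2 (fun k => x k) ⟨⟨i, h⟩, hi, hi2⟩
        rw [pairE_apply] at h4
        simp only at h4
        rw [e] at h4
        exact h4
    · intro t ht τ hτ
      have h4 := hQ (t j) (ht j) t rfl (fun i => ht i.1) τ hτ
      have e : (fun α β => p.1 (Wpt per L s t α β)) = fun α β =>
          (l3 (pairE q per L s j p (Fin.ofNat (lm (per j) (L j) s + 1) (off (per j) s + 2 * t j)))
        (pairE q per L s j p (Fin.ofNat (lm (per j) (L j) s + 1) (off (per j) s + 2 * t j + 1)))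
        (pairE q per L s j p (Fin.ofNat (lm (per j) (L j) s + 1) (off (per j) s + 2 * t j + 2)))
        (α j) (β j) (Ypt j (fun i => per i) L s t α β)).1 := by
        funext α β
        exact hW t α β
      rw [e]
      exact h4

private theorem ofNat_val (m k : ℕ) (h : k ≤ m) : (Fin.ofNat (m + 1) k).val = k := by
  show k % (m + 1) = k
  exact Nat.mod_eq_of_lt (by omega)

private theorem eq_ofNat (m : ℕ) (a : Fin (m + 1)) : a = Fin.ofNat (m + 1) a.val := by
  apply Fin.ext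
  rw [ofNat_val m _ (by omega)]

private theorem prod_sq {S : Type} [Fintype S] [DecidableEq S] (T : Matrix S S ℝ) (F : ℕ → Matrix S S ℝ) (k : ℕ)
    (h : ∀ ℓ < k, F ℓ = T * T) : ((List.range k).map F).prod = T ^ (2 * k) := by
  induction k with
  | zero => simp
  | succ k ih =>
    rw [List.range_succ, List.map_append, List.prod_append, ih fun ℓ hℓ => h ℓ (by omega)]
    simp only [List.map_cons, List.map_nil, List.prod_cons, List.prod_nil, mul_one]
    rw [h k (by omega), show 2 * (k + 1) = 2 * k + 2 by ring, pow_add, pow_two]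

open scoped Classical in
private theorem path_sum {S : Type} [Fintype S] [DecidableEq S] (m n s' K : ℕ) (hm : m = 2 * n) (hn : n = s' + K + s')
    (hs : 1 ≤ s') (V : S → Prop) (D : S → S → Prop) (hD : ∀ a b, D a b → D b a) (Y : S → Prop) (Q : ℕ → S → S → S → Prop)
    (T : Matrix S S ℝ) (hT : ∀ a b, T a b = if V a ∧ V b ∧ D a b then 1 else 0)
    (P : ℕ → Matrix S S ℝ) (hP : ∀ ℓ a c, P ℓ a c = ∑ b, T a b * T b c * (if Q ℓ a b c then 1 else 0))
    (v : S → ℝ) (hv : ∀ a, v a = if Y a then 1 else 0) :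
    ∑ σ : Fin (m + 1) → S, (if (∀ a, V (σ a)) ∧ (∀ a a', (lnG false (m + 1)).Adj a a' → D (σ a) (σ a')) ∧
        (∀ a : Fin (m + 1), (a.val = 0 ∨ a.val = m) → Y (σ a)) ∧
        ∀ ℓ < K, Q ℓ (σ (Fin.ofNat (m + 1) (2 * s' + 2 * ℓ))) (σ (Fin.ofNat (m + 1) (2 * s' + 2 * ℓ + 1)))
          (σ (Fin.ofNat (m + 1) (2 * s' + 2 * ℓ + 2))) then (1 : ℝ) else 0) =
      v ⬝ᵥ ((T ^ (2 * s') * ((List.range K).map P).prod * T ^ (2 * s')) *ᵥ v) := by
  obtain ⟨M, hM⟩ : ∃ M : ℕ → S → S → S → ℝ, ∀ ℓ a b c, M ℓ a b c =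
      if (V a ∧ V b ∧ D a b) ∧ (V c ∧ D b c) ∧ (s' ≤ ℓ → ℓ < s' + K → Q (ℓ - s') a b c) then 1 else 0 :=
    ⟨fun ℓ a b c => if (V a ∧ V b ∧ D a b) ∧ (V c ∧ D b c) ∧ (s' ≤ ℓ → ℓ < s' + K → Q (ℓ - s') a b c) then 1 else 0,
      fun _ _ _ _ => rfl⟩
  have hprod : (((List.range n).map fun ℓ => (Matrix.of fun a c => ∑ b, M ℓ a b c : Matrix S S ℝ)).prod) =
      T ^ (2 * s') * ((List.range K).map P).prod * T ^ (2 * s') := by
    have hfree : ∀ ℓ, ¬ (s' ≤ ℓ ∧ ℓ < s' + K) → (Matrix.of fun a c => ∑ b, M ℓ a b c : Matrix S S ℝ) = T * T := by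
      intro ℓ hℓ
      ext a c
      rw [Matrix.of_apply, Matrix.mul_apply]
      refine Finset.sum_congr rfl fun b _ => ?_
      rw [hM, hT, hT]
      by_cases h1 : V a ∧ V b ∧ D a b
      · by_cases h2 : V c ∧ D b c
        · rw [if_pos ⟨h1, h2, fun h3 h4 => absurd ⟨h3, h4⟩ hℓ⟩, if_pos h1, if_pos ⟨h1.2.1, h2.1, h2.2⟩, mul_one]
        · rw [if_neg fun h => h2 h.2.1, if_neg (c := V b ∧ V c ∧ D b c) fun h => h2 ⟨h.2.1, h.2.2⟩, mul_zero]
      · rw [if_neg fun h => h1 h.1, if_neg h1, zero_mul]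
    have hmid : ∀ ℓ < K, (Matrix.of fun a c => ∑ b, M (s' + ℓ) a b c : Matrix S S ℝ) = P ℓ := by
      intro ℓ hℓ
      ext a c
      rw [Matrix.of_apply, hP]
      refine Finset.sum_congr rfl fun b _ => ?_
      rw [hM, hT, hT, show s' + ℓ - s' = ℓ by omega]
      by_cases h1 : V a ∧ V b ∧ D a b
      · by_cases h2 : V c ∧ D b c
        · by_cases h3 : Q ℓ a b c
          · rw [if_pos ⟨h1, h2, fun _ _ => h3⟩, if_pos h1, if_pos ⟨h1.2.1, h2.1, h2.2⟩, if_pos h3, mul_one, mul_one]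
          · rw [if_neg fun h => h3 (h.2.2 (by omega) (by omega)), if_neg h3, mul_zero]
        · rw [if_neg fun h => h2 h.2.1, if_neg (c := V b ∧ V c ∧ D b c) fun h => h2 ⟨h.2.1, h.2.2⟩, mul_zero, zero_mul]
      · rw [if_neg fun h => h1 h.1, if_neg h1, zero_mul, zero_mul]
    rw [hn, List.range_add, List.range_add, List.map_append, List.map_append, List.prod_append, List.prod_append]
    rw [prod_sq T _ s' fun ℓ hℓ => hfree ℓ (by omega), List.map_map, List.map_map]
    congr 1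
    · congr 2
      refine List.map_congr_left fun ℓ hℓ => ?_
      exact hmid ℓ (List.mem_range.1 hℓ)
    · refine prod_sq T _ s' fun ℓ _ => ?_
      exact hfree (s' + K + ℓ) (by omega)
  rw [← hprod, ← slab_path n m hm M v v]
  refine Finset.sum_congr rfl fun σ _ => ?_
  rw [hv, hv]
  have hE : (∏ ℓ ∈ range n, M ℓ (σ (Fin.ofNat (m + 1) (2 * ℓ))) (σ (Fin.ofNat (m + 1) (2 * ℓ + 1)))
      (σ (Fin.ofNat (m + 1) (2 * ℓ + 2)))) = if ∀ ℓ ∈ range n,
        (V (σ (Fin.ofNat (m + 1) (2 * ℓ))) ∧ V (σ (Fin.ofNat (m + 1) (2 * ℓ + 1))) ∧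
          D (σ (Fin.ofNat (m + 1) (2 * ℓ))) (σ (Fin.ofNat (m + 1) (2 * ℓ + 1)))) ∧
        (V (σ (Fin.ofNat (m + 1) (2 * ℓ + 2))) ∧ D (σ (Fin.ofNat (m + 1) (2 * ℓ + 1))) (σ (Fin.ofNat (m + 1) (2 * ℓ + 2)))) ∧
        (s' ≤ ℓ → ℓ < s' + K → Q (ℓ - s') (σ (Fin.ofNat (m + 1) (2 * ℓ))) (σ (Fin.ofNat (m + 1) (2 * ℓ + 1)))
          (σ (Fin.ofNat (m + 1) (2 * ℓ + 2)))) then (1 : ℝ) else 0 := by
    rw [Finset.prod_congr rfl fun ℓ _ => hM ℓ _ _ _, Finset.prod_ite_zero, Finset.prod_const_one]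
  rw [hE]
  have h0 : ((0 : Fin (m + 1)) : ℕ) = 0 := rfl
  have hl : ((Fin.last m : Fin (m + 1)) : ℕ) = m := rfl
  by_cases hc : (∀ a, V (σ a)) ∧ (∀ a a', (lnG false (m + 1)).Adj a a' → D (σ a) (σ a')) ∧
        (∀ a : Fin (m + 1), (a.val = 0 ∨ a.val = m) → Y (σ a)) ∧
        ∀ ℓ < K, Q ℓ (σ (Fin.ofNat (m + 1) (2 * s' + 2 * ℓ))) (σ (Fin.ofNat (m + 1) (2 * s' + 2 * ℓ + 1)))
          (σ (Fin.ofNat (m + 1) (2 * s' + 2 * ℓ + 2)))
  · rw [if_pos hc, if_pos (hc.2.2.1 0 (Or.inl h0)), if_pos (hc.2.2.1 (Fin.last m) (Or.inr hl)), if_pos, mul_one, mul_one]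
    obtain ⟨h1, h2, -, h4⟩ := hc
    have hadj : ∀ k, k + 1 ≤ m → D (σ (Fin.ofNat (m + 1) k)) (σ (Fin.ofNat (m + 1) (k + 1))) := by
      intro k hk
      refine h2 _ _ ⟨?_, Or.inl ?_⟩
      · intro h
        have := congrArg Fin.val h
        rw [ofNat_val m _ (by omega), ofNat_val m _ (by omega)] at this
        omega
      · rw [ofNat_val m _ (by omega), ofNat_val m _ (by omega)]
    intro ℓ hℓ
    rw [Finset.mem_range] at hℓ
    refine ⟨⟨h1 _, h1 _, hadj _ (by omega)⟩, ⟨h1 _, hadj (2 * ℓ + 1) (by omega)⟩, fun h5 h6 => ?_⟩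
    have h7 := h4 (ℓ - s') (by omega)
    rw [show 2 * s' + 2 * (ℓ - s') = 2 * ℓ by omega] at h7
    exact h7
  · rw [if_neg hc]
    symm
    by_cases hy0 : Y (σ 0)
    swap
    · rw [if_neg hy0, zero_mul, zero_mul]
    by_cases hyl : Y (σ (Fin.last m))
    swap
    · rw [if_neg hyl, mul_zero, zero_mul]
    rw [if_pos hy0, if_pos hyl, if_neg, mul_zero]
    intro hall
    apply hc
    have hall' : ∀ ℓ < n, _ := fun ℓ hℓ => hall ℓ (Finset.mem_range.2 hℓ)
    have hD2 : ∀ k, k + 1 ≤ m → D (σ (Fin.ofNat (m + 1) k)) (σ (Fin.ofNat (m + 1) (k + 1))) := by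
      intro k hk
      rcases Nat.even_or_odd' k with ⟨r, hr | hr⟩
      · rw [hr]
        exact (hall' r (by omega)).1.2.2
      · rw [hr]
        exact (hall' r (by omega)).2.1.2
    refine ⟨fun a => ?_, fun a a' ha => ?_, fun a ha => ?_, fun ℓ hℓ => ?_⟩
    · rw [eq_ofNat m a]
      have ha := a.2
      rcases Nat.even_or_odd' a.val with ⟨r, hr | hr⟩
      · by_cases hrn : r < n
        · rw [hr]
          exact (hall' r hrn).1.1
        · rw [hr, show 2 * r = 2 * (r - 1) + 2 by omega]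
          exact (hall' (r - 1) (by omega)).2.1.1
      · rw [hr]
        exact (hall' r (by omega)).1.2.1
    · obtain ⟨h1, h2⟩ := ha
      have ha := a.2
      have ha' := a'.2
      rcases h2 with h2 | h2 | ⟨h2, -⟩
      · have := hD2 a.val (by omega)
        rw [h2, ← eq_ofNat, ← eq_ofNat] at this
        exact this
      · have := hD2 a'.val (by omega)
        rw [h2, ← eq_ofNat, ← eq_ofNat] at this
        exact hD _ _ this
      · exact absurd h2 (by decide)
    · rcases ha with ha | ha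
      · rwa [show a = 0 from Fin.ext ha]
      · rwa [show a = Fin.last m from Fin.ext ha]
    · have h7 := (hall' (s' + ℓ) (by omega)).2.2 (by omega) (by omega)
      rw [show 2 * (s' + ℓ) = 2 * s' + 2 * ℓ by ring, show s' + ℓ - s' = ℓ by omega] at h7
      exact h7

open scoped Classical in
private theorem ring_sum {S : Type} [Fintype S] [DecidableEq S] (m n : ℕ) (hm : m + 1 = 2 * n) (hn : 1 ≤ n)
    (V : S → Prop) (D : S → S → Prop) (hD : ∀ a b, D a b → D b a) (Q : ℕ → S → S → S → Prop)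
    (T : Matrix S S ℝ) (hT : ∀ a b, T a b = if V a ∧ V b ∧ D a b then 1 else 0)
    (P : ℕ → Matrix S S ℝ) (hP : ∀ ℓ a c, P ℓ a c = ∑ b, T a b * T b c * (if Q ℓ a b c then 1 else 0)) :
    ∑ σ : Fin (m + 1) → S, (if (∀ a, V (σ a)) ∧ (∀ a a', (lnG true (m + 1)).Adj a a' → D (σ a) (σ a')) ∧
        ∀ ℓ < n, Q ℓ (σ (Fin.ofNat (m + 1) (2 * ℓ))) (σ (Fin.ofNat (m + 1) (2 * ℓ + 1)))
          (σ (Fin.ofNat (m + 1) (2 * ℓ + 2))) then (1 : ℝ) else 0) =
      (((List.range n).map P).prod).trace := by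
  obtain ⟨M, hM⟩ : ∃ M : ℕ → S → S → S → ℝ, ∀ ℓ a b c, M ℓ a b c =
      if (V a ∧ V b ∧ D a b) ∧ (V c ∧ D b c) ∧ Q ℓ a b c then 1 else 0 :=
    ⟨fun ℓ a b c => if (V a ∧ V b ∧ D a b) ∧ (V c ∧ D b c) ∧ Q ℓ a b c then 1 else 0,
      fun _ _ _ _ => rfl⟩
  have hPM : (fun ℓ => (Matrix.of fun a c => ∑ b, M ℓ a b c : Matrix S S ℝ)) = P := by
    funext ℓ
    ext a c
    rw [Matrix.of_apply, hP]
    refine Finset.sum_congr rfl fun b _ => ?_
    rw [hM, hT, hT]
    by_cases h1 : V a ∧ V b ∧ D a b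
    · by_cases h2 : V c ∧ D b c
      · by_cases h3 : Q ℓ a b c
        · rw [if_pos ⟨h1, h2, h3⟩, if_pos h1, if_pos ⟨h1.2.1, h2.1, h2.2⟩, if_pos h3, mul_one, mul_one]
        · rw [if_neg fun h => h3 h.2.2, if_neg h3, mul_zero]
      · rw [if_neg fun h => h2 h.2.1, if_neg (c := V b ∧ V c ∧ D b c) fun h => h2 ⟨h.2.1, h.2.2⟩, mul_zero, zero_mul]
    · rw [if_neg fun h => h1 h.1, if_neg h1, zero_mul, zero_mul]
  rw [← hPM, ← slab_ring n m hn hm M]
  refine Finset.sum_congr rfl fun σ _ => ?_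
  have hE : (∏ ℓ ∈ range n, M ℓ (σ (Fin.ofNat (m + 1) (2 * ℓ))) (σ (Fin.ofNat (m + 1) (2 * ℓ + 1)))
      (σ (Fin.ofNat (m + 1) (2 * ℓ + 2)))) = if ∀ ℓ ∈ range n,
        (V (σ (Fin.ofNat (m + 1) (2 * ℓ))) ∧ V (σ (Fin.ofNat (m + 1) (2 * ℓ + 1))) ∧
          D (σ (Fin.ofNat (m + 1) (2 * ℓ))) (σ (Fin.ofNat (m + 1) (2 * ℓ + 1)))) ∧
        (V (σ (Fin.ofNat (m + 1) (2 * ℓ + 2))) ∧ D (σ (Fin.ofNat (m + 1) (2 * ℓ + 1))) (σ (Fin.ofNat (m + 1) (2 * ℓ + 2)))) ∧
        Q ℓ (σ (Fin.ofNat (m + 1) (2 * ℓ))) (σ (Fin.ofNat (m + 1) (2 * ℓ + 1)))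
          (σ (Fin.ofNat (m + 1) (2 * ℓ + 2))) then (1 : ℝ) else 0 := by
    rw [Finset.prod_congr rfl fun ℓ _ => hM ℓ _ _ _, Finset.prod_ite_zero, Finset.prod_const_one]
  rw [hE]
  by_cases hc : (∀ a, V (σ a)) ∧ (∀ a a', (lnG true (m + 1)).Adj a a' → D (σ a) (σ a')) ∧
        ∀ ℓ < n, Q ℓ (σ (Fin.ofNat (m + 1) (2 * ℓ))) (σ (Fin.ofNat (m + 1) (2 * ℓ + 1)))
          (σ (Fin.ofNat (m + 1) (2 * ℓ + 2)))
  · rw [if_pos hc, if_pos]
    obtain ⟨h1, h2, h4⟩ := hc
    have hadj : ∀ k, k ≤ m → D (σ (Fin.ofNat (m + 1) k)) (σ (Fin.ofNat (m + 1) (k + 1))) := by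
      intro k hk
      by_cases hkm : k = m
      · have e : Fin.ofNat (m + 1) (k + 1) = Fin.ofNat (m + 1) 0 := by
          apply Fin.ext
          show (k + 1) % (m + 1) = 0 % (m + 1)
          rw [hkm]
          simp
        rw [e]
        refine h2 _ _ ⟨?_, Or.inr (Or.inr ⟨rfl, Or.inr ⟨?_, ?_⟩⟩)⟩
        · intro h
          have := congrArg Fin.val h
          rw [ofNat_val m _ (by omega), ofNat_val m _ (by omega)] at this
          omega
        · rw [ofNat_val m _ (by omega)]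
        · rw [ofNat_val m _ (by omega)]
          omega
      · refine h2 _ _ ⟨?_, Or.inl ?_⟩
        · intro h
          have := congrArg Fin.val h
          rw [ofNat_val m _ (by omega), ofNat_val m _ (by omega)] at this
          omega
        · rw [ofNat_val m _ (by omega), ofNat_val m _ (by omega)]
    intro ℓ hℓ
    rw [Finset.mem_range] at hℓ
    exact ⟨⟨h1 _, h1 _, hadj _ (by omega)⟩, ⟨h1 _, hadj (2 * ℓ + 1) (by omega)⟩, h4 ℓ hℓ⟩
  · rw [if_neg hc]
    symm
    rw [if_neg]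
    intro hall
    apply hc
    have hall' : ∀ ℓ < n, _ := fun ℓ hℓ => hall ℓ (Finset.mem_range.2 hℓ)
    have hD2 : ∀ k, k ≤ m → D (σ (Fin.ofNat (m + 1) k)) (σ (Fin.ofNat (m + 1) (k + 1))) := by
      intro k hk
      rcases Nat.even_or_odd' k with ⟨r, hr | hr⟩
      · rw [hr]
        exact (hall' r (by omega)).1.2.2
      · rw [hr]
        exact (hall' r (by omega)).2.1.2
    refine ⟨fun a => ?_, fun a a' ha => ?_, fun ℓ hℓ => ?_⟩
    · rw [eq_ofNat m a]
      have ha := a.2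
      rcases Nat.even_or_odd' a.val with ⟨r, hr | hr⟩
      · rw [hr]
        exact (hall' r (by omega)).1.1
      · rw [hr]
        exact (hall' r (by omega)).1.2.1
    · obtain ⟨h1, h2⟩ := ha
      have ha := a.2
      have ha' := a'.2
      rcases h2 with h2 | h2 | ⟨-, ⟨h2, h3⟩ | ⟨h2, h3⟩⟩
      · have := hD2 a.val (by omega)
        rw [h2, ← eq_ofNat, ← eq_ofNat] at this
        exact this
      · have := hD2 a'.val (by omega)
        rw [h2, ← eq_ofNat, ← eq_ofNat] at this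
        exact hD _ _ this
      · have h5 := hD2 a'.val (by omega)
        have h6 : Fin.ofNat (m + 1) (a'.val + 1) = a := by
          apply Fin.ext
          show (a'.val + 1) % (m + 1) = a.val
          rw [h3, h2, Nat.mod_self]
        rw [h6, ← eq_ofNat] at h5
        exact hD _ _ h5
      · have h5 := hD2 a.val (by omega)
        have h6 : Fin.ofNat (m + 1) (a.val + 1) = a' := by
          apply Fin.ext
          show (a.val + 1) % (m + 1) = a'.val
          rw [h3, h2, Nat.mod_self]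
        rw [h6, ← eq_ofNat] at h5
        exact h5
    · exact (hall' ℓ hℓ).2.2

private theorem dif_symm' {Y : Type} (σ σ' : Y → Fin q × Fin q) (h : dif σ σ') : dif σ' σ :=
  fun y => ⟨(h y).1.symm, (h y).2.symm⟩

open scoped Classical in
private theorem TY_eq {Y : Type} (H : SimpleGraph Y) (g : Y → Prop) (a b : Y → Fin q × Fin q) :
    TY q H g a b = if vld H g a ∧ vld H g b ∧ dif a b then 1 else 0 := by
  unfold TY
  rw [Matrix.of_apply]

open scoped Classical in
private theorem Ps_eq (j : Fin d) (p : {i // i ≠ j} → Bool) (L : Fin d → ℕ) (s : ℕ)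
    (Γ : (Fin d → ℕ) → Option (Option (Fin q))) (ℓ : ℕ) (a c : YV j p L s → Fin q × Fin q) :
    Ps j p L s Γ ℓ a c = ∑ b, TY q (YG j p L s) (Ygl j p L s) a b * TY q (YG j p L s) (Ygl j p L s) b c *
      (if Qs j p L s Γ ℓ a b c then 1 else 0) := by
  unfold Ps
  rw [Matrix.of_apply]

theorem path_val (per : Fin d → Bool) (L : Fin d → ℕ) (s : ℕ) (j : Fin d) (hj : per j = false) (hs : Even s) (hs1 : 1 ≤ s)
    (hL : 1 ≤ L j) (Γ : (Fin d → ℕ) → Option (Option (Fin q))) :
    N2 (WG per L s) (Wgl per L s) (WE per L s Γ) =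
      vY q (YV j (fun i => per i) L s) ⬝ᵥ
        ((TY q (YG j (fun i => per i) L s) (Ygl j (fun i => per i) L s) ^ s *
          ((List.range (L j - 1)).map (Ps j (fun i => per i) L s Γ)).prod *
          TY q (YG j (fun i => per i) L s) (Ygl j (fun i => per i) L s) ^ s) *ᵥ vY q (YV j (fun i => per i) L s)) := by
  classical
  obtain ⟨s', hs'⟩ := hs
  have hs2 : s = 2 * s' := by omega
  rw [N2_layers per L s j Γ]
  have key : ∀ (pj : Bool), pj = false →
      ∑ σ : Fin (lm pj (L j) s + 1) → YV j (fun i => per i) L s → Fin q × Fin q,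
        (if (∀ a, vld (YG j (fun i => per i) L s) (Ygl j (fun i => per i) L s) (σ a)) ∧
            (∀ a a', (lnG pj (lm pj (L j) s + 1)).Adj a a' → dif (σ a) (σ a')) ∧
            (∀ a : Fin (lm pj (L j) s + 1), pj = false → (a.val = 0 ∨ a.val = lm pj (L j) s) → smy (σ a)) ∧
            ∀ ℓ < nbk pj (L j), Qs j (fun i => per i) L s Γ ℓ
              (σ (Fin.ofNat (lm pj (L j) s + 1) (off pj s + 2 * ℓ)))
              (σ (Fin.ofNat (lm pj (L j) s + 1) (off pj s + 2 * ℓ + 1)))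
              (σ (Fin.ofNat (lm pj (L j) s + 1) (off pj s + 2 * ℓ + 2))) then (1 : ℝ) else 0) =
      vY q (YV j (fun i => per i) L s) ⬝ᵥ
        ((TY q (YG j (fun i => per i) L s) (Ygl j (fun i => per i) L s) ^ s *
          ((List.range (L j - 1)).map (Ps j (fun i => per i) L s Γ)).prod *
          TY q (YG j (fun i => per i) L s) (Ygl j (fun i => per i) L s) ^ s) *ᵥ vY q (YV j (fun i => per i) L s)) := by
    rintro _ rfl
    have h1 := path_sum (lm false (L j) s) (L j - 1 + s) s' (L j - 1)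
      (by unfold lm; rw [if_neg (by decide)]; ring) (by omega) (by omega)
      (vld (YG j (fun i => per i) L s) (Ygl j (fun i => per i) L s)) dif dif_symm' smy
      (Qs j (fun i => per i) L s Γ) (TY q (YG j (fun i => per i) L s) (Ygl j (fun i => per i) L s))
      (TY_eq _ _) (Ps j (fun i => per i) L s Γ) (fun ℓ a c => Ps_eq j _ L s Γ ℓ a c)
      (vY q (YV j (fun i => per i) L s)) (fun a => rfl)
    have e1 : off false s = 2 * s' := by unfold off; rw [if_neg (by decide)]; exact hs2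
    have e2 : nbk false (L j) = L j - 1 := rfl
    have e3 : TY q (YG j (fun i => per i) L s) (Ygl j (fun i => per i) L s) ^ s =
      TY q (YG j (fun i => per i) L s) (Ygl j (fun i => per i) L s) ^ (2 * s') := congrArg _ hs2
    rw [e3, ← h1, e1, e2]
    refine Finset.sum_congr rfl fun σ _ => ?_
    refine if_congr ?_ rfl rfl
    simp only [forall_const]
  exact key (per j) hj

theorem ring_val (per : Fin d → Bool) (L : Fin d → ℕ) (s : ℕ) (j : Fin d) (hj : per j = true) (hL : 1 ≤ L j)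
    (Γ : (Fin d → ℕ) → Option (Option (Fin q))) :
    N2 (WG per L s) (Wgl per L s) (WE per L s Γ) =
      (((List.range (L j)).map (Ps j (fun i => per i) L s Γ)).prod).trace := by
  classical
  rw [N2_layers per L s j Γ]
  have key : ∀ (pj : Bool), pj = true →
      ∑ σ : Fin (lm pj (L j) s + 1) → YV j (fun i => per i) L s → Fin q × Fin q,
        (if (∀ a, vld (YG j (fun i => per i) L s) (Ygl j (fun i => per i) L s) (σ a)) ∧
            (∀ a a', (lnG pj (lm pj (L j) s + 1)).Adj a a' → dif (σ a) (σ a')) ∧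
            (∀ a : Fin (lm pj (L j) s + 1), pj = false → (a.val = 0 ∨ a.val = lm pj (L j) s) → smy (σ a)) ∧
            ∀ ℓ < nbk pj (L j), Qs j (fun i => per i) L s Γ ℓ
              (σ (Fin.ofNat (lm pj (L j) s + 1) (off pj s + 2 * ℓ)))
              (σ (Fin.ofNat (lm pj (L j) s + 1) (off pj s + 2 * ℓ + 1)))
              (σ (Fin.ofNat (lm pj (L j) s + 1) (off pj s + 2 * ℓ + 2))) then (1 : ℝ) else 0) =
      (((List.range (L j)).map (Ps j (fun i => per i) L s Γ)).prod).trace := by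
    rintro _ rfl
    have h1 := ring_sum (lm true (L j) s) (L j)
      (by unfold lm; rw [if_pos rfl]; omega) hL
      (vld (YG j (fun i => per i) L s) (Ygl j (fun i => per i) L s)) dif dif_symm'
      (Qs j (fun i => per i) L s Γ) (TY q (YG j (fun i => per i) L s) (Ygl j (fun i => per i) L s))
      (TY_eq _ _) (Ps j (fun i => per i) L s Γ) (fun ℓ a c => Ps_eq j _ L s Γ ℓ a c)
    have e1 : off true s = 0 := rfl
    have e2 : nbk true (L j) = L j := rfl
    rw [← h1, e1, e2]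
    refine Finset.sum_congr rfl fun σ _ => ?_
    refine if_congr ?_ rfl rfl
    simp only [Bool.true_eq_false, false_implies, implies_true, true_and, Nat.zero_add]
  exact key (per j) hj

end Pool.Agent.LC
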