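import Pool.Agent.Lib_MP_2c424f_lc6.Defs
import Pool.Agent.Lib_MP_2c424f_lc2.A01

/-!
# LC6 C04: symmetry of the slab matrices

* `TY_symm`: `dif` and the rest are symmetric.
* `Qs_symm`: reflection of the direction `j`: `l3 a b c (!x) (!y) = l3 c b a x y`; the pattern of `c, b, a` is `rP r` of the pattern of `a, b, c`,
  `r` = the bit `j` (`Ypt` does not depend on the bits `j`); `BDP_rP`.
* `Ps_none`: with `Γ = fun _ => none` no event: `T^2`.
* `Ps_update`: the slab event `ℓ'` of `fun t => Γ (update t j ℓ)` is the slab event `ℓ` of `Γ` (replace `t` by `update t j _`: `Ypt` and the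
  conditions on `t i`, `i ≠ j`, do not change).
-/

set_option autoImplicit false

open Finset Matrix

namespace Pool.Agent.LC

open Pool.Agent.LO Pool.Agent.LIN Pool.Agent.THR Pool.Agent.COR

variable {d q : ℕ}

private theorem C04_dif {Y : Type} (σ σ' : Y → Fin q × Fin q) : dif σ σ' ↔ dif σ' σ := by
  unfold dif
  constructor
  · intro h y
    exact ⟨(h y).1.symm, (h y).2.symm⟩
  · intro h y
    exact ⟨(h y).1.symm, (h y).2.symm⟩

private theorem C04_TY {Y : Type} (q : ℕ) (H : SimpleGraph Y) (g : Y → Prop) (a b : Y → Fin q × Fin q) :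
    TY q H g a b = TY q H g b a := by
  unfold TY
  simp only [Matrix.of_apply]
  have h : (vld H g a ∧ vld H g b ∧ dif a b) ↔ (vld H g b ∧ vld H g a ∧ dif b a) := by
    constructor
    · rintro ⟨h1, h2, h3⟩
      exact ⟨h2, h1, (C04_dif a b).1 h3⟩
    · rintro ⟨h1, h2, h3⟩
      exact ⟨h2, h1, (C04_dif a b).2 h3⟩
  by_cases hh : vld H g a ∧ vld H g b ∧ dif a b
  · rw [if_pos hh, if_pos (h.1 hh)]
  · rw [if_neg hh, if_neg fun h' => hh (h.2 h')]

theorem TY_symm {Y : Type} (q : ℕ) (H : SimpleGraph Y) (g : Y → Prop) : (TY q H g)ᵀ = TY q H g := by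
  ext a b
  rw [Matrix.transpose_apply]
  exact C04_TY q H g b a

theorem TY_nonneg {Y : Type} (q : ℕ) (H : SimpleGraph Y) (g : Y → Prop) (a b : Y → Fin q × Fin q) : 0 ≤ TY q H g a b := by
  unfold TY
  simp only [Matrix.of_apply]
  split_ifs
  · exact zero_le_one
  · exact le_refl _

private theorem C04_l3 {A : Type} (a b c : A) (x y : Bool) : l3 a b c (!x) (!y) = l3 c b a x y := by
  cases x <;> cases y <;> rfl

private theorem C04_Q (j : Fin d) (p : {i // i ≠ j} → Bool) (L : Fin d → ℕ) (s : ℕ)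
    (Γ : (Fin d → ℕ) → Option (Option (Fin q))) (ℓ : ℕ) (a b c : YV j p L s → Fin q × Fin q)
    (h : Qs j p L s Γ ℓ a b c) : Qs j p L s Γ ℓ c b a := by
  intro t ht hi τ hτ
  have h1 := h t ht hi τ hτ
  have h2 : (fun α β : Bt d => (l3 c b a (α j) (β j) (Ypt j p L s t α β)).1) =
      rP (fun i => decide (i = j)) fun α β : Bt d => (l3 a b c (α j) (β j) (Ypt j p L s t α β)).1 := by
    funext α β
    have e1 : ∀ γ : Bt d, xr (fun i => decide (i = j)) γ j = !(γ j) := by
      intro γ
      simp [xr]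
    have e2 : ∀ (γ : Bt d) (i : {i // i ≠ j}), xr (fun i => decide (i = j)) γ i = γ i := by
      intro γ i
      simp [xr, i.2]
    have e3 : Ypt j p L s t (xr (fun i => decide (i = j)) α) (xr (fun i => decide (i = j)) β) = Ypt j p L s t α β := by
      funext i
      unfold Ypt
      rw [e2, e2]
    unfold rP
    beta_reduce
    rw [e1, e1, e3, C04_l3]
  rw [h2, BDP_rP]
  exact h1

theorem Ps_symm (j : Fin d) (p : {i // i ≠ j} → Bool) (L : Fin d → ℕ) (s : ℕ)
    (Γ : (Fin d → ℕ) → Option (Option (Fin q))) (ℓ : ℕ) : (Ps j p L s Γ ℓ)ᵀ = Ps j p L s Γ ℓ := by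
  classical
  ext a c
  rw [Matrix.transpose_apply]
  unfold Ps
  simp only [Matrix.of_apply]
  refine Finset.sum_congr rfl fun b _ => ?_
  rw [C04_TY q (YG j p L s) (Ygl j p L s) c b, C04_TY q (YG j p L s) (Ygl j p L s) b a, mul_comm (TY q (YG j p L s) (Ygl j p L s) b c)]
  by_cases h : Qs j p L s Γ ℓ a b c
  · rw [if_pos h, if_pos (C04_Q j p L s Γ ℓ a b c h)]
  · rw [if_neg h, if_neg fun h' => h (C04_Q j p L s Γ ℓ c b a h')]

theorem Ps_none (j : Fin d) (p : {i // i ≠ j} → Bool) (L : Fin d → ℕ) (s ℓ : ℕ) :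
    Ps (q := q) j p L s (fun _ => none) ℓ = TY q (YG j p L s) (Ygl j p L s) ^ 2 := by
  classical
  ext a c
  rw [pow_two, Matrix.mul_apply]
  unfold Ps
  simp only [Matrix.of_apply]
  refine Finset.sum_congr rfl fun b _ => ?_
  have h : Qs j p L s (fun _ => none) ℓ a b c := by
    intro t _ _ τ hτ
    exact absurd hτ (by simp)
  rw [if_pos h, mul_one]

theorem Ps_update (j : Fin d) (p : {i // i ≠ j} → Bool) (L : Fin d → ℕ) (s : ℕ)
    (Γ : (Fin d → ℕ) → Option (Option (Fin q))) (ℓ ℓ' : ℕ) :
    Ps j p L s (fun t => Γ (Function.update t j ℓ)) ℓ' = Ps j p L s Γ ℓ := by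
  classical
  have hY : ∀ (t : Fin d → ℕ) (m : ℕ) (α β : Bt d), Ypt j p L s (Function.update t j m) α β = Ypt j p L s t α β := by
    intro t m α β
    funext i
    unfold Ypt
    rw [Function.update_of_ne i.2]
  have hQ : ∀ a b c, Qs j p L s (fun t => Γ (Function.update t j ℓ)) ℓ' a b c ↔ Qs j p L s Γ ℓ a b c := by
    intro a b c
    constructor
    · intro h t ht hi τ hτ
      have h1 := h (Function.update t j ℓ') (by simp)
        (fun i => by rw [Function.update_of_ne i.2]; exact hi i) τ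
        (by
          have : Function.update (Function.update t j ℓ') j ℓ = t := by
            rw [Function.update_idem, ← ht, Function.update_eq_self]
          simp only [this]
          exact hτ)
      simp only [hY] at h1
      exact h1
    · intro h t ht hi τ hτ
      have h1 := h (Function.update t j ℓ) (by simp)
        (fun i => by rw [Function.update_of_ne i.2]; exact hi i) τ hτ
      simp only [hY] at h1
      exact h1
  ext a c
  unfold Ps
  simp only [Matrix.of_apply]
  refine Finset.sum_congr rfl fun b _ => ?_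
  by_cases h : Qs j p L s Γ ℓ a b c
  · rw [if_pos h, if_pos ((hQ a b c).2 h)]
  · rw [if_neg h, if_neg fun h' => h ((hQ a b c).1 h')]

end Pool.Agent.LC
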