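import Pool.Agent.Lib_MP_2c424f_lc6.Defs

/-!
# LC6 C05: the two-sheeted graph and pairs of colourings

A colouring `F` of `W × Bool`: `f = F (·, false)`, `g x = F (x, true)` if `¬ gl x`, `g x = F (x, false)` if `gl x`.  `F` is proper for
`D2 B gl` iff `f` and `g` are proper for `B` (the edges inside the sheet `false` give `f`; the edges between the points of the sheet `true` and
the glued points give `g`; edges between two glued points are in both).  The values at `(x, true)`, `gl x`, are free: factor `q^#gl`.
-/

set_option autoImplicit false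

open Finset Matrix

namespace Pool.Agent.LC

open Pool.Agent.LO Pool.Agent.LIN Pool.Agent.THR Pool.Agent.COR

open scoped Classical in
private theorem C05_proper {W : Type} {q : ℕ} (B : SimpleGraph W) (gl : W → Prop) (F : W × Bool → Fin q) :
    PrG (D2 B gl) F ↔ PrG B (fun x => F (x, false)) ∧ PrG B (fun x => if gl x then F (x, false) else F (x, true)) := by
  constructor
  · intro h
    refine ⟨fun x y hxy => ?_, fun x y hxy => ?_⟩
    · exact h (x, false) (y, false) ⟨hxy, by simp, by simp, Or.inl rfl⟩
    · dsimp only
      by_cases hx : gl x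
      · by_cases hy : gl y
        · rw [if_pos hx, if_pos hy]
          exact h (x, false) (y, false) ⟨hxy, by simp, by simp, Or.inl rfl⟩
        · rw [if_pos hx, if_neg hy]
          exact h (x, false) (y, true) ⟨hxy, by simp, by simp [hy], Or.inr (Or.inl hx)⟩
      · by_cases hy : gl y
        · rw [if_neg hx, if_pos hy]
          exact h (x, true) (y, false) ⟨hxy, by simp [hx], by simp, Or.inr (Or.inr hy)⟩
        · rw [if_neg hx, if_neg hy]
          exact h (x, true) (y, true) ⟨hxy, by simp [hx], by simp [hy], Or.inl rfl⟩
  · rintro ⟨h1, h2⟩ ⟨x, b⟩ ⟨y, c⟩ ⟨h3, h4, h5, h6⟩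
    simp only at h3 h4 h5 h6
    have h7 := h1 x y h3
    have h8 := h2 x y h3
    dsimp only at h7 h8
    cases b <;> cases c
    · exact h7
    · have hy : ¬ gl y := fun h => h5 ⟨rfl, h⟩
      have hx : gl x := by
        rcases h6 with h6 | h6 | h6
        · exact absurd h6 (by simp)
        · exact h6
        · exact absurd h6 hy
      rw [if_pos hx, if_neg hy] at h8
      exact h8
    · have hx : ¬ gl x := fun h => h4 ⟨rfl, h⟩
      have hy : gl y := by
        rcases h6 with h6 | h6 | h6
        · exact absurd h6 (by simp)
        · exact absurd h6 hx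
        · exact h6
      rw [if_neg hx, if_pos hy] at h8
      exact h8
    · have hx : ¬ gl x := fun h => h4 ⟨rfl, h⟩
      have hy : ¬ gl y := fun h => h5 ⟨rfl, h⟩
      rw [if_neg hx, if_neg hy] at h8
      exact h8

open scoped Classical in
theorem cG_D2 {W : Type} [Fintype W] [DecidableEq W] {q : ℕ} (B : SimpleGraph W) (gl : W → Prop) (P : (W → Fin q) → Prop) :
    cG (D2 B gl) (fun F : W × Bool → Fin q => P fun x => F (x, false)) =
      (q : ℝ) ^ (univ.filter fun x : W => gl x).card * N2 B gl P := by
  have hk : (univ : Finset ({x : W // gl x} → Fin q)).card = q ^ (univ.filter fun x : W => gl x).card := by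
    rw [Finset.card_univ, Fintype.card_fun, Fintype.card_fin, Fintype.card_subtype]
  unfold cG N2
  rw [← Nat.cast_pow, ← hk, ← Nat.cast_mul, ← Finset.card_product, Nat.cast_inj]
  refine Finset.card_bij' (fun F _ => ((fun x : {x : W // gl x} => F (x.1, true)),
      ((fun x => F (x, false)), fun x => if gl x then F (x, false) else F (x, true))))
    (fun z _ => fun p => if p.2 = true then (if h : gl p.1 then z.1 ⟨p.1, h⟩ else z.2.2 p.1) else z.2.1 p.1) ?_ ?_ ?_ ?_
  · intro F hF
    simp only [Finset.mem_filter, Finset.mem_univ, true_and] at hF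
    simp only [Finset.mem_product, Finset.mem_filter, Finset.mem_univ, true_and]
    have h1 := (C05_proper B gl F).1 hF.1
    exact ⟨h1.1, h1.2, fun x hx => by rw [if_pos hx], hF.2⟩
  · intro z hz
    simp only [Finset.mem_product, Finset.mem_filter, Finset.mem_univ, true_and] at hz
    simp only [Finset.mem_filter, Finset.mem_univ, true_and]
    obtain ⟨h1, h2, h3, h4⟩ := hz
    refine ⟨(C05_proper B gl _).2 ⟨?_, ?_⟩, ?_⟩
    · simpa using h1
    · have e : (fun x => if gl x then z.2.1 x else z.2.2 x) = z.2.2 := by
        funext x
        by_cases hx : gl x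
        · rw [if_pos hx, h3 x hx]
        · rw [if_neg hx]
      have e2 : (fun x => if gl x then (if (false : Bool) = true then (if h : gl x then z.1 ⟨x, h⟩ else z.2.2 x) else z.2.1 x)
          else (if (true : Bool) = true then (if h : gl x then z.1 ⟨x, h⟩ else z.2.2 x) else z.2.1 x)) = z.2.2 := by
        rw [← e]
        funext x
        by_cases hx : gl x
        · simp [hx]
        · simp [hx]
      rw [e2]
      exact h2
    · simpa using h4
  · intro F _
    funext p
    obtain ⟨x, b⟩ := p
    cases b
    · simp
    · by_cases hx : gl x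
      · simp [hx]
      · simp [hx]
  · intro z hz
    simp only [Finset.mem_product, Finset.mem_filter, Finset.mem_univ, true_and] at hz
    obtain ⟨h1, h2, h3, h4⟩ := hz
    refine Prod.ext ?_ (Prod.ext ?_ ?_)
    · funext x
      simp [x.2]
    · funext x
      simp
    · funext x
      by_cases hx : gl x
      · simp [hx, h3 x hx]
      · simp [hx]

end Pool.Agent.LC
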