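import Pool.Agent.Lib_MP_2c424f_lc6.Defs
import Pool.Agent.Lib_MP_2c424f_lc2.B01

/-!
# LC6 C06: products of a cross section with a path, or with a path and a cycle

For `R` any graph on `Fin n`: the pairs counted by `N2 (H.boxProd R) gl True` are the families `σ : Fin n → (Y → Fin q × Fin q)` with all `σ a` `vld`,
`dif (σ a) (σ a')` for `R.Adj a a'`, and `smy (σ a)` for the glued `a`.
* `N2_path`: `R` = path with `m + 1 ≥ 2` vertices: `path_mat` with `A i = T`.
* `N2_RX` (`s ≥ 1`, `L ≥ 1`): the graph `RX s L` is the disjoint union of a path with `2 s + 1` vertices `0, …, s-1, s+2L, …, 2s+2L` and of a cycle with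
  `2 L` vertices `s, …, s+2L-1`; the sum over `σ` is the product of the two sums (`Fin (2s+2L+1) ≃ Fin (2s+1) ⊕ Fin (2L)`), `path_mat`, `ring_pow`.
-/

set_option autoImplicit false

open Finset Matrix

namespace Pool.Agent.LC

open Pool.Agent.LO Pool.Agent.LIN Pool.Agent.THR Pool.Agent.COR

variable {Y : Type} [Fintype Y] [DecidableEq Y]

section c06

/-- the condition on a family of layers -/
private def C06_ok {q : ℕ} (H : SimpleGraph Y) (g : Y → Prop) {V : Type} (r : V → V → Prop) (G : V → Prop)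
    (σ : V → Y → Fin q × Fin q) : Prop :=
  (∀ a, vld H g (σ a)) ∧ (∀ a b, r a b → dif (σ a) (σ b)) ∧ ∀ a, G a → smy (σ a)

open scoped Classical in
/-- number of the families of layers -/
private noncomputable def C06_Z (q : ℕ) (H : SimpleGraph Y) (g : Y → Prop) {V : Type} [Fintype V] [DecidableEq V]
    (r : V → V → Prop) (G : V → Prop) : ℝ :=
  ∑ σ : V → Y → Fin q × Fin q, if C06_ok H g r G σ then (1 : ℝ) else 0

omit [Fintype Y] [DecidableEq Y] in
private theorem C06_dif_symm {q : ℕ} {σ τ : Y → Fin q × Fin q} (h : dif σ τ) : dif τ σ :=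
  fun y => ⟨(h y).1.symm, (h y).2.symm⟩

/-- pairs of colourings of a product as families of layers -/
private def C06_e (q : ℕ) (Y V : Type) :
    ((Y × V → Fin q) × (Y × V → Fin q)) ≃ (V → Y → Fin q × Fin q) where
  toFun p := fun a y => (p.1 (y, a), p.2 (y, a))
  invFun σ := (fun z => (σ z.2 z.1).1, fun z => (σ z.2 z.1).2)
  left_inv _ := rfl
  right_inv _ := rfl

open scoped Classical in
private theorem C06_N2 (q : ℕ) (H : SimpleGraph Y) (g : Y → Prop) {V : Type} [Fintype V] [DecidableEq V]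
    (R : SimpleGraph V) (r : V → V → Prop) (h1 : ∀ a b, r a b → R.Adj a b) (h2 : ∀ a b, R.Adj a b → r a b ∨ r b a)
    (G : V → Prop) (gl : Y × V → Prop) (hgl : ∀ y a, gl (y, a) ↔ g y ∨ G a) :
    N2 (H.boxProd R) gl (fun _ : Y × V → Fin q => True) = C06_Z q H g r G := by
  unfold N2 C06_Z
  rw [Finset.card_filter]
  push_cast
  refine Fintype.sum_equiv (M := ℝ) (C06_e q Y V) _ _ (fun p => ?_)
  congr 1
  apply propext
  show (PrG (H.boxProd R) p.1 ∧ PrG (H.boxProd R) p.2 ∧ (∀ x, gl x → p.1 x = p.2 x) ∧ True) ↔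
    C06_ok H g r G (fun a y => (p.1 (y, a), p.2 (y, a)))
  unfold C06_ok vld dif smy PrG
  constructor
  · rintro ⟨ha, hb, hc, -⟩
    refine ⟨fun a => ⟨fun y y' hy => ?_, fun y y' hy => ?_, fun y hy => ?_⟩, fun a b hab y => ⟨?_, ?_⟩, fun a hG y => ?_⟩
    · exact ha _ _ (by rw [SimpleGraph.boxProd_adj]; exact Or.inl ⟨hy, rfl⟩)
    · exact hb _ _ (by rw [SimpleGraph.boxProd_adj]; exact Or.inl ⟨hy, rfl⟩)
    · exact hc _ ((hgl y a).mpr (Or.inl hy))
    · exact ha _ _ (by rw [SimpleGraph.boxProd_adj]; exact Or.inr ⟨h1 a b hab, rfl⟩)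
    · exact hb _ _ (by rw [SimpleGraph.boxProd_adj]; exact Or.inr ⟨h1 a b hab, rfl⟩)
    · exact hc _ ((hgl y a).mpr (Or.inr hG))
  · rintro ⟨ha, hb, hc⟩
    refine ⟨?_, ?_, ?_, trivial⟩
    · rintro ⟨y, a⟩ ⟨y', a'⟩ hadj
      rw [SimpleGraph.boxProd_adj] at hadj
      rcases hadj with ⟨hy, rfl⟩ | ⟨hR, rfl⟩
      · exact (ha a).1 y y' hy
      · rcases h2 _ _ hR with h | h
        · exact (hb _ _ h y).1
        · exact (hb _ _ h y).1.symm
    · rintro ⟨y, a⟩ ⟨y', a'⟩ hadj
      rw [SimpleGraph.boxProd_adj] at hadj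
      rcases hadj with ⟨hy, rfl⟩ | ⟨hR, rfl⟩
      · exact (ha a).2.1 y y' hy
      · rcases h2 _ _ hR with h | h
        · exact (hb _ _ h y).2
        · exact (hb _ _ h y).2.symm
    · rintro ⟨y, a⟩ hx
      rcases (hgl y a).mp hx with h | h
      · exact (ha a).2.2 y h
      · exact hc a h y

open scoped Classical in
/-- a path -/
private theorem C06_path (q : ℕ) (H : SimpleGraph Y) (g : Y → Prop) (m : ℕ) (hm : 1 ≤ m) :
    C06_Z q H g (fun a b : Fin (m + 1) => a.val + 1 = b.val) (fun a => a.val = 0 ∨ a.val = m) =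
      vY q Y ⬝ᵥ ((TY q H g ^ m) *ᵥ vY q Y) := by
  have h := path_mat m (fun _ => TY q H g) (vY q Y) (vY q Y)
  have e : ((List.range m).map (fun _ => TY q H g)).prod = TY q H g ^ m := by
    rw [List.map_const', List.prod_replicate, List.length_range]
  rw [e] at h
  rw [← h]
  unfold C06_Z
  refine Finset.sum_congr rfl (fun σ _ => ?_)
  have e1 : ∀ i : Fin m, TY q H g (σ i.castSucc) (σ i.succ) =
      if vld H g (σ i.castSucc) ∧ vld H g (σ i.succ) ∧ dif (σ i.castSucc) (σ i.succ) then (1 : ℝ) else 0 := fun i => rfl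
  rw [Finset.prod_congr rfl (fun i _ => e1 i), Finset.prod_ite_zero]
  simp only [Finset.prod_const_one, mem_univ, true_implies, vY]
  have e2 : C06_ok H g (fun a b : Fin (m + 1) => a.val + 1 = b.val) (fun a => a.val = 0 ∨ a.val = m) σ ↔
      (smy (σ 0) ∧ smy (σ (Fin.last m)) ∧ ∀ i : Fin m, vld H g (σ i.castSucc) ∧ vld H g (σ i.succ) ∧
        dif (σ i.castSucc) (σ i.succ)) := by
    constructor
    · rintro ⟨ha, hb, hc⟩
      exact ⟨hc 0 (Or.inl rfl), hc (Fin.last m) (Or.inr rfl), fun i => ⟨ha _, ha _, hb _ _ rfl⟩⟩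
    · rintro ⟨ha, hb, hc⟩
      refine ⟨fun a => ?_, fun a b hab => ?_, fun a hG => ?_⟩
      · by_cases h0 : a.val < m
        · exact (hc ⟨a.val, h0⟩).1
        · have h1 : a = (⟨m - 1, by omega⟩ : Fin m).succ := by
            apply Fin.ext
            have := a.isLt
            simp only [Fin.succ_mk]
            omega
          rw [h1]
          exact (hc _).2.1
      · have hab' : a.val + 1 = b.val := hab
        have h0 : a.val < m := by have := b.isLt; omega
        have h2 : b = (⟨a.val, h0⟩ : Fin m).succ := by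
          apply Fin.ext
          simp only [Fin.succ_mk]
          exact hab'.symm
        rw [h2]
        exact (hc ⟨a.val, h0⟩).2.2
      · rcases hG with h | h
        · have : a = 0 := Fin.ext h
          rw [this]; exact ha
        · have : a = Fin.last m := Fin.ext h
          rw [this]; exact hb
  by_cases h1 : smy (σ 0)
  · by_cases h2 : smy (σ (Fin.last m))
    · simp only [e2, h1, h2, true_and, if_true, one_mul]
    · simp only [e2, h1, h2, false_and, and_false, if_false, zero_mul, mul_zero]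
  · simp only [e2, h1, false_and, if_false, zero_mul]

open scoped Classical in
/-- a cycle -/
private theorem C06_ring (q : ℕ) (H : SimpleGraph Y) (g : Y → Prop) (n : ℕ) :
    C06_Z q H g (fun a b : Fin (n + 1) => a + 1 = b) (fun _ => False) = (TY q H g ^ (n + 1)).trace := by
  rw [← ring_pow n (TY q H g)]
  unfold C06_Z
  refine Finset.sum_congr rfl (fun σ _ => ?_)
  have e1 : ∀ i : Fin (n + 1), TY q H g (σ i) (σ (i + 1)) =
      if vld H g (σ i) ∧ vld H g (σ (i + 1)) ∧ dif (σ i) (σ (i + 1)) then (1 : ℝ) else 0 := fun i => rfl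
  rw [Finset.prod_congr rfl (fun i _ => e1 i), Finset.prod_ite_zero]
  simp only [Finset.prod_const_one, mem_univ, true_implies]
  congr 1
  apply propext
  constructor
  · rintro ⟨ha, hb, -⟩
    exact fun i => ⟨ha _, ha _, hb _ _ rfl⟩
  · intro hc
    refine ⟨fun a => (hc a).1, fun a b hab => ?_, fun a hG => hG.elim⟩
    have hab' : a + 1 = b := hab
    rw [← hab']
    exact (hc a).2.2

open scoped Classical in
/-- a disjoint union -/
private theorem C06_sum (q : ℕ) (H : SimpleGraph Y) (g : Y → Prop) {V A B : Type} [Fintype V] [Fintype A] [Fintype B]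
    [DecidableEq V] [DecidableEq A] [DecidableEq B]
    (e : A ⊕ B ≃ V) (r : V → V → Prop) (G : V → Prop) (rA : A → A → Prop) (rB : B → B → Prop) (GA : A → Prop)
    (GB : B → Prop) (h1 : ∀ a b, r (e (Sum.inl a)) (e (Sum.inl b)) ↔ rA a b)
    (h2 : ∀ a b, r (e (Sum.inr a)) (e (Sum.inr b)) ↔ rB a b)
    (h3 : ∀ a b, ¬ r (e (Sum.inl a)) (e (Sum.inr b))) (h4 : ∀ a b, ¬ r (e (Sum.inr b)) (e (Sum.inl a)))
    (h5 : ∀ a, G (e (Sum.inl a)) ↔ GA a) (h6 : ∀ b, G (e (Sum.inr b)) ↔ GB b) :
    C06_Z q H g r G = C06_Z q H g rA GA * C06_Z q H g rB GB := by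
  unfold C06_Z
  rw [Finset.sum_mul_sum, ← Finset.sum_product', Finset.univ_product_univ]
  refine Fintype.sum_equiv ((Equiv.arrowCongr e.symm (Equiv.refl _)).trans (Equiv.sumArrowEquivProdArrow A B _)) _ _ (fun σ => ?_)
  show (if C06_ok H g r G σ then (1 : ℝ) else 0) =
    (if C06_ok H g rA GA (fun a => σ (e (Sum.inl a))) then (1 : ℝ) else 0) *
      (if C06_ok H g rB GB (fun b => σ (e (Sum.inr b))) then (1 : ℝ) else 0)
  have key : C06_ok H g r G σ ↔ C06_ok H g rA GA (fun a => σ (e (Sum.inl a))) ∧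
      C06_ok H g rB GB (fun b => σ (e (Sum.inr b))) := by
    constructor
    · rintro ⟨ha, hb, hc⟩
      exact ⟨⟨fun a => ha _, fun a b hab => hb _ _ ((h1 a b).mpr hab), fun a hG => hc _ ((h5 a).mpr hG)⟩,
        ⟨fun a => ha _, fun a b hab => hb _ _ ((h2 a b).mpr hab), fun a hG => hc _ ((h6 a).mpr hG)⟩⟩
    · rintro ⟨⟨ha, hb, hc⟩, ⟨ha', hb', hc'⟩⟩
      refine ⟨fun v => ?_, fun v w hvw => ?_, fun v hG => ?_⟩
      · obtain ⟨x, rfl⟩ := e.surjective v
        rcases x with a | b
        · exact ha a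
        · exact ha' b
      · obtain ⟨x, rfl⟩ := e.surjective v
        obtain ⟨y, rfl⟩ := e.surjective w
        rcases x with a | b <;> rcases y with a' | b'
        · exact hb _ _ ((h1 a a').mp hvw)
        · exact absurd hvw (h3 _ _)
        · exact absurd hvw (h4 _ _)
        · exact hb' _ _ ((h2 b b').mp hvw)
      · obtain ⟨x, rfl⟩ := e.surjective v
        rcases x with a | b
        · exact hc a ((h5 a).mp hG)
        · exact hc' b ((h6 b).mp hG)
  by_cases hA : C06_ok H g rA GA (fun a => σ (e (Sum.inl a)))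
  · simp only [key, hA, true_and, if_true, one_mul]
  · simp only [key, hA, false_and, if_false, zero_mul]

/-- the splitting of the vertices of `RX s L` -/
private def C06_f (s L : ℕ) : Fin (2 * s + 1) ⊕ Fin (2 * L) → Fin (2 * s + 2 * L + 1)
  | Sum.inl i => ⟨if i.val < s then i.val else i.val + 2 * L, by have := i.isLt; split_ifs <;> omega⟩
  | Sum.inr j => ⟨s + j.val, by have := j.isLt; omega⟩

private theorem C06_f_bij (s L : ℕ) : Function.Bijective (C06_f s L) := by
  rw [Fintype.bijective_iff_injective_and_card]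
  constructor
  · intro x y hxy
    have h := congrArg Fin.val hxy
    rcases x with a | b <;> rcases y with a' | b' <;> simp only [C06_f] at h
    · congr 1
      apply Fin.ext
      split_ifs at h <;> omega
    · exfalso
      have := b'.isLt
      split_ifs at h <;> omega
    · exfalso
      have := b.isLt
      split_ifs at h <;> omega
    · congr 1
      apply Fin.ext
      omega
  · rw [Fintype.card_sum, Fintype.card_fin, Fintype.card_fin, Fintype.card_fin]
    omega

end c06

theorem N2_path (q : ℕ) (H : SimpleGraph Y) (g : Y → Prop) (m : ℕ) (hm : 1 ≤ m) :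
    N2 (H.boxProd (lnG false (m + 1))) (glp g m) (fun _ : Y × Fin (m + 1) → Fin q => True) =
      vY q Y ⬝ᵥ ((TY q H g ^ m) *ᵥ vY q Y) := by
  rw [← C06_path q H g m hm]
  apply C06_N2
  · intro a b hab
    refine ⟨fun h => ?_, Or.inl hab⟩
    have : a.val + 1 = b.val := hab
    rw [h] at this
    omega
  · rintro a b ⟨-, h | h | ⟨h, -⟩⟩
    · exact Or.inl h
    · exact Or.inr h
    · exact absurd h (by simp)
  · intro y a
    rfl

theorem N2_RX (q : ℕ) (H : SimpleGraph Y) (g : Y → Prop) (s L : ℕ) (hs : 1 ≤ s) (hL : 1 ≤ L) :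
    N2 (H.boxProd (RX s L)) (glp g (2 * s + 2 * L)) (fun _ : Y × Fin (2 * s + 2 * L + 1) → Fin q => True) =
      (vY q Y ⬝ᵥ ((TY q H g ^ (2 * s)) *ᵥ vY q Y)) * (TY q H g ^ (2 * L)).trace := by
  obtain ⟨n, hn⟩ : ∃ n, 2 * L = n + 1 := ⟨2 * L - 1, by omega⟩
  have hring := C06_ring q H g n
  rw [← C06_path q H g (2 * s) (by omega)]
  have hN := C06_N2 q H g (RX s L) (fun a b => nxt s L a.val b.val)
    (by
      intro a b hab
      refine ⟨fun h => ?_, Or.inl hab⟩
      have h' : nxt s L a.val b.val := hab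
      rw [h] at h'
      unfold nxt at h'
      omega)
    (fun a b hab => hab.2) (fun a => a.val = 0 ∨ a.val = 2 * s + 2 * L) (glp g (2 * s + 2 * L)) (fun y a => Iff.rfl)
  rw [hN]
  have hring2 : C06_Z q H g (fun a b : Fin (2 * L) => (a.val + 1 = b.val) ∨ (a.val + 1 = 2 * L ∧ b.val = 0)) (fun _ => False) =
      (TY q H g ^ (2 * L)).trace := by
    rw [hn, ← hring]
    congr 1
    funext a b
    apply propext
    rw [Fin.ext_iff, Fin.val_add, Fin.val_one']
    have ha := a.isLt
    have hb := b.isLt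
    rcases Nat.lt_or_ge (a.val + 1) (n + 1) with h | h
    · rw [Nat.mod_eq_of_lt (by omega : 1 < n + 1), Nat.mod_eq_of_lt h]
      omega
    · have h0 : a.val = n := by omega
      rw [Nat.mod_eq_of_lt (by omega : 1 < n + 1), h0, Nat.mod_self]
      omega
  rw [← hring2]
  refine C06_sum q H g (Equiv.ofBijective _ (C06_f_bij s L)) _ _ _ _ _ _ ?_ ?_ ?_ ?_ ?_ ?_
  · intro a b
    simp only [Equiv.ofBijective_apply, C06_f, nxt]
    have := a.isLt
    have := b.isLt
    split_ifs <;> omega
  · intro a b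
    simp only [Equiv.ofBijective_apply, C06_f, nxt]
    have := a.isLt
    have := b.isLt
    omega
  · intro a b
    simp only [Equiv.ofBijective_apply, C06_f, nxt]
    have := a.isLt
    have := b.isLt
    split_ifs <;> omega
  · intro a b
    simp only [Equiv.ofBijective_apply, C06_f, nxt]
    have := a.isLt
    have := b.isLt
    split_ifs <;> omega
  · intro a
    simp only [Equiv.ofBijective_apply, C06_f]
    have := a.isLt
    split_ifs <;> omega
  · intro b
    simp only [Equiv.ofBijective_apply, C06_f, iff_false]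
    have := b.isLt
    omega

end Pool.Agent.LC
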