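import Pool.Agent.Lib_MP_2c424f_lc6.Defs

/-!
# LC6 C07: the layer of the switching in a product

`X = D2 (H □ RX s L) gl`, `X' = D2 (H □ path) gl`, copies `ib false`: positions `s, …, s+h-1`, `ib true`: positions `s+2L, …, s+2L+h-1`; `h ≤ s`, `h < 2 L`:
the copies are disjoint, they do not contain the glued layers `0`, `2s+2L`, and the layers after them (`s+h`, `s+2L+h`) are outside.
`RX` and the path differ only in the edges `{s-1,s}`, `{s+2L-1,s+2L}` (path), `{s-1,s+2L}`, `{s,s+2L-1}` (`RX`), i.e. the outside neighbours at the level `0`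
are exchanged. (`2 ≤ h`: for `h = 1` the field `oi` is false.)
-/

set_option autoImplicit false

open Finset

namespace Pool.Agent.LC

open Pool.Agent.LO Pool.Agent.LIN Pool.Agent.THR Pool.Agent.COR

/-- position of the level `k` of the copy `b` -/
private def C07_pos (s L : ℕ) (b : Bool) (k : ℕ) : ℕ := s + (if b then 2 * L else 0) + k

private theorem C07_pos_false (s L k : ℕ) : C07_pos s L false k = s + k := by
  unfold C07_pos
  simp

private theorem C07_pos_true (s L k : ℕ) : C07_pos s L true k = s + 2 * L + k := by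
  unfold C07_pos
  simp

section
variable {Y : Type} (H : SimpleGraph Y) (g : Y → Prop) (s L h : ℕ)

private theorem C07_val (hs : h ≤ s) (b : Bool) (z : (Y × Bool) × Fin h) :
    (ib s L h b z).1.2.val = C07_pos s L b z.2.val := by
  have h1 := z.2.2
  change (s + (if b then 2 * L else 0) + z.2.val) % (2 * s + 2 * L + 1) = _
  rw [Nat.mod_eq_of_lt]
  · rfl
  · cases b
    · simp
      omega
    · simp
      omega

private theorem C07_glp (hs : h ≤ s) (_hh : 1 ≤ h) (b : Bool) (z : (Y × Bool) × Fin h) :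
    glp g (2 * s + 2 * L) (ib s L h b z).1 ↔ g z.1.1 := by
  have h1 := z.2.2
  have h2 := C07_val (Y := Y) s L h hs b z
  unfold glp
  rw [h2]
  constructor
  · rintro (h3 | h3 | h3)
    · exact h3
    · exfalso
      cases b
      · rw [C07_pos_false] at h3
        omega
      · rw [C07_pos_true] at h3
        omega
    · exfalso
      cases b
      · rw [C07_pos_false] at h3
        omega
      · rw [C07_pos_true] at h3
        omega
  · intro h3
    exact Or.inl h3

/-- adjacency in the copies -/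
private def C07_core (p p' : (Y × Bool) × Fin h) : Prop :=
  ((H.Adj p.1.1 p'.1.1 ∧ p.2.val = p'.2.val) ∨ (p.1.1 = p'.1.1 ∧ (p.2.val + 1 = p'.2.val ∨ p'.2.val + 1 = p.2.val))) ∧
    ¬ (p.1.2 = true ∧ g p.1.1) ∧ ¬ (p'.1.2 = true ∧ g p'.1.1) ∧ (p.1.2 = p'.1.2 ∨ g p.1.1 ∨ g p'.1.1)

private theorem C07_adj (R : SimpleGraph (Fin (2 * s + 2 * L + 1))) (hs : h ≤ s) (hh : 1 ≤ h) (hL : h < 2 * L)
    (hR : ∀ (b b' : Bool) (k k' : ℕ) (t t' : Fin (2 * s + 2 * L + 1)), k < h → k' < h → t.val = C07_pos s L b k →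
      t'.val = C07_pos s L b' k' → (R.Adj t t' ↔ b = b' ∧ (k + 1 = k' ∨ k' + 1 = k)))
    (b b' : Bool) (p p' : (Y × Bool) × Fin h) :
    (D2 (H.boxProd R) (glp g (2 * s + 2 * L))).Adj (ib s L h b p) (ib s L h b' p') ↔ b = b' ∧ C07_core H g h p p' := by
  have h1 := C07_val (Y := Y) s L h hs b p
  have h2 := C07_val (Y := Y) s L h hs b' p'
  have h3 := C07_glp g s L h hs hh b p
  have h4 := C07_glp g s L h hs hh b' p'
  have h5 := hR b b' p.2.val p'.2.val _ _ p.2.2 p'.2.2 h1 h2
  have h6 : (ib s L h b p).1.2 = (ib s L h b' p').1.2 ↔ b = b' ∧ p.2.val = p'.2.val := by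
    rw [Fin.ext_iff, h1, h2]
    have h7 := p.2.2
    have h8 := p'.2.2
    cases b <;> cases b'
    · rw [C07_pos_false, C07_pos_false]
      simp
    · rw [C07_pos_false, C07_pos_true]
      constructor
      · intro h9
        omega
      · rintro ⟨h9, -⟩
        simp at h9
    · rw [C07_pos_false, C07_pos_true]
      constructor
      · intro h9
        omega
      · rintro ⟨h9, -⟩
        simp at h9
    · rw [C07_pos_true, C07_pos_true]
      simp
  change ((H.boxProd R).Adj (ib s L h b p).1 (ib s L h b' p').1 ∧ ¬ (p.1.2 = true ∧ glp g (2 * s + 2 * L) (ib s L h b p).1) ∧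
    ¬ (p'.1.2 = true ∧ glp g (2 * s + 2 * L) (ib s L h b' p').1) ∧
    (p.1.2 = p'.1.2 ∨ glp g (2 * s + 2 * L) (ib s L h b p).1 ∨ glp g (2 * s + 2 * L) (ib s L h b' p').1)) ↔ _
  rw [h3, h4, SimpleGraph.boxProd_adj, h5, h6]
  unfold C07_core
  constructor
  · rintro ⟨h7 | h7, h8⟩
    · exact ⟨h7.2.1, Or.inl ⟨h7.1, h7.2.2⟩, h8⟩
    · exact ⟨h7.1.1, Or.inr ⟨h7.2, h7.1.2⟩, h8⟩
  · rintro ⟨h7, h9 | h9, h8⟩
    · exact ⟨Or.inl ⟨h9.1, h7, h9.2⟩, h8⟩
    · exact ⟨Or.inr ⟨⟨h7, h9.2⟩, h9.1⟩, h8⟩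

private theorem C07_RX (_hs : h ≤ s) (hL : h < 2 * L) (b b' : Bool) (k k' : ℕ) (t t' : Fin (2 * s + 2 * L + 1)) (hk : k < h)
    (hk' : k' < h) (ht : t.val = C07_pos s L b k) (ht' : t'.val = C07_pos s L b' k') :
    (RX s L).Adj t t' ↔ b = b' ∧ (k + 1 = k' ∨ k' + 1 = k) := by
  change (t ≠ t' ∧ (nxt s L t.val t'.val ∨ nxt s L t'.val t.val)) ↔ _
  rw [Ne, Fin.ext_iff, ht, ht']
  unfold nxt
  cases b <;> cases b'
  · rw [C07_pos_false, C07_pos_false]
    simp only [true_and]
    omega
  · rw [C07_pos_false, C07_pos_true]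
    simp only [Bool.false_eq_true, false_and, iff_false]
    omega
  · rw [C07_pos_false, C07_pos_true]
    simp only [Bool.true_eq_false, false_and, iff_false]
    omega
  · rw [C07_pos_true, C07_pos_true]
    simp only [true_and]
    omega

private theorem C07_ln (_hs : h ≤ s) (hL : h < 2 * L) (b b' : Bool) (k k' : ℕ) (t t' : Fin (2 * s + 2 * L + 1)) (hk : k < h)
    (hk' : k' < h) (ht : t.val = C07_pos s L b k) (ht' : t'.val = C07_pos s L b' k') :
    (lnG false (2 * s + 2 * L + 1)).Adj t t' ↔ b = b' ∧ (k + 1 = k' ∨ k' + 1 = k) := by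
  change (t ≠ t' ∧ (t.val + 1 = t'.val ∨ t'.val + 1 = t.val ∨ (false = true ∧ _))) ↔ _
  rw [Ne, Fin.ext_iff, ht, ht']
  simp only [Bool.false_eq_true, false_and, or_false]
  cases b <;> cases b'
  · rw [C07_pos_false, C07_pos_false]
    simp only [true_and]
    omega
  · rw [C07_pos_false, C07_pos_true]
    simp only [Bool.false_eq_true, false_and, iff_false]
    omega
  · rw [C07_pos_false, C07_pos_true]
    simp only [Bool.true_eq_false, false_and, iff_false]
    omega
  · rw [C07_pos_true, C07_pos_true]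
    simp only [true_and]
    omega

/-- the points outside the copies -/
private theorem C07_outside (hs : h ≤ s) (v : (Y × Fin (2 * s + 2 * L + 1)) × Bool) (hv : ∀ b' p', v ≠ ib s L h b' p') :
    ∀ (b : Bool) (k : ℕ), k < h → v.1.2.val ≠ C07_pos s L b k := by
  intro b k hk h1
  refine hv b ((v.1.1, v.2), ⟨k, hk⟩) ?_
  have h2 := C07_val (Y := Y) s L h hs b ((v.1.1, v.2), ⟨k, hk⟩)
  refine Prod.ext (Prod.ext rfl ?_) rfl
  apply Fin.ext
  rw [h2, h1]

end

theorem prod_layer {Y : Type} [Fintype Y] [DecidableEq Y] (H : SimpleGraph Y) (g evY : Y → Prop) (s L h : ℕ) (hh : 2 ≤ h)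
    (hs : h ≤ s) (hL : h < 2 * L) :
    Layer h (D2 (H.boxProd (RX s L)) (glp g (2 * s + 2 * L)))
      (D2 (H.boxProd (lnG false (2 * s + 2 * L + 1))) (glp g (2 * s + 2 * L))) (evP evY)
      (LG s L h H g) (fun z => z.2.val) (ib s L h) := by
  have hR := C07_RX s L h hs hL
  have hP := C07_ln s L h hs hL
  have hG : ∀ p p', (LG s L h H g).Adj p p' ↔ C07_core H g h p p' := by
    intro p p'
    change (D2 (H.boxProd (RX s L)) (glp g (2 * s + 2 * L))).Adj (ib s L h false p) (ib s L h false p') ↔ _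
    rw [C07_adj H g s L h (RX s L) hs (by omega) hL hR]
    simp
  refine ⟨?_, ?_, ?_, ?_, ?_, ?_, ?_, ?_, ?_⟩
  · intro b b' p p' h1
    have h2 := C07_val (Y := Y) s L h hs b p
    have h3 := C07_val (Y := Y) s L h hs b' p'
    have h4 : p.1.1 = p'.1.1 := congrArg (fun z => z.1.1) h1
    have h5 : p.1.2 = p'.1.2 := congrArg (fun z => z.2) h1
    rw [h1, h3] at h2
    have h6 := p.2.2
    have h7 := p'.2.2
    have h8 : b = b' ∧ p.2.val = p'.2.val := by
      cases b <;> cases b'
      · rw [C07_pos_false, C07_pos_false] at h2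
        exact ⟨rfl, by omega⟩
      · rw [C07_pos_false, C07_pos_true] at h2
        omega
      · rw [C07_pos_false, C07_pos_true] at h2
        omega
      · rw [C07_pos_true, C07_pos_true] at h2
        exact ⟨rfl, by omega⟩
    exact ⟨h8.1, Prod.ext (Prod.ext h4 h5) (Fin.ext h8.2)⟩
  · intro p
    exact p.2.2
  · intro p p' h1
    have h2 := ((hG p p').1 h1).1
    rcases h2 with ⟨-, h2⟩ | ⟨-, h2 | h2⟩
    · change p.2.val ≤ p'.2.val + 1
      omega
    · change p.2.val ≤ p'.2.val + 1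
      omega
    · change p.2.val ≤ p'.2.val + 1
      omega
  · intro p
    unfold evP
    rw [C07_val s L h hs true p, C07_val s L h hs false p, C07_pos_true, C07_pos_false]
    have h1 : Even (s + 2 * L + p.2.val) ↔ Even (s + p.2.val) := by
      have : s + 2 * L + p.2.val = 2 * L + (s + p.2.val) := by ring
      rw [this, Nat.even_add]
      simp
    rw [h1]
    exact Iff.rfl
  · intro b b' p p'
    rw [C07_adj H g s L h (RX s L) hs (by omega) hL hR, hG]
  · intro b b' p p'
    rw [C07_adj H g s L h _ hs (by omega) hL hP, hG]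
  · intro b p v hv h1
    have hv' := C07_outside s L h hs v hv
    have h2 := C07_val (Y := Y) s L h hs b p
    have h6 := p.2.2
    obtain ⟨h3, -⟩ := h1
    rw [SimpleGraph.boxProd_adj] at h3
    rcases h3 with ⟨-, h3⟩ | ⟨h3, -⟩
    · exfalso
      refine hv' b p.2.val p.2.2 ?_
      rw [← h2, h3]
    · change (v.1.2 ≠ _ ∧ (nxt s L v.1.2.val (ib s L h b p).1.2.val ∨ nxt s L (ib s L h b p).1.2.val v.1.2.val)) at h3
      rw [h2] at h3
      obtain ⟨-, h3⟩ := h3
      by_contra h4
      have h5 : p.2.val ≠ 0 ∧ p.2.val + 1 < h := by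
        have h7 : ¬ (p.2.val = 0 ∨ p.2.val + 1 = h) := h4
        omega
      have h8 := hv' b (p.2.val - 1) (by omega)
      have h9 := hv' b (p.2.val + 1) (by omega)
      unfold nxt at h3
      cases b
      · rw [C07_pos_false] at h3 h8 h9
        omega
      · rw [C07_pos_true] at h3 h8 h9
        omega
  · intro v w hv hw
    have hv' := C07_outside s L h hs v hv
    have hw' := C07_outside s L h hs w hw
    have v0 := hv' false 0 (by omega)
    have v1 := hv' true 0 (by omega)
    have w0 := hw' false 0 (by omega)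
    have w1 := hw' true 0 (by omega)
    rw [C07_pos_false] at v0 w0
    rw [C07_pos_true] at v1 w1
    have h1 : (lnG false (2 * s + 2 * L + 1)).Adj v.1.2 w.1.2 ↔ (RX s L).Adj v.1.2 w.1.2 := by
      change (v.1.2 ≠ w.1.2 ∧ (v.1.2.val + 1 = w.1.2.val ∨ w.1.2.val + 1 = v.1.2.val ∨ (false = true ∧ _))) ↔
        (v.1.2 ≠ w.1.2 ∧ (nxt s L v.1.2.val w.1.2.val ∨ nxt s L w.1.2.val v.1.2.val))
      unfold nxt
      simp only [Bool.false_eq_true, false_and, or_false]
      refine and_congr Iff.rfl ?_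
      omega
    change ((H.boxProd _).Adj v.1 w.1 ∧ _) ↔ ((H.boxProd _).Adj v.1 w.1 ∧ _)
    rw [SimpleGraph.boxProd_adj, SimpleGraph.boxProd_adj, h1]
  · intro b p v hv
    have hv' := C07_outside s L h hs v hv
    have h6 := p.2.2
    obtain ⟨b', hb'⟩ : ∃ b', b' = if p.2.val = 0 then !b else b := ⟨_, rfl⟩
    change _ ↔ (D2 (H.boxProd (RX s L)) (glp g (2 * s + 2 * L))).Adj v (ib s L h (if p.2.val = 0 then !b else b) p)
    rw [← hb']
    have h1 := C07_val (Y := Y) s L h hs b p
    have h2 := C07_val (Y := Y) s L h hs b' p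
    have h3 := C07_glp g s L h hs (by omega) b p
    have h4 := C07_glp g s L h hs (by omega) b' p
    have n1 : v.1.2 ≠ (ib s L h b p).1.2 := fun h5 => hv' b p.2.val p.2.2 (by rw [← h1, h5])
    have n2 : v.1.2 ≠ (ib s L h b' p).1.2 := fun h5 => hv' b' p.2.val p.2.2 (by rw [← h2, h5])
    have h7 : (lnG false (2 * s + 2 * L + 1)).Adj v.1.2 (ib s L h b p).1.2 ↔
        (RX s L).Adj v.1.2 (ib s L h b' p).1.2 := by
      change (v.1.2 ≠ _ ∧ (v.1.2.val + 1 = (ib s L h b p).1.2.val ∨ (ib s L h b p).1.2.val + 1 = v.1.2.val ∨ (false = true ∧ _))) ↔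
        (v.1.2 ≠ _ ∧ (nxt s L v.1.2.val (ib s L h b' p).1.2.val ∨ nxt s L (ib s L h b' p).1.2.val v.1.2.val))
      rw [h1, h2]
      simp only [Bool.false_eq_true, false_and, or_false, ne_eq, n1, n2, not_false_eq_true, true_and]
      unfold nxt
      have v0 := hv' false 0 (by omega)
      have v1 := hv' true 0 (by omega)
      have v2 := hv' false 1 (by omega)
      have v3 := hv' true 1 (by omega)
      have v4 : p.2.val ≠ 0 → v.1.2.val ≠ C07_pos s L b (p.2.val - 1) := fun _ => hv' b _ (by omega)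
      rw [C07_pos_false] at v0 v2
      rw [C07_pos_true] at v1 v3
      by_cases h0 : p.2.val = 0
      · rw [if_pos h0] at hb'
        rw [h0]
        cases b
        · subst hb'
          rw [Bool.not_false, C07_pos_false, C07_pos_true]
          omega
        · subst hb'
          rw [Bool.not_true, C07_pos_false, C07_pos_true]
          omega
      · rw [if_neg h0] at hb'
        have v4 := v4 h0
        subst hb'
        cases b'
        · rw [C07_pos_false] at v4 ⊢
          omega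
        · rw [C07_pos_true] at v4 ⊢
          omega
    change ((H.boxProd _).Adj v.1 (ib s L h b p).1 ∧ ¬ (v.2 = true ∧ glp g (2 * s + 2 * L) v.1) ∧
        ¬ (p.1.2 = true ∧ glp g (2 * s + 2 * L) (ib s L h b p).1) ∧
        (v.2 = p.1.2 ∨ glp g (2 * s + 2 * L) v.1 ∨ glp g (2 * s + 2 * L) (ib s L h b p).1)) ↔
      ((H.boxProd _).Adj v.1 (ib s L h b' p).1 ∧ ¬ (v.2 = true ∧ glp g (2 * s + 2 * L) v.1) ∧
        ¬ (p.1.2 = true ∧ glp g (2 * s + 2 * L) (ib s L h b' p).1) ∧
        (v.2 = p.1.2 ∨ glp g (2 * s + 2 * L) v.1 ∨ glp g (2 * s + 2 * L) (ib s L h b' p).1))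
    rw [h3, h4, SimpleGraph.boxProd_adj, SimpleGraph.boxProd_adj, h7]
    have e1 : (v.1.2 = (ib s L h b p).1.2) ↔ False := iff_false_intro n1
    have e2 : (v.1.2 = (ib s L h b' p).1.2) ↔ False := iff_false_intro n2
    rw [e1, e2]
    exact Iff.rfl

end Pool.Agent.LC
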