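import Pool.Agent.Lib_MP_2c424f_lc6.Defs

/-!
# LC6 C08: parity and degrees in the two-sheeted products

* `YG_par`: one coordinate changes by `1` (or between `0` and the odd last index `2 L - 1` of a cycle).
* `D2_par`: neighbours in `R` have values of different parity.
* `YG_deg`: every point has at most 2 neighbours in each of the `d - 1` directions; `D2_deg`: a glued point has at most twice the degree in the base.
-/

set_option autoImplicit false

open Finset

namespace Pool.Agent.LC

open Pool.Agent.LO Pool.Agent.LIN Pool.Agent.THR Pool.Agent.COR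

private lemma card_le_two {V : Type} [Fintype V] (X : SimpleGraph V) (a : V) (P Q : V → Prop)
    (h : ∀ x, X.Adj a x → P x ∨ Q x) (hP : ∀ x y, P x → P y → x = y) (hQ : ∀ x y, Q x → Q y → x = y) :
    (nb X a).card ≤ 2 := by
  classical
  have h1 : nb X a ⊆ univ.filter P ∪ univ.filter Q := by
    intro x hx
    have hx' : X.Adj a x := by
      unfold nb at hx
      exact (mem_filter.1 hx).2
    rcases h x hx' with h | h
    · exact mem_union_left _ (mem_filter.2 ⟨mem_univ _, h⟩)
    · exact mem_union_right _ (mem_filter.2 ⟨mem_univ _, h⟩)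
  have h2 : (univ.filter P).card ≤ 1 := card_le_one.2 fun x hx y hy => hP x y (mem_filter.1 hx).2 (mem_filter.1 hy).2
  have h3 : (univ.filter Q).card ≤ 1 := card_le_one.2 fun x hx y hy => hQ x y (mem_filter.1 hx).2 (mem_filter.1 hy).2
  calc (nb X a).card ≤ (univ.filter P ∪ univ.filter Q).card := card_le_card h1
    _ ≤ (univ.filter P).card + (univ.filter Q).card := card_union_le _ _
    _ ≤ 2 := by omega

private lemma lnG_deg' (p : Bool) (n : ℕ) (a : Fin n) : (nb (lnG p n) a).card ≤ 2 := by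
  refine card_le_two _ a (fun b => a.val + 1 = b.val ∨ (b.val = 0 ∧ a.val + 1 = n))
    (fun b => b.val + 1 = a.val ∨ (a.val = 0 ∧ b.val + 1 = n)) ?_ ?_ ?_
  · rintro b ⟨-, h | h | ⟨-, h | h⟩⟩
    · exact Or.inl (Or.inl h)
    · exact Or.inr (Or.inl h)
    · exact Or.inr (Or.inr h)
    · exact Or.inl (Or.inr h)
  · intro x y hx hy
    have := x.isLt
    have := y.isLt
    apply Fin.ext
    omega
  · intro x y hx hy
    have := x.isLt
    have := y.isLt
    apply Fin.ext
    omega

private lemma par_step (a b n : ℕ) (p : Bool) (hn : p = true → Even n)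
    (h : a + 1 = b ∨ b + 1 = a ∨ (p = true ∧ ((a = 0 ∧ b + 1 = n) ∨ (b = 0 ∧ a + 1 = n)))) :
    Even a ↔ ¬ Even b := by
  simp only [Nat.even_iff] at *
  rcases h with h | h | ⟨hp, h | h⟩
  · omega
  · omega
  · have := hn hp
    omega
  · have := hn hp
    omega

theorem YG_par {d : ℕ} (j : Fin d) (p : {i // i ≠ j} → Bool) (L : Fin d → ℕ) (s : ℕ) (hL : ∀ i, 1 ≤ L i) :
    Par (YG j p L s) (Yev j p L s) := by
  rintro x y ⟨i, h, h'⟩
  have h1 : (Even (x i).val ↔ ¬ Even (y i).val) := by
    refine par_step _ _ (lm (p i) (L i) s + 1) (p i) ?_ h'.2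
    intro hp
    have := hL i
    unfold lm
    rw [if_pos hp]
    exact ⟨L i, by omega⟩
  have e : ∀ z : YV j p L s, Yev j p L s z ↔ Even ((z i).val + ∑ k ∈ univ.erase i, (z k).val) := by
    intro z
    unfold Yev
    rw [add_sum_erase _ (fun k => (z k).val) (mem_univ i)]
  have e2 : ∑ k ∈ univ.erase i, (x k).val = ∑ k ∈ univ.erase i, (y k).val :=
    sum_congr rfl fun k hk => by rw [h k (mem_erase.1 hk).1]
  rw [e x, e y, e2, Nat.even_add, Nat.even_add]
  tauto

open scoped Classical in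
theorem YG_deg {d : ℕ} (j : Fin d) (p : {i // i ≠ j} → Bool) (L : Fin d → ℕ) (s : ℕ) (y : YV j p L s) :
    (nb (YG j p L s) y).card ≤ 2 * (d - 1) := by
  have h1 : nb (YG j p L s) y ⊆ (univ : Finset {i // i ≠ j}).biUnion fun i =>
      (nb (lnG (p i) (lm (p i) (L i) s + 1)) (y i)).image fun b => Function.update y i b := by
    intro x hx
    unfold nb at hx
    obtain ⟨i, h, h'⟩ := (mem_filter.1 hx).2
    refine mem_biUnion.2 ⟨i, mem_univ _, mem_image.2 ⟨x i, ?_, ?_⟩⟩
    · unfold nb
      exact mem_filter.2 ⟨mem_univ _, h'⟩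
    · funext k
      by_cases hk : k = i
      · subst hk
        exact Function.update_self _ _ _
      · rw [Function.update_of_ne hk]
        exact h k hk
  calc (nb (YG j p L s) y).card ≤ _ := card_le_card h1
    _ ≤ ∑ i : {i // i ≠ j}, ((nb (lnG (p i) (lm (p i) (L i) s + 1)) (y i)).image fun b => Function.update y i b).card :=
        card_biUnion_le
    _ ≤ ∑ _i : {i // i ≠ j}, 2 := sum_le_sum fun i _ => le_trans card_image_le (lnG_deg' _ _ _)
    _ = 2 * (d - 1) := by
        rw [sum_const, card_univ, smul_eq_mul]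
        simp [Fintype.card_subtype_compl, mul_comm]

theorem D2_par {Y : Type} [Fintype Y] [DecidableEq Y] {n : ℕ} (H : SimpleGraph Y) (gl : Y × Fin n → Prop) (evY : Y → Prop) (hH : Par H evY)
    (R : SimpleGraph (Fin n)) (hR : ∀ a b, R.Adj a b → (Even a.val ↔ ¬ Even b.val)) :
    Par (D2 (H.boxProd R) gl) (evP evY) := by
  rintro x y ⟨h, -⟩
  unfold evP
  rcases (SimpleGraph.boxProd_adj.1 h) with ⟨h1, h2⟩ | ⟨h1, h2⟩
  · have := hH _ _ h1
    rw [h2]
    tauto
  · have := hR _ _ h1
    rw [h2]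
    tauto

theorem D2_deg {Y : Type} [Fintype Y] [DecidableEq Y] {n : ℕ} (H : SimpleGraph Y) (gl : Y × Fin n → Prop) (D : ℕ)
    (hH : ∀ y, (nb H y).card ≤ D) (R : SimpleGraph (Fin n)) (hR : ∀ a, (nb R a).card ≤ 2) (z : (Y × Fin n) × Bool) :
    (nb (D2 (H.boxProd R) gl) z).card ≤ 2 * (D + 2) := by
  classical
  have h1 : nb (D2 (H.boxProd R) gl) z ⊆
      ((nb H z.1.1).image (fun y => (y, z.1.2)) ∪ (nb R z.1.2).image (fun a => (z.1.1, a))) ×ˢ (univ : Finset Bool) := by
    intro x hx
    unfold nb at hx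
    have hx' := (mem_filter.1 hx).2.1
    refine mem_product.2 ⟨?_, mem_univ _⟩
    rcases (SimpleGraph.boxProd_adj.1 hx') with ⟨h1, h2⟩ | ⟨h1, h2⟩
    · refine mem_union_left _ (mem_image.2 ⟨x.1.1, ?_, ?_⟩)
      · unfold nb
        exact mem_filter.2 ⟨mem_univ _, h1⟩
      · rw [h2]
    · refine mem_union_right _ (mem_image.2 ⟨x.1.2, ?_, ?_⟩)
      · unfold nb
        exact mem_filter.2 ⟨mem_univ _, h1⟩
      · rw [h2]
  calc (nb (D2 (H.boxProd R) gl) z).card ≤ _ := card_le_card h1
    _ = ((nb H z.1.1).image (fun y => (y, z.1.2)) ∪ (nb R z.1.2).image (fun a => (z.1.1, a))).card * 2 := by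
        rw [card_product]
        simp
    _ ≤ (((nb H z.1.1).image (fun y => (y, z.1.2))).card + ((nb R z.1.2).image (fun a => (z.1.1, a))).card) * 2 :=
        Nat.mul_le_mul_right _ (card_union_le _ _)
    _ ≤ (D + 2) * 2 := Nat.mul_le_mul_right _ (add_le_add (le_trans card_image_le (hH _)) (le_trans card_image_le (hR _)))
    _ = 2 * (D + 2) := mul_comm _ _

theorem RX_par (s L : ℕ) (a b : Fin (2 * s + 2 * L + 1)) (h : (RX s L).Adj a b) : Even a.val ↔ ¬ Even b.val := by
  obtain ⟨-, h⟩ := h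
  unfold nxt at h
  simp only [Nat.even_iff]
  omega

theorem RX_deg (s L : ℕ) (a : Fin (2 * s + 2 * L + 1)) : (nb (RX s L) a).card ≤ 2 := by
  refine card_le_two _ a (fun b => nxt s L a.val b.val) (fun b => nxt s L b.val a.val) ?_ ?_ ?_
  · intro b h
    exact h.2
  · intro x y hx hy
    unfold nxt at hx hy
    apply Fin.ext
    omega
  · intro x y hx hy
    unfold nxt at hx hy
    apply Fin.ext
    omega

theorem lnG_par (n : ℕ) (a b : Fin n) (h : (lnG false n).Adj a b) : Even a.val ↔ ¬ Even b.val := by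
  exact par_step _ _ n false (fun h => absurd h (by simp)) h.2

theorem lnG_deg (p : Bool) (n : ℕ) (a : Fin n) : (nb (lnG p n) a).card ≤ 2 := by
  exact lnG_deg' p n a

end Pool.Agent.LC
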