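import Pool.Agent.Lib_MP_2c424f_lc6.Defs

/-!
# LC6 C09: the cells of a layer

`l = 2^s0` even.  In a direction with `n` points the cell with index `k < kk l n` has the coordinates `(l+2) k + 2 + u`, `0 ≤ u ≤ l`: between `2` and `n - 4`
(`(l+2)(k+1) ≤ n - 4`), so cells do not touch the glued points, the ends or the wrap of a cycle, different cells are disjoint, and interior points
have all neighbours in the cell (in the same sheet).  `(l+2) k + 2` is even, `s` is even: parity.
In the direction `j` the coordinate is the level.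
-/

set_option autoImplicit false

open Finset

namespace Pool.Agent.LC

open Pool.Agent.LO Pool.Agent.LIN Pool.Agent.THR Pool.Agent.COR

private theorem C09_lt {l n k u : ℕ} (hk : k < kk l n) (hu : u ≤ l) : (l + 2) * k + 2 + u + 4 ≤ n := by
  unfold kk at hk
  have h1 : k + 1 ≤ (n - 4) / (l + 2) := hk
  rw [Nat.le_div_iff_mul_le (by omega)] at h1
  have h2 : (k + 1) * (l + 2) = (l + 2) * k + (l + 2) := by ring
  rw [h2] at h1
  generalize (l + 2) * k = w at *
  omega

private theorem C09_uniq {l k k' u u' : ℕ} (hu : u ≤ l) (hu' : u' ≤ l)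
    (h : (l + 2) * k + 2 + u = (l + 2) * k' + 2 + u') : k = k' ∧ u = u' := by
  have h1 : (l + 2) * k + u = (l + 2) * k' + u' := by omega
  have h2 : ((l + 2) * k + u) / (l + 2) = k := by
    rw [Nat.mul_add_div (by omega), Nat.div_eq_of_lt (by omega), add_zero]
  have h3 : ((l + 2) * k' + u') / (l + 2) = k' := by
    rw [Nat.mul_add_div (by omega), Nat.div_eq_of_lt (by omega), add_zero]
  have h4 : k = k' := by rw [← h2, ← h3, h1]
  subst h4
  exact ⟨rfl, by omega⟩

section
variable {d : ℕ} (j : Fin d) (p : {i // i ≠ j} → Bool) (L : Fin d → ℕ) (s l h : ℕ) (hh : 1 ≤ h)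

private theorem C09_y (k : CI j p L s l h) (u : BxV d l) (i : {i // i ≠ j}) :
    ((kap j p L s l h hh k u).1.1 i).val = (l + 2) * (k.1.2 i).val + 2 + (u i).val := by
  have h1 := C09_lt (k.1.2 i).isLt (Nat.lt_succ_iff.1 (u i).isLt)
  show ((l + 2) * (k.1.2 i).val + 2 + (u i).val) % (lm (p i) (L i) s + 1) = _
  exact Nat.mod_eq_of_lt (by omega)

private theorem C09_y' (k : CI j p L s l h) (u : BxV d l) (i : Fin d) (hi : i ≠ j) :
    ((kap j p L s l h hh k u).1.1 ⟨i, hi⟩).val = (l + 2) * (k.1.2 ⟨i, hi⟩).val + 2 + (u i).val :=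
  C09_y j p L s l h hh k u ⟨i, hi⟩

private theorem C09_y4 (k : CI j p L s l h) (u : BxV d l) (i : {i // i ≠ j}) :
    2 ≤ ((kap j p L s l h hh k u).1.1 i).val ∧
      ((kap j p L s l h hh k u).1.1 i).val + 4 ≤ lm (p i) (L i) s + 1 := by
  rw [C09_y]
  exact ⟨by omega, C09_lt (k.1.2 i).isLt (Nat.lt_succ_iff.1 (u i).isLt)⟩

private theorem C09_m (k : CI j p L s l h) (u : BxV d l) :
    (kap j p L s l h hh k u).2.val = (l + 2) * k.2.val + 2 + (u j).val := by
  have h1 := C09_lt k.2.isLt (Nat.lt_succ_iff.1 (u j).isLt)
  show ((l + 2) * k.2.val + 2 + (u j).val) % h = _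
  exact Nat.mod_eq_of_lt (by omega)

private theorem C09_m4 (k : CI j p L s l h) (u : BxV d l) :
    2 ≤ (kap j p L s l h hh k u).2.val ∧ (kap j p L s l h hh k u).2.val + 4 ≤ h := by
  rw [C09_m]
  exact ⟨by omega, C09_lt k.2.isLt (Nat.lt_succ_iff.1 (u j).isLt)⟩

private theorem C09_b (k : CI j p L s l h) (u : BxV d l) : (kap j p L s l h hh k u).1.2 = k.1.1 := rfl

/-- a point with the coordinates of a point of a cell is in the cell -/
private theorem C09_ext (k : CI j p L s l h) (u : BxV d l) (v : (YV j p L s × Bool) × Fin h)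
    (h1 : ∀ i, (v.1.1 i).val = (l + 2) * (k.1.2 i).val + 2 + (u i).val) (h2 : v.1.2 = k.1.1)
    (h3 : v.2.val = (l + 2) * k.2.val + 2 + (u j).val) : v = kap j p L s l h hh k u := by
  apply Prod.ext
  · apply Prod.ext
    · funext i
      apply Fin.ext
      rw [h1, C09_y]
    · rw [h2, C09_b]
  · apply Fin.ext
    rw [h3, C09_m]

private theorem C09_a {Y : Type} (K : ℕ) (hsh : h ≤ s) (z : (Y × Bool) × Fin h) :
    (ib s K h false z).1.2.val = s + z.2.val := by
  have h1 := z.2.isLt
  show (s + (if false = true then 2 * K else 0) + z.2.val) % (2 * s + 2 * K + 1) = _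
  simp only [Bool.false_eq_true, if_false, add_zero]
  exact Nat.mod_eq_of_lt (by omega)

private theorem C09_gl (hsh : h ≤ s) (k : CI j p L s l h) (u : BxV d l) :
    ¬ glp (Ygl j p L s) (2 * s + 2 * L j) (ib s (L j) h false (kap j p L s l h hh k u)).1 := by
  have hm := C09_m4 j p L s l h hh k u
  have ha := C09_a s h (L j) hsh (kap j p L s l h hh k u)
  rintro (⟨i, -, hi⟩ | h0 | h0)
  · have hy := C09_y4 j p L s l h hh k u i
    have e : ((ib s (L j) h false (kap j p L s l h hh k u)).1.1 i).val =
        ((kap j p L s l h hh k u).1.1 i).val := rfl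
    rw [e] at hi
    omega
  · rw [ha] at h0
    omega
  · rw [ha] at h0
    omega

end

theorem layer_levels {d : ℕ} (j : Fin d) (p : {i // i ≠ j} → Bool) (L : Fin d → ℕ) (s l h : ℕ) (hh : 1 ≤ h)
    (k : CI j p L s l h) (u : BxV d l) :
    1 ≤ (kap j p L s l h hh k u).2.val ∧ (kap j p L s l h hh k u).2.val + 2 ≤ h := by
  have := C09_m4 j p L s l h hh k u
  omega

theorem layer_cells {d : ℕ} (j : Fin d) (p : {i // i ≠ j} → Bool) (L : Fin d → ℕ) (s l h : ℕ) (hl : Even l) (hl1 : 2 ≤ l)
    (hs : Even s) (hh : 1 ≤ h) (hsh : h ≤ s) (hL : ∀ i, h < 2 * L i) :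
    Cells d l (LG s (L j) h (YG j p L s) (Ygl j p L s))
      (fun z => evP (Yev j p L s) (ib s (L j) h false z)) (kap j p L s l h hh) := by
  have hLj := hL j
  constructor
  · intro k k' u u' he
    have e1 : ∀ i : {i // i ≠ j}, (k.1.2 i).val = (k'.1.2 i).val ∧ (u i).val = (u' i).val := by
      intro i
      have h1 := C09_y j p L s l h hh k u i
      have h2 := C09_y j p L s l h hh k' u' i
      rw [he, h2] at h1
      have h3 := C09_uniq (Nat.lt_succ_iff.1 (u' i).isLt) (Nat.lt_succ_iff.1 (u i).isLt) h1
      exact ⟨h3.1.symm, h3.2.symm⟩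
    have e2 : k.2.val = k'.2.val ∧ (u j).val = (u' j).val := by
      have h1 := C09_m j p L s l h hh k u
      have h2 := C09_m j p L s l h hh k' u'
      rw [he, h2] at h1
      have h3 := C09_uniq (Nat.lt_succ_iff.1 (u' j).isLt) (Nat.lt_succ_iff.1 (u j).isLt) h1
      exact ⟨h3.1.symm, h3.2.symm⟩
    have e3 : k.1.1 = k'.1.1 := by
      rw [← C09_b j p L s l h hh k u, he, C09_b]
    refine ⟨?_, ?_⟩
    · apply Prod.ext
      · apply Prod.ext
        · exact e3
        · funext i
          exact Fin.ext (e1 i).1
      · exact Fin.ext e2.1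
    · funext i
      by_cases hi : i = j
      · subst hi
        exact Fin.ext e2.2
      · exact Fin.ext (e1 ⟨i, hi⟩).2
  · intro k u u'
    have g1 := C09_gl j p L s l h hh hsh k u
    have g2 := C09_gl j p L s l h hh hsh k u'
    have a1 := C09_a s h (L j) hsh (kap j p L s l h hh k u)
    have a2 := C09_a s h (L j) hsh (kap j p L s l h hh k u')
    have m1 := C09_m j p L s l h hh k u
    have m2 := C09_m j p L s l h hh k u'
    have n1 := C09_m4 j p L s l h hh k u
    have n2 := C09_m4 j p L s l h hh k u'
    constructor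
    · rintro ⟨hadj, -, -, -⟩
      rw [SimpleGraph.boxProd_adj] at hadj
      rcases hadj with ⟨⟨i, hi1, hi2⟩, ha⟩ | ⟨ha, hy⟩
      · have ha' := congrArg Fin.val ha
        rw [a1, a2] at ha'
        refine ⟨i.1, ?_, ?_⟩
        · intro i' hi'
          by_cases hij : i' = j
          · subst hij
            exact Fin.ext (by omega)
          · have h1 := congrArg Fin.val (hi1 ⟨i', hij⟩ (fun h => hi' (congrArg Subtype.val h)))
            have h2 := C09_y' j p L s l h hh k u i' hij
            have h3 := C09_y' j p L s l h hh k u' i' hij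
            change ((kap j p L s l h hh k u).1.1 ⟨i', hij⟩).val =
              ((kap j p L s l h hh k u').1.1 ⟨i', hij⟩).val at h1
            exact Fin.ext (by omega)
        · have h2 := C09_y j p L s l h hh k u i
          have h3 := C09_y j p L s l h hh k u' i
          have h4 := C09_y4 j p L s l h hh k u i
          have h5 := C09_y4 j p L s l h hh k u' i
          obtain ⟨-, hi2⟩ := hi2
          change ((kap j p L s l h hh k u).1.1 i).val + 1 = ((kap j p L s l h hh k u').1.1 i).val ∨
            ((kap j p L s l h hh k u').1.1 i).val + 1 = ((kap j p L s l h hh k u).1.1 i).val ∨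
            (p i = true ∧ ((((kap j p L s l h hh k u).1.1 i).val = 0 ∧
              ((kap j p L s l h hh k u').1.1 i).val + 1 = lm (p i) (L i) s + 1) ∨
              (((kap j p L s l h hh k u').1.1 i).val = 0 ∧
              ((kap j p L s l h hh k u).1.1 i).val + 1 = lm (p i) (L i) s + 1))) at hi2
          rcases hi2 with hi2 | hi2 | ⟨-, hi2 | hi2⟩
          · left
            omega
          · right
            omega
          · omega
          · omega
      · refine ⟨j, ?_, ?_⟩
        · intro i' hi'
          have h1 := congrArg Fin.val (congrFun hy ⟨i', hi'⟩)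
          have h2 := C09_y' j p L s l h hh k u i' hi'
          have h3 := C09_y' j p L s l h hh k u' i' hi'
          change ((kap j p L s l h hh k u).1.1 ⟨i', hi'⟩).val =
            ((kap j p L s l h hh k u').1.1 ⟨i', hi'⟩).val at h1
          exact Fin.ext (by omega)
        · obtain ⟨-, ha⟩ := ha
          unfold nxt at ha
          rw [a1, a2] at ha
          omega
    · rintro ⟨i, hi1, hi2⟩
      refine ⟨?_, fun hx => g1 hx.2, fun hx => g2 hx.2, Or.inl rfl⟩
      rw [SimpleGraph.boxProd_adj]
      by_cases hij : i = j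
      · subst hij
        right
        refine ⟨⟨?_, ?_⟩, ?_⟩
        · intro he
          have := congrArg Fin.val he
          rw [a1, a2] at this
          omega
        · unfold nxt
          rw [a1, a2]
          omega
        · funext i'
          apply Fin.ext
          change ((kap i p L s l h hh k u).1.1 i').val = ((kap i p L s l h hh k u').1.1 i').val
          rw [C09_y, C09_y, hi1 i'.1 i'.2]
      · left
        refine ⟨⟨⟨i, hij⟩, ?_, ?_⟩, ?_⟩
        · intro i' hi'
          apply Fin.ext
          change ((kap j p L s l h hh k u).1.1 i').val = ((kap j p L s l h hh k u').1.1 i').val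
          rw [C09_y, C09_y, hi1 i'.1 (fun h => hi' (Subtype.ext h))]
        · have h2 := C09_y' j p L s l h hh k u i hij
          have h3 := C09_y' j p L s l h hh k u' i hij
          refine ⟨?_, ?_⟩
          · intro he
            have := congrArg Fin.val he
            change ((kap j p L s l h hh k u).1.1 ⟨i, hij⟩).val =
              ((kap j p L s l h hh k u').1.1 ⟨i, hij⟩).val at this
            omega
          · change ((kap j p L s l h hh k u).1.1 ⟨i, hij⟩).val + 1 =
                ((kap j p L s l h hh k u').1.1 ⟨i, hij⟩).val ∨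
              ((kap j p L s l h hh k u').1.1 ⟨i, hij⟩).val + 1 =
                ((kap j p L s l h hh k u).1.1 ⟨i, hij⟩).val ∨ _
            omega
        · apply Fin.ext
          rw [a1, a2, m1, m2, hi1 j (fun h => hij h.symm)]
  · intro k u hu v hadj
    have g1 := C09_gl j p L s l h hh hsh k u
    have a1 := C09_a s h (L j) hsh (kap j p L s l h hh k u)
    have a2 := C09_a s h (L j) hsh v
    have m1 := C09_m j p L s l h hh k u
    have n1 := C09_m4 j p L s l h hh k u
    obtain ⟨hadj, -, -, hb⟩ := hadj
    rw [SimpleGraph.boxProd_adj] at hadj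
    -- coordinates of `v`
    suffices hs2 : ∃ u' : BxV d l, (∀ i : {i // i ≠ j}, (v.1.1 i).val = (l + 2) * (k.1.2 i).val + 2 + (u' i).val) ∧
        v.2.val = (l + 2) * k.2.val + 2 + (u' j).val by
      obtain ⟨u', hy, hm⟩ := hs2
      refine ⟨u', C09_ext j p L s l h hh k u' v hy ?_ hm⟩
      have hv : ¬ glp (Ygl j p L s) (2 * s + 2 * L j) (ib s (L j) h false v).1 := by
        have g2 := C09_gl j p L s l h hh hsh k u'
        have e : (ib s (L j) h false v).1 = (ib s (L j) h false (kap j p L s l h hh k u')).1 := by
          apply Prod.ext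
          · funext i
            apply Fin.ext
            change (v.1.1 i).val = ((kap j p L s l h hh k u').1.1 i).val
            rw [hy, C09_y]
          · apply Fin.ext
            rw [a2, C09_a s h (L j) hsh, hm, C09_m]
        rw [e]
        exact g2
      rcases hb with hb | hb | hb
      · exact hb.symm
      · exact absurd hb g1
      · exact absurd hb hv
    rcases hadj with ⟨⟨i, hi1, hi2⟩, ha⟩ | ⟨ha, hy⟩
    · have ha' := congrArg Fin.val ha
      rw [a1, a2] at ha'
      have hui := hu i.1
      have h2 := C09_y j p L s l h hh k u i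
      have h4 := C09_y4 j p L s l h hh k u i
      obtain ⟨-, hi2⟩ := hi2
      change ((kap j p L s l h hh k u).1.1 i).val + 1 = (v.1.1 i).val ∨
        (v.1.1 i).val + 1 = ((kap j p L s l h hh k u).1.1 i).val ∨
        (p i = true ∧ ((((kap j p L s l h hh k u).1.1 i).val = 0 ∧
          (v.1.1 i).val + 1 = lm (p i) (L i) s + 1) ∨
          ((v.1.1 i).val = 0 ∧
          ((kap j p L s l h hh k u).1.1 i).val + 1 = lm (p i) (L i) s + 1))) at hi2
      have hw : ∃ w : ℕ, w ≤ l ∧ (v.1.1 i).val = (l + 2) * (k.1.2 i).val + 2 + w := by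
        rcases hi2 with hi2 | hi2 | ⟨-, hi2 | hi2⟩
        · exact ⟨(u i).val + 1, by omega, by omega⟩
        · exact ⟨(u i).val - 1, by omega, by omega⟩
        · omega
        · omega
      obtain ⟨w, hw1, hw2⟩ := hw
      refine ⟨Function.update u i.1 ⟨w, by omega⟩, ?_, ?_⟩
      · intro i'
        by_cases hii : i' = i
        · subst hii
          rw [Function.update_self]
          exact hw2
        · rw [Function.update_of_ne (fun h => hii (Subtype.ext h))]
          have h1 := congrArg Fin.val (hi1 i' hii)
          change ((kap j p L s l h hh k u).1.1 i').val = (v.1.1 i').val at h1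
          rw [← h1, C09_y]
      · rw [Function.update_of_ne (fun h => i.2 h.symm)]
        omega
    · have huj := hu j
      obtain ⟨-, ha⟩ := ha
      unfold nxt at ha
      rw [a1, a2] at ha
      have hvlt := v.2.isLt
      have hw : ∃ w : ℕ, w ≤ l ∧ v.2.val = (l + 2) * k.2.val + 2 + w := by
        have : v.2.val = (kap j p L s l h hh k u).2.val + 1 ∨
            v.2.val + 1 = (kap j p L s l h hh k u).2.val := by
          omega
        rcases this with h1 | h1
        · exact ⟨(u j).val + 1, by omega, by omega⟩
        · exact ⟨(u j).val - 1, by omega, by omega⟩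
      obtain ⟨w, hw1, hw2⟩ := hw
      refine ⟨Function.update u j ⟨w, by omega⟩, ?_, ?_⟩
      · intro i'
        rw [Function.update_of_ne i'.2]
        have h1 := congrArg Fin.val (congrFun hy i')
        change ((kap j p L s l h hh k u).1.1 i').val = (v.1.1 i').val at h1
        rw [← h1, C09_y]
      · rw [Function.update_self]
        exact hw2
  · intro k u
    have a1 := C09_a s h (L j) hsh (kap j p L s l h hh k u)
    have m1 := C09_m j p L s l h hh k u
    have hev : ∀ a b : ℕ, Even ((l + 2) * a + 2 + b) ↔ Even b := by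
      intro a b
      have : Even ((l + 2) * a + 2) := (hl.add even_two).mul_right a |>.add even_two
      rw [Nat.even_add]
      simp [this]
    have e1 : Yev j p L s (ib s (L j) h false (kap j p L s l h hh k u)).1.1 ↔
        Even (∑ i : {i // i ≠ j}, (u i).val) := by
      have e2 : (∑ i : {i // i ≠ j}, ((ib s (L j) h false (kap j p L s l h hh k u)).1.1 i).val) =
          ∑ i : {i // i ≠ j}, ((l + 2) * (k.1.2 i).val + 2) + ∑ i : {i // i ≠ j}, (u i).val := by
        rw [← Finset.sum_add_distrib]
        refine Finset.sum_congr rfl fun i _ => ?_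
        exact C09_y j p L s l h hh k u i
      unfold Yev
      rw [e2, Nat.even_add]
      have e3 : Even (∑ i : {i // i ≠ j}, ((l + 2) * (k.1.2 i).val + 2)) :=
        Finset.even_sum _ fun i _ => (hl.add even_two).mul_right _ |>.add even_two
      simp [e3]
    have e4 : Even (ib s (L j) h false (kap j p L s l h hh k u)).1.2.val ↔ Even (u j).val := by
      rw [a1, m1, Nat.even_add]
      simp [hs, hev]
    have e5 : (∑ i, (u i).val) = (u j).val + ∑ i : {i // i ≠ j}, (u i).val :=
      Fintype.sum_eq_add_sum_subtype_ne (fun i => (u i).val) j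
    show (Yev j p L s _ ↔ Even _) ↔ Even (∑ i, (u i).val)
    rw [e1, e4, e5, Nat.even_add]
    tauto

end Pool.Agent.LC
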