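import Pool.Agent.Lib_MP_2c424f_lc6.Defs

/-!
# LC6 C10: the cells cover almost everything

* `kk_bound`: `kk l n ≥ (n - 4)/(l+2) - 1`, so `kk l n (l+1) ≥ (n - l - 6)(l+1)/(l+2) ≥ n (1 - (l+6)/n)(1 - 1/(l+2)) ≥ n (1 - 3/x)` if `x ≤ l`, `l x ≤ n`, `l ≥ 6`
  (`(l+6)/n ≤ 2/x`).
* `card_CI`: the cardinality; with `x = d^(C+2)`: product over `d` factors, `(1 - 3/x)^d ≥ 1 - 3 d/x ≥ 1 - 1/d^C` for `d ≥ 3`.
-/

set_option autoImplicit false

open Finset

namespace Pool.Agent.LC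

open Pool.Agent.LO Pool.Agent.LIN Pool.Agent.THR Pool.Agent.COR

theorem kk_bound (l n : ℕ) (x : ℝ) (hx : 1 ≤ x) (hl : 6 ≤ l) (hxl : x ≤ l) (hn : l * x ≤ n) :
    (n : ℝ) * (1 - 3 / x) ≤ kk l n * ((l : ℝ) + 1) := by
  have hl' : (6 : ℝ) ≤ l := by exact_mod_cast hl
  have hx0 : (0 : ℝ) < x := by linarith
  have hn6 : (6 : ℝ) ≤ n := by nlinarith
  have hn6' : 6 ≤ n := by exact_mod_cast hn6
  have h1 : n ≤ kk l n * (l + 2) + l + 5 := by
    unfold kk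
    have h2 := Nat.div_add_mod (n - 4) (l + 2)
    have h3 := Nat.mod_lt (n - 4) (show 0 < l + 2 by omega)
    have h4 : (l + 2) * ((n - 4) / (l + 2)) = (n - 4) / (l + 2) * (l + 2) := Nat.mul_comm _ _
    omega
  have h1' : (n : ℝ) ≤ kk l n * ((l : ℝ) + 2) + l + 5 := by exact_mod_cast h1
  have h5 : ((n : ℝ) - l - 5) * (l + 1) ≤ (kk l n * ((l : ℝ) + 1)) * (l + 2) := by
    have h6 : (n : ℝ) - l - 5 ≤ kk l n * ((l : ℝ) + 2) := by linarith
    calc ((n : ℝ) - l - 5) * (l + 1) ≤ (kk l n * ((l : ℝ) + 2)) * (l + 1) :=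
          mul_le_mul_of_nonneg_right h6 (by positivity)
      _ = _ := by ring
  have h7 : (n : ℝ) * (1 - 3 / x) * (l + 2) ≤ ((n : ℝ) - l - 5) * (l + 1) := by
    have h8 : (n : ℝ) ≤ n * (l + 2) / x := by
      rw [le_div_iff₀ hx0]
      exact mul_le_mul_of_nonneg_left (by linarith) (by positivity)
    have h9 : (l : ℝ) * (l + 2) ≤ n * (l + 2) / x := by
      rw [le_div_iff₀ hx0]
      calc (l : ℝ) * (l + 2) * x = (l * x) * (l + 2) := by ring
        _ ≤ n * (l + 2) := mul_le_mul_of_nonneg_right hn (by positivity)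
    have h10 : (n : ℝ) * (1 - 3 / x) * (l + 2) = n * (l + 2) - 3 * (n * (l + 2) / x) := by
      field_simp
    rw [h10]
    nlinarith
  have h11 : (0 : ℝ) < (l : ℝ) + 2 := by positivity
  exact le_of_mul_le_mul_right (h7.trans h5) h11

theorem cover {d : ℕ} (C : ℕ) (hd : 3 ≤ d) (j : Fin d) (p : {i // i ≠ j} → Bool) (L : Fin d → ℕ) (s l h : ℕ)
    (hl : (d : ℝ) ^ (C + 2) ≤ l) (hl6 : 6 ≤ l) (hh : (l : ℝ) * (d : ℝ) ^ (C + 2) ≤ h)
    (hn : ∀ i : {i // i ≠ j}, h ≤ lm (p i) (L i) s + 1) :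
    (h : ℝ) * (2 * ∏ i : {i // i ≠ j}, ((lm (p i) (L i) s + 1 : ℕ) : ℝ)) * (1 - 1 / (d : ℝ) ^ C) ≤
      Fintype.card (CI j p L s l h) * ((l : ℝ) + 1) ^ d := by
  have hd' : (3 : ℝ) ≤ d := by exact_mod_cast hd
  set x : ℝ := (d : ℝ) ^ (C + 2) with hx
  have hx9 : (9 : ℝ) ≤ x := by
    have h1 : (d : ℝ) ^ 2 ≤ x := pow_le_pow_right₀ (by linarith) (by omega)
    nlinarith
  have hx0 : (0 : ℝ) < x := by linarith
  have hx3 : 3 / x ≤ 1 / 3 := by
    rw [div_le_div_iff₀ hx0 (by norm_num)]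
    linarith
  have hx3' : 0 ≤ 3 / x := by positivity
  have hkh := kk_bound l h x (by linarith) hl6 hl hh
  have hki : ∀ i : {i // i ≠ j}, ((lm (p i) (L i) s + 1 : ℕ) : ℝ) * (1 - 3 / x) ≤
      kk l (lm (p i) (L i) s + 1) * ((l : ℝ) + 1) := by
    intro i
    refine kk_bound l _ x (by linarith) hl6 hl (hh.trans ?_)
    exact_mod_cast hn i
  have hcard : (Fintype.card (CI j p L s l h) : ℝ) =
      2 * (∏ i : {i // i ≠ j}, (kk l (lm (p i) (L i) s + 1) : ℝ)) * kk l h := by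
    rw [Fintype.card_prod, Fintype.card_prod, Fintype.card_bool, Fintype.card_pi, Fintype.card_fin]
    push_cast
    congr 2
    refine prod_congr rfl fun i _ => ?_
    rw [Fintype.card_fin]
  have hcd : (univ : Finset {i // i ≠ j}).card + 1 = d := by
    rw [card_univ, Fintype.card_subtype_compl, Fintype.card_fin, Fintype.card_subtype_eq]
    omega
  have hpow : ((l : ℝ) + 1) ^ d = (∏ _i : {i // i ≠ j}, ((l : ℝ) + 1)) * (l + 1) := by
    rw [prod_const, ← pow_succ, hcd]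
  have hpow2 : (1 - 3 / x) ^ d = (∏ _i : {i // i ≠ j}, (1 - 3 / x)) * (1 - 3 / x) := by
    rw [prod_const, ← pow_succ, hcd]
  have hprod : (∏ i : {i // i ≠ j}, ((lm (p i) (L i) s + 1 : ℕ) : ℝ)) * (∏ _i : {i // i ≠ j}, (1 - 3 / x)) ≤
      (∏ i : {i // i ≠ j}, (kk l (lm (p i) (L i) s + 1) : ℝ)) * ∏ _i : {i // i ≠ j}, ((l : ℝ) + 1) := by
    rw [← prod_mul_distrib, ← prod_mul_distrib]
    refine prod_le_prod (fun i _ => mul_nonneg (Nat.cast_nonneg _) (by linarith)) fun i _ => hki i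
  have hber : 1 - 1 / (d : ℝ) ^ C ≤ (1 - 3 / x) ^ d := by
    have h1 := one_add_mul_le_pow (show (-2 : ℝ) ≤ -(3 / x) by linarith) d
    have h2 : (d : ℝ) * (3 / x) ≤ 1 / (d : ℝ) ^ C := by
      have h3 : x = (d : ℝ) ^ C * d * d := by
        rw [hx, pow_add]
        ring
      rw [h3]
      have hC : (0 : ℝ) < (d : ℝ) ^ C := by positivity
      have hd0 : (0 : ℝ) < d := by linarith
      have h4 : (d : ℝ) * (3 / ((d : ℝ) ^ C * d * d)) = 3 / ((d : ℝ) ^ C * d) := by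
        field_simp
      rw [h4, div_le_div_iff₀ (by positivity) hC]
      nlinarith
    have h5 : (1 - 3 / x : ℝ) = 1 + -(3 / x) := by ring
    rw [h5]
    linarith
  set N : ℝ := ∏ i : {i // i ≠ j}, ((lm (p i) (L i) s + 1 : ℕ) : ℝ) with hN
  have hN0 : 0 ≤ N := prod_nonneg fun i _ => Nat.cast_nonneg _
  calc (h : ℝ) * (2 * N) * (1 - 1 / (d : ℝ) ^ C) ≤ (h : ℝ) * (2 * N) * (1 - 3 / x) ^ d :=
        mul_le_mul_of_nonneg_left hber (by positivity)
    _ = 2 * ((N * ∏ _i : {i // i ≠ j}, (1 - 3 / x)) * (h * (1 - 3 / x))) := by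
        rw [hpow2]
        ring
    _ ≤ 2 * (((∏ i : {i // i ≠ j}, (kk l (lm (p i) (L i) s + 1) : ℝ)) * ∏ _i : {i // i ≠ j}, ((l : ℝ) + 1)) *
        (kk l h * (l + 1))) := by
        refine mul_le_mul_of_nonneg_left (mul_le_mul hprod hkh ?_ ?_) (by norm_num)
        · exact mul_nonneg (Nat.cast_nonneg _) (by linarith)
        · exact mul_nonneg (prod_nonneg fun i _ => Nat.cast_nonneg _) (prod_nonneg fun i _ => by positivity)
    _ = Fintype.card (CI j p L s l h) * ((l : ℝ) + 1) ^ d := by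
        rw [hcard, hpow]
        ring

end Pool.Agent.LC
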