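import Pool.Agent.Lib_MP_2c424f_lc6.C05
import Pool.Agent.Lib_MP_2c424f_lc6.C06
import Pool.Agent.Lib_MP_2c424f_lc6.C07
import Pool.Agent.Lib_MP_2c424f_lc6.C08
import Pool.Agent.Lib_MP_2c424f_lc6.C09
import Pool.Agent.Lib_MP_2c424f_lc6.C10
import Pool.Agent.Lib_MP_2c424f_lc.PV

/-!
# LC6 C11: switching in a product domain

`LC.switch K` for `X = D2 (YG □ RX s (L j))`, `X' = D2 (YG □ path)` with `prod_layer`, `layer_cells`, `layer_levels`, `cover`, `D2_par`, `D2_deg`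
(`2 (2 (d-1) + 2) = 4 d`), level sets `= 2 |YV|` points `=: Y`; then `cG_D2` (`P = True`, same glue set), `N2_RX`, `N2_path`; the factor `q^#gl > 0` cancels.
The constant: `C' = C + 2` where `C` is the constant of `switch K`; `h < 2 L i` from `h ≤ L i`.
-/

set_option autoImplicit false

open Finset Matrix

namespace Pool.Agent.LC

open Pool.Agent.LO Pool.Agent.LIN Pool.Agent.THR Pool.Agent.COR

private theorem C11_level {A B : Type} [Fintype A] [Fintype B] {h : ℕ} (l : ℕ) :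
    (univ.filter fun z : (A × B) × Fin h => z.2.val = l).card ≤ Fintype.card A * Fintype.card B := by
  rw [← Fintype.card_prod, ← card_univ]
  refine card_le_card_of_injOn (fun z => z.1) (fun z _ => mem_coe.2 (mem_univ _)) ?_
  intro z hz z' hz' he
  have h1 : z.2.val = l := (mem_filter.1 (mem_coe.1 hz)).2
  have h2 : z'.2.val = l := (mem_filter.1 (mem_coe.1 hz')).2
  exact Prod.ext he (Fin.ext (h1.trans h2.symm))

theorem sw_prod (K : ℕ) : ∃ C d₀ : ℕ, ∀ d q : ℕ, d₀ ≤ d → Rg d q → ∀ s0 h s : ℕ, (d : ℝ) ^ C ≤ 2 ^ s0 →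
    (2 : ℝ) ^ s0 * (d : ℝ) ^ C ≤ h → (h : ℝ) ^ 2 ≤ 2 ^ d → Even s → h ≤ s →
    ∀ (L : Fin d → ℕ) (j : Fin d) (p : {i // i ≠ j} → Bool), (∀ i, h ≤ L i) →
      (vY q (YV j p L s) ⬝ᵥ ((TY q (YG j p L s) (Ygl j p L s) ^ (2 * s)) *ᵥ vY q (YV j p L s))) *
          (TY q (YG j p L s) (Ygl j p L s) ^ (2 * L j)).trace ≤
        Real.exp (2 * (∏ i : {i // i ≠ j}, ((lm (p i) (L i) s + 1 : ℕ) : ℝ)) / (d : ℝ) ^ K) *
          (vY q (YV j p L s) ⬝ᵥ ((TY q (YG j p L s) (Ygl j p L s) ^ (2 * s + 2 * L j)) *ᵥ vY q (YV j p L s))) := by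
  obtain ⟨C, d₀, hsw⟩ := switch K
  refine ⟨C + 2, d₀ + 6, ?_⟩
  intro d q hd hR s0 h s h1 h2 h3 hse hsh L j p hL
  have hd6 : 6 ≤ d := by omega
  have hdR : (6 : ℝ) ≤ d := by exact_mod_cast hd6
  have hd1 : (1 : ℝ) ≤ d := by linarith
  have hC : (d : ℝ) ^ C ≤ (d : ℝ) ^ (C + 2) := pow_le_pow_right₀ hd1 (by omega)
  have hC6 : (6 : ℝ) ≤ (d : ℝ) ^ (C + 2) := by
    calc (6 : ℝ) ≤ d := hdR
      _ = (d : ℝ) ^ 1 := (pow_one _).symm
      _ ≤ _ := pow_le_pow_right₀ hd1 (by omega)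
  have hq : 0 < q := by
    have := hR.2.2
    omega
  have h6 : (6 : ℝ) ≤ 2 ^ s0 := hC6.trans h1
  have h6n : 6 ≤ 2 ^ s0 := by exact_mod_cast h6
  have hs0 : s0 ≠ 0 := by
    rintro rfl
    norm_num at h6n
  have hh : 1 ≤ h := by
    have h4 : (1 : ℝ) ≤ h := by
      refine le_trans ?_ h2
      nlinarith
    exact_mod_cast h4
  have hh2 : 2 ≤ h := by
    have h4 : (2 : ℝ) ≤ h := by
      refine le_trans ?_ h2
      nlinarith
    exact_mod_cast h4
  have hL1 : ∀ i, 1 ≤ L i := fun i => hh.trans (hL i)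
  have hL2 : ∀ i, h < 2 * L i := fun i => by
    have := hL i
    omega
  have hdeg : ∀ (R : SimpleGraph (Fin (2 * s + 2 * L j + 1))), (∀ a, (nb R a).card ≤ 2) →
      ∀ v, (nb (D2 ((YG j p L s).boxProd R) (glp (Ygl j p L s) (2 * s + 2 * L j))) v).card ≤ 4 * d := by
    intro R hRd v
    refine (D2_deg _ _ (2 * (d - 1)) (YG_deg j p L s) R hRd v).trans (le_of_eq ?_)
    omega
  have hS := hsw d q (by omega) hR s0 h (hC.trans h1)
    (le_trans (mul_le_mul_of_nonneg_left hC (by positivity)) h2) h3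
    ((YV j p L s × Fin (2 * s + 2 * L j + 1)) × Bool) ((YV j p L s × Bool) × Fin h)
    (CI j p L s (2 ^ s0) h)
    (D2 ((YG j p L s).boxProd (RX s (L j))) (glp (Ygl j p L s) (2 * s + 2 * L j)))
    (D2 ((YG j p L s).boxProd (lnG false (2 * s + 2 * L j + 1))) (glp (Ygl j p L s) (2 * s + 2 * L j)))
    (evP (Yev j p L s)) (LG s (L j) h (YG j p L s) (Ygl j p L s)) (fun z => z.2.val) (ib s (L j) h)
    (kap j p L s (2 ^ s0) h hh)
    (2 * (∏ i : {i // i ≠ j}, ((lm (p i) (L i) s + 1 : ℕ) : ℝ)))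
    (D2_par _ _ _ (YG_par j p L s hL1) _ (RX_par s (L j)))
    (D2_par _ _ _ (YG_par j p L s hL1) _ (lnG_par _))
    (hdeg _ (RX_deg s (L j))) (hdeg _ (lnG_deg false _))
    (prod_layer (YG j p L s) (Ygl j p L s) (Yev j p L s) s (L j) h hh2 hsh (hL2 j))
    (layer_cells j p L s (2 ^ s0) h (Nat.even_pow.2 ⟨even_two, hs0⟩) (by omega) hse hh hsh hL2)
    (layer_levels j p L s (2 ^ s0) h hh)
    (by
      intro l
      have h4 := C11_level (A := YV j p L s) (B := Bool) (h := h) l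
      have h5 : Fintype.card (YV j p L s) = ∏ i : {i // i ≠ j}, (lm (p i) (L i) s + 1) := by
        simp [YV, Fintype.card_pi]
      rw [h5, Fintype.card_bool] at h4
      have h6 : (((univ.filter fun z : (YV j p L s × Bool) × Fin h => z.2.val = l).card : ℕ) : ℝ) ≤
          (((∏ i : {i // i ≠ j}, (lm (p i) (L i) s + 1)) * 2 : ℕ) : ℝ) := by exact_mod_cast h4
      refine h6.trans (le_of_eq ?_)
      rw [Nat.cast_mul, Nat.cast_prod]
      push_cast
      ring)
    (by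
      have h4 := cover C (by omega) j p L s (2 ^ s0) h (by push_cast; exact h1) h6n
        (by push_cast; exact h2) (by
          intro i
          have h5 := hL i.1
          unfold lm
          split_ifs <;> omega)
      push_cast at h4 ⊢
      exact h4)
  have e1 := cG_D2 (q := q) ((YG j p L s).boxProd (RX s (L j))) (glp (Ygl j p L s) (2 * s + 2 * L j))
    (fun _ => True)
  have e2 := cG_D2 (q := q) ((YG j p L s).boxProd (lnG false (2 * s + 2 * L j + 1)))
    (glp (Ygl j p L s) (2 * s + 2 * L j)) (fun _ => True)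
  rw [e1, e2, N2_RX q (YG j p L s) (Ygl j p L s) s (L j) (hh.trans hsh) (hL1 j),
    N2_path q (YG j p L s) (Ygl j p L s) (2 * s + 2 * L j) (by have := hL1 j; omega)] at hS
  have hq' : (0 : ℝ) < q := by exact_mod_cast hq
  rw [mul_left_comm (Real.exp _)] at hS
  exact le_of_mul_le_mul_left hS (pow_pos hq' _)

end Pool.Agent.LC
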