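import Pool.Agent.Lib_MP_2c424f_lc6.Defs

/-!
# LC6 C12: counting the bad blocks

`t : ∀ i, Fin (nbk (per i) (L i))` is `(t j, t restricted to i ≠ j)` (`Equiv.piSplitAt`).
-/

set_option autoImplicit false

open Finset

namespace Pool.Agent.LC

open Pool.Agent.LO Pool.Agent.LIN Pool.Agent.THR Pool.Agent.COR

variable {d q : ℕ}

theorem Wn_slabs (per : Fin d → Bool) (L : Fin d → ℕ) (j : Fin d) (Γ : (Fin d → ℕ) → Option (Option (Fin q))) :
    Wn per L Γ = ∑ ℓ ∈ range (nbk (per j) (L j)), wnS j (fun i => per i) L Γ ℓ := by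
  classical
  have key : ∀ (x : Fin (nbk (per j) (L j))) (y : ∀ i : {i // i ≠ j}, Fin (nbk (per i) (L i))),
      (fun i => (((Equiv.piSplitAt j fun i => Fin (nbk (per i) (L i))).symm (x, y)) i).val) =
        fun i => if h : i = j then x.val else (y ⟨i, h⟩).val := by
    intro x y
    funext i
    by_cases h : i = j
    · subst h
      simp [Equiv.piSplitAt]
    · simp [Equiv.piSplitAt, h]
  have h1 : Wn per L Γ = ∑ t : ∀ i, Fin (nbk (per i) (L i)), if Γ (fun i => (t i).val) ≠ none then 1 else 0 := by
    unfold Wn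
    rw [Finset.card_filter]
  have h2 : ∀ ℓ, wnS j (fun i => per i) L Γ ℓ = ∑ t : ∀ i : {i // i ≠ j}, Fin (nbk (per i) (L i)),
      if Γ (fun i => if h : i = j then ℓ else (t ⟨i, h⟩).val) ≠ none then 1 else 0 := by
    intro ℓ
    unfold wnS
    rw [Finset.card_filter]
  rw [h1, ← (Equiv.piSplitAt j fun i => Fin (nbk (per i) (L i))).symm.sum_comp, Fintype.sum_prod_type,
    ← Fin.sum_univ_eq_sum_range (fun ℓ => wnS j (fun i => per i) L Γ ℓ)]
  refine Finset.sum_congr rfl fun x _ => ?_
  rw [h2]
  refine Finset.sum_congr rfl fun y _ => ?_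
  rw [key x y]

theorem Wn_update (per : Fin d → Bool) (L : Fin d → ℕ) (j : Fin d) (Γ : (Fin d → ℕ) → Option (Option (Fin q))) (ℓ : ℕ) :
    Wn (Function.update per j true) L (fun t => Γ (Function.update t j ℓ)) = L j * wnS j (fun i => per i) L Γ ℓ := by
  classical
  rw [Wn_slabs (Function.update per j true) L j]
  have h1 : (fun i : {i // i ≠ j} => Function.update per j true i) = fun i : {i // i ≠ j} => per i := by
    funext i
    rw [Function.update_of_ne i.2]
  rw [h1]
  have h2 : ∀ ℓ', wnS j (fun i => per i) L (fun t => Γ (Function.update t j ℓ)) ℓ' = wnS j (fun i => per i) L Γ ℓ := by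
    intro ℓ'
    unfold wnS
    congr 1
    refine Finset.filter_congr fun t _ => ?_
    have h3 : Function.update (fun i => if h : i = j then ℓ' else (t ⟨i, h⟩).val) j ℓ =
        fun i => if h : i = j then ℓ else (t ⟨i, h⟩).val := by
      funext i
      by_cases h : i = j
      · subst h
        simp
      · rw [Function.update_of_ne h]
        simp [h]
    show Γ (Function.update (fun i => if h : i = j then ℓ' else (t ⟨i, h⟩).val) j ℓ) ≠ none ↔ _
    rw [h3]
  rw [Finset.sum_congr rfl fun ℓ' _ => h2 ℓ', Finset.sum_const, Finset.card_range, smul_eq_mul,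
    Function.update_self]
  rfl

end Pool.Agent.LC
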