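import Pool.Agent.Lib_MP_2c424f_lc6.Defs
import Pool.Agent.Lib_MP_2c424f_lc2.B05

/-!
# LC6 C13: all directions periodic

`Γ` is invariant in all directions, hence constant (change the coordinates one by one).  `Γ = none`: `WE` is `True` and `Wn = 0`.  `Γ = some τ`:
`Wgl` is empty (`per i = true`), so `N2 B gl P = cG B P · cG B True`; `small_torus`; `Wn = ∏ L i` and
`∏ (2 · 2^r i) = 2^d ∏ 2^r i`, so `exp (-(∏ (2 L i))/d^C) = exp (-(2^d/d^C))^(∏ L i)`.
-/

set_option autoImplicit false

open Finset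

namespace Pool.Agent.LC

open Pool.Agent.LO Pool.Agent.LIN Pool.Agent.THR Pool.Agent.COR

private theorem c13_N2 {W : Type} [Fintype W] [DecidableEq W] {q : ℕ} (B : SimpleGraph W) (gl : W → Prop)
    (hgl : ∀ x, ¬ gl x) (P : (W → Fin q) → Prop) : N2 B gl P = cG B P * cG B (fun _ : W → Fin q => True) := by
  classical
  unfold N2 cG
  rw [← Nat.cast_mul, ← card_product]
  refine congrArg (Nat.cast : ℕ → ℝ) (congrArg Finset.card ?_)
  ext p
  simp only [mem_product, mem_filter, mem_univ, true_and, and_true]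
  constructor
  · rintro ⟨h1, h2, -, h4⟩
    exact ⟨⟨h1, h4⟩, h2⟩
  · rintro ⟨⟨h1, h2⟩, h3⟩
    exact ⟨h1, h3, fun x hx => absurd hx (hgl x), h2⟩

private theorem c13_const {d q : ℕ} (Γ : (Fin d → ℕ) → Option (Option (Fin q)))
    (h : ∀ t i v, Γ (Function.update t i v) = Γ t) (t t' : Fin d → ℕ) : Γ t' = Γ t := by
  classical
  have h1 : ∀ S : Finset (Fin d), Γ (fun i => if i ∈ S then t' i else t i) = Γ t := by
    intro S
    induction S using Finset.induction_on with
    | empty => simp
    | insert a S ha ih =>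
      rw [← ih, ← h (fun i => if i ∈ S then t' i else t i) a (t' a)]
      congr 1
      funext i
      by_cases hi : i = a
      · subst hi
        rw [Function.update_self, if_pos (mem_insert_self _ _)]
      · rw [Function.update_of_ne hi]
        by_cases hS : i ∈ S
        · rw [if_pos (mem_insert_of_mem hS), if_pos hS]
        · rw [if_neg hS, if_neg]
          rw [mem_insert]
          rintro (h2 | h2)
          · exact hi h2
          · exact hS h2
  have h2 := h1 univ
  simpa using h2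

private theorem c13_cG_congr {W : Type} [Fintype W] [DecidableEq W] {q : ℕ} (B : SimpleGraph W)
    {P Q : (W → Fin q) → Prop} (h : ∀ f, P f ↔ Q f) : cG B P = cG B Q := by
  have h1 : P = Q := funext fun f => propext (h f)
  rw [h1]

theorem all_periodic : ∃ C d₀ : ℕ, ∀ d q : ℕ, d₀ ≤ d → Rg d q → ∀ (r : Fin d → ℕ) (s : ℕ), (∀ i, (d : ℝ) ^ C ≤ 2 ^ r i) →
    ∀ Γ : (Fin d → ℕ) → Option (Option (Fin q)), (∀ t i v, Γ (Function.update t i v) = Γ t) →
      N2 (WG (fun _ : Fin d => true) (fun i => 2 ^ r i) s) (Wgl (fun _ : Fin d => true) (fun i => 2 ^ r i) s)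
          (WE (fun _ => true) (fun i => 2 ^ r i) s Γ) ≤
        N2 (WG (fun _ : Fin d => true) (fun i => 2 ^ r i) s) (Wgl (fun _ : Fin d => true) (fun i => 2 ^ r i) s)
          (WE (q := q) (fun _ => true) (fun i => 2 ^ r i) s fun _ => none) *
          Real.exp (-(2 ^ d / (d : ℝ) ^ C)) ^ Wn (fun _ => true) (fun i => 2 ^ r i) Γ := by
  classical
  obtain ⟨C, d₀, hst⟩ := small_torus
  refine ⟨C, d₀, fun d q hd hR r s hr Γ hΓ => ?_⟩
  have hgl : ∀ x, ¬ Wgl (fun _ : Fin d => true) (fun i => 2 ^ r i) s x := by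
    rintro x ⟨i, h, -⟩
    exact absurd h (by simp)
  have hnone : ∀ f : WV (fun _ : Fin d => true) (fun i => 2 ^ r i) s → Fin q,
      WE (fun _ => true) (fun i => 2 ^ r i) s (fun _ => none) f ↔ True := by
    intro f
    refine ⟨fun _ => trivial, fun _ t _ τ hτ => ?_⟩
    exact absurd hτ (by simp)
  rw [c13_N2 _ _ hgl, c13_N2 _ _ hgl, c13_cG_congr _ hnone]
  have hΓc : Γ = fun _ => Γ (fun _ => 0) := funext fun t => c13_const Γ hΓ _ t
  rcases hg : Γ (fun _ => 0) with _ | τ
  · rw [hg] at hΓc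
    rw [hΓc, c13_cG_congr _ hnone]
    have hW : Wn (fun _ : Fin d => true) (fun i => 2 ^ r i) (fun _ => (none : Option (Option (Fin q)))) = 0 := by
      unfold Wn
      rw [card_eq_zero, filter_eq_empty_iff]
      intro x _ hx
      exact hx rfl
    rw [hW, pow_zero, mul_one]
  · rw [hg] at hΓc
    rw [hΓc]
    have h1 := hst d q hd hR r s hr τ
    have hW : Wn (fun _ : Fin d => true) (fun i => 2 ^ r i) (fun _ => some τ) = ∏ i, 2 ^ r i := by
      unfold Wn
      rw [filter_true_of_mem (fun x _ => by simp), card_univ, Fintype.card_pi]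
      refine prod_congr rfl fun i _ => ?_
      rw [Fintype.card_fin]
      unfold nbk
      rw [if_pos rfl]
    have hcG : 0 ≤ cG (WG (fun _ : Fin d => true) (fun i => 2 ^ r i) s)
        (fun _ : WV (fun _ : Fin d => true) (fun i => 2 ^ r i) s → Fin q => True) := by
      unfold cG
      positivity
    have hexp : Real.exp (-(2 ^ d / (d : ℝ) ^ C)) ^ (∏ i, 2 ^ r i) =
        Real.exp (-((∏ i, (2 : ℝ) * 2 ^ r i) / (d : ℝ) ^ C)) := by
      rw [← Real.exp_nat_mul]
      congr 1
      rw [prod_mul_distrib, prod_const, card_univ, Fintype.card_fin]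
      push_cast
      ring
    rw [hW, hexp]
    refine (mul_le_mul_of_nonneg_right h1 hcG).trans (le_of_eq ?_)
    ring

end Pool.Agent.LC
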