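import Pool.Agent.Lib_MP_2c424f_lc6.C11
import Pool.Agent.Lib_MP_2c424f_lc6.C13
import Pool.Agent.Lib_MP_2c424f_lc6.C14

/-!
# LC6 C15: bad blocks in the doubled box are rare (main theorem of VI.B)

Induction on the number of free directions, claim for all `per` and all `Γ` which are invariant in the periodic directions:
`N2 (Γ) ≤ N2 (none) exp (#free · Ym / d^K) x^(Wn Γ)`, `x = exp (-(2^d/d^Cb))`.  No free direction: `all_periodic` (`per = fun _ => true`).  Otherwise
take `j` with `per j = false`: `free_step` with `c = exp (Ym/d^K)` (`sw_prod`; `2 ∏ (lm + 1) ≤ 2 ∏ (2 L i + 2 s) ≤ Ym`), `E = exp ((#free - 1) Ym / d^K)`;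
`fun t => Γ (update t j ℓ)` is invariant in the directions with `update per j true i = true` (`Function.update_comm`).
The `N2` are positive: `q ≥ 2`, the colouring by parity (`0` at even, `1` at odd points of both sheets).
-/

set_option autoImplicit false

open Finset Matrix

namespace Pool.Agent.LC

open Pool.Agent.LO Pool.Agent.LIN Pool.Agent.THR Pool.Agent.COR

theorem N2_pos {d q : ℕ} (hq : 2 ≤ q) (per : Fin d → Bool) (L : Fin d → ℕ) (s : ℕ) (hL : ∀ i, 1 ≤ L i) :
    0 < N2 (WG per L s) (Wgl per L s) (WE (q := q) per L s fun _ => none) := by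
  classical
  have hq0 : 0 < q := by omega
  set z : Fin q := ⟨0, hq0⟩ with hz
  set o : Fin q := ⟨1, by omega⟩ with ho
  have hzo : z ≠ o := by
    intro h
    have := congrArg Fin.val h
    simp [hz, ho] at this
  set f : WV per L s → Fin q := fun x => if Even (∑ i, (x i).val) then z else o with hf
  have hlm : ∀ i, per i = true → Odd (lm (per i) (L i) s) := by
    intro i hi
    unfold lm
    rw [if_pos hi]
    have := hL i
    exact ⟨L i - 1, by omega⟩
  have hpar : ∀ x y : WV per L s, (WG per L s).Adj x y → ¬ (Even (∑ i, (x i).val) ↔ Even (∑ i, (y i).val)) := by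
    rintro x y ⟨i, hi1, hi2⟩
    rw [← add_sum_erase univ (fun i => (x i).val) (mem_univ i), ← add_sum_erase univ (fun i => (y i).val) (mem_univ i)]
    have h1 : ∑ k ∈ univ.erase i, (x k).val = ∑ k ∈ univ.erase i, (y k).val :=
      sum_congr rfl fun k hk => by rw [hi1 k (ne_of_mem_erase hk)]
    rw [h1]
    obtain ⟨_, h2⟩ := hi2
    have h3 : ¬ (Even (x i).val ↔ Even (y i).val) := by
      rcases h2 with h2 | h2 | ⟨h2, h3⟩
      · rw [← h2, Nat.even_add_one]
        tauto
      · rw [← h2, Nat.even_add_one]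
        tauto
      · have h4 := hlm i h2
        rcases h3 with ⟨h5, h6⟩ | ⟨h5, h6⟩
        · have h7 : (y i).val = lm (per i) (L i) s := by omega
          rw [h5, h7]
          have h8 := Nat.not_even_iff_odd.2 h4
          simp [h8]
        · have h7 : (x i).val = lm (per i) (L i) s := by omega
          rw [h5, h7]
          have h8 := Nat.not_even_iff_odd.2 h4
          simp [h8]
    rw [Nat.even_add, Nat.even_add]
    tauto
  have hprop : PrG (WG per L s) f := by
    intro x y hxy
    have h1 := hpar x y hxy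
    simp only [hf]
    by_cases hx : Even (∑ i, (x i).val) <;> by_cases hy : Even (∑ i, (y i).val)
    · exact absurd (iff_of_true hx hy) h1
    · rw [if_pos hx, if_neg hy]
      exact hzo
    · rw [if_neg hx, if_pos hy]
      exact hzo.symm
    · exact absurd (iff_of_false hx hy) h1
  unfold N2
  have hmem : (f, f) ∈ (univ.filter fun p : (WV per L s → Fin q) × (WV per L s → Fin q) =>
      PrG (WG per L s) p.1 ∧ PrG (WG per L s) p.2 ∧ (∀ x, Wgl per L s x → p.1 x = p.2 x) ∧
        WE (q := q) per L s (fun _ => none) p.1) := by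
    rw [mem_filter]
    refine ⟨mem_univ _, hprop, hprop, fun _ _ => rfl, ?_⟩
    intro t _ τ hτ
    exact absurd hτ (by simp)
  have h1 := card_pos.2 ⟨_, hmem⟩
  exact_mod_cast h1

private theorem c15_pow_nonneg {S : Type} [Fintype S] [DecidableEq S] (T : Matrix S S ℝ) (hT : ∀ a b, 0 ≤ T a b)
    (n : ℕ) : ∀ a b, 0 ≤ (T ^ n) a b := by
  induction n with
  | zero =>
    intro a b
    rw [pow_zero, Matrix.one_apply]
    split_ifs <;> norm_num
  | succ n ih =>
    intro a b
    rw [pow_succ, Matrix.mul_apply]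
    exact sum_nonneg fun c _ => mul_nonneg (ih a c) (hT c b)

private theorem c15_quad_nonneg {S : Type} [Fintype S] [DecidableEq S] (T : Matrix S S ℝ) (hT : ∀ a b, 0 ≤ T a b)
    (v : S → ℝ) (hv : ∀ a, 0 ≤ v a) (n : ℕ) : 0 ≤ v ⬝ᵥ ((T ^ n) *ᵥ v) :=
  sum_nonneg fun a _ => mul_nonneg (hv a) (sum_nonneg fun b _ => mul_nonneg (c15_pow_nonneg T hT n a b) (hv b))

private theorem c15_vY (q : ℕ) (Y : Type) (σ : Y → Fin q × Fin q) : 0 ≤ vY q Y σ := by
  unfold vY
  split_ifs <;> norm_num

private theorem c15_vol {d : ℕ} (per : Fin d → Bool) (r : Fin d → ℕ) (s : ℕ) (j : Fin d) :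
    (∏ i : {i // i ≠ j}, ((lm (per i) (2 ^ r i) s + 1 : ℕ) : ℝ)) ≤ ∏ i ∈ univ.erase j, (2 * (2 : ℝ) ^ r i + 2 * s) := by
  have h1 : (∏ i ∈ univ.erase j, (2 * (2 : ℝ) ^ r i + 2 * s)) = ∏ i : {i // i ≠ j}, (2 * (2 : ℝ) ^ r i + 2 * s) :=
    Finset.prod_subtype (univ.erase j) (by simp) _
  rw [h1]
  refine prod_le_prod (fun i _ => by positivity) fun i _ => ?_
  have h2 : lm (per i) (2 ^ r i) s + 1 ≤ 2 * 2 ^ r i + 2 * s := by
    unfold lm
    have h3 : 1 ≤ 2 ^ r (i : Fin d) := Nat.one_le_two_pow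
    split_ifs <;> omega
  exact_mod_cast h2

theorem dbl_bad : ∃ Cb : ℕ, ∀ K : ℕ, ∃ C d₀ : ℕ, ∀ d q : ℕ, d₀ ≤ d → Rg d q → ∀ s0 h s : ℕ, (d : ℝ) ^ C ≤ 2 ^ s0 →
    (2 : ℝ) ^ s0 * (d : ℝ) ^ C ≤ h → (h : ℝ) ^ 2 ≤ 2 ^ d → Even s → h ≤ s → ∀ r : Fin d → ℕ, (∀ i, h ≤ 2 ^ r i) →
    ∀ Ym : ℝ, (∀ j, 2 * ∏ i ∈ univ.erase j, (2 * (2 : ℝ) ^ r i + 2 * s) ≤ Ym) →
    ∀ Γ : (Fin d → ℕ) → Option (Option (Fin q)),
      N2 (WG (fun _ : Fin d => false) (fun i => 2 ^ r i) s) (Wgl (fun _ : Fin d => false) (fun i => 2 ^ r i) s)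
          (WE (fun _ => false) (fun i => 2 ^ r i) s Γ) ≤
        N2 (WG (fun _ : Fin d => false) (fun i => 2 ^ r i) s) (Wgl (fun _ : Fin d => false) (fun i => 2 ^ r i) s)
          (WE (q := q) (fun _ => false) (fun i => 2 ^ r i) s fun _ => none) *
          Real.exp (d * Ym / (d : ℝ) ^ K) * Real.exp (-(2 ^ d / (d : ℝ) ^ Cb)) ^ Wn (fun _ => false) (fun i => 2 ^ r i) Γ := by
  obtain ⟨C1, d1, h1⟩ := all_periodic
  refine ⟨C1, fun K => ?_⟩
  obtain ⟨C2, d2, h2⟩ := sw_prod K
  refine ⟨max C1 C2, max (max d1 d2) 1, ?_⟩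
  intro d q hd hR s0 h s hs0 hh hh2 hs hhs r hr Ym hYm Γ
  have hd1 : d1 ≤ d := le_trans (le_trans (le_max_left _ _) (le_max_left _ _)) hd
  have hd2 : d2 ≤ d := le_trans (le_trans (le_max_right _ _) (le_max_left _ _)) hd
  have hd0 : 1 ≤ d := le_trans (le_max_right _ _) hd
  have hdr : (1 : ℝ) ≤ d := by exact_mod_cast hd0
  have hq : 2 ≤ q := by
    obtain ⟨⟨k, hk⟩, _, h3⟩ := hR
    omega
  have hC1 : (d : ℝ) ^ C1 ≤ (d : ℝ) ^ max C1 C2 := pow_le_pow_right₀ hdr (le_max_left _ _)
  have hC2 : (d : ℝ) ^ C2 ≤ (d : ℝ) ^ max C1 C2 := pow_le_pow_right₀ hdr (le_max_right _ _)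
  have h2s : (1 : ℝ) ≤ 2 ^ s0 := one_le_pow₀ (by norm_num)
  have hdC : (0 : ℝ) < (d : ℝ) ^ max C1 C2 := by positivity
  have hper1 : ∀ i, (d : ℝ) ^ C1 ≤ 2 ^ r i := by
    intro i
    have h3 : (h : ℝ) ≤ 2 ^ r i := by exact_mod_cast hr i
    nlinarith
  have hsw1 : (d : ℝ) ^ C2 ≤ 2 ^ s0 := hC2.trans hs0
  have hsw2 : (2 : ℝ) ^ s0 * (d : ℝ) ^ C2 ≤ h := by
    refine le_trans ?_ hh
    exact mul_le_mul_of_nonneg_left hC2 (by positivity)
  have hh1 : 1 ≤ h := by
    have h3 : (0 : ℝ) < h := lt_of_lt_of_le (mul_pos (by positivity) hdC) hh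
    exact_mod_cast h3
  have hs1 : 1 ≤ s := hh1.trans hhs
  set x : ℝ := Real.exp (-(2 ^ d / (d : ℝ) ^ C1)) with hx
  have hx0 : 0 ≤ x := (Real.exp_pos _).le
  have key : ∀ (n : ℕ) (per : Fin d → Bool), (univ.filter fun i => per i = false).card = n →
      ∀ Γ : (Fin d → ℕ) → Option (Option (Fin q)), (∀ i, per i = true → ∀ t v, Γ (Function.update t i v) = Γ t) →
      N2 (WG per (fun i => 2 ^ r i) s) (Wgl per (fun i => 2 ^ r i) s) (WE per (fun i => 2 ^ r i) s Γ) ≤
        N2 (WG per (fun i => 2 ^ r i) s) (Wgl per (fun i => 2 ^ r i) s)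
          (WE (q := q) per (fun i => 2 ^ r i) s fun _ => none) *
          Real.exp (n * Ym / (d : ℝ) ^ K) * x ^ Wn per (fun i => 2 ^ r i) Γ := by
    intro n
    induction n with
    | zero =>
      intro per hper Γ hΓ
      have hp : per = fun _ => true := by
        funext i
        by_contra hi
        have h3 : i ∈ (univ.filter fun i => per i = false) := by
          rw [mem_filter]
          exact ⟨mem_univ _, by simpa using hi⟩
        rw [card_eq_zero] at hper
        rw [hper] at h3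
        exact absurd h3 (notMem_empty _)
      subst hp
      have h3 := h1 d q hd1 hR r s hper1 Γ (fun t i v => hΓ i rfl t v)
      have h4 : Real.exp (((0 : ℕ) : ℝ) * Ym / (d : ℝ) ^ K) = 1 := by
        rw [Nat.cast_zero, zero_mul, zero_div, Real.exp_zero]
      rw [h4, mul_one]
      exact h3
    | succ n ih =>
      intro per hper Γ hΓ
      obtain ⟨j, hj⟩ : ∃ j, per j = false := by
        have h3 : 0 < (univ.filter fun i => per i = false).card := by omega
        obtain ⟨j, hj⟩ := card_pos.1 h3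
        exact ⟨j, (mem_filter.1 hj).2⟩
      have hYm0 : 0 ≤ Ym := by
        refine le_trans ?_ (hYm j)
        positivity
      have hcard : (univ.filter fun i => Function.update per j true i = false).card = n := by
        have h3 : (univ.filter fun i => Function.update per j true i = false) =
            (univ.filter fun i => per i = false).erase j := by
          ext i
          rw [mem_filter, mem_erase, mem_filter]
          by_cases hi : i = j
          · subst hi
            simp
          · rw [Function.update_of_ne hi]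
            simp [hi]
        have hmemj : j ∈ (univ.filter fun i => per i = false) := mem_filter.2 ⟨mem_univ _, hj⟩
        rw [h3, card_erase_of_mem hmemj, hper]
        rfl
      have hE : 1 ≤ Real.exp (n * Ym / (d : ℝ) ^ K) := Real.one_le_exp (by positivity)
      have hc : 0 ≤ Real.exp (Ym / (d : ℝ) ^ K) := (Real.exp_pos _).le
      have hsw := h2 d q hd2 hR s0 h s hsw1 hsw2 hh2 hs hhs (fun i => 2 ^ r i) j (fun i => per i) hr
      have hvol : 2 * (∏ i : {i // i ≠ j}, ((lm (per i) (2 ^ r i) s + 1 : ℕ) : ℝ)) / (d : ℝ) ^ K ≤ Ym / (d : ℝ) ^ K := by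
        refine div_le_div_of_nonneg_right ?_ (by positivity)
        refine le_trans ?_ (hYm j)
        exact mul_le_mul_of_nonneg_left (c15_vol per r s j) (by norm_num)
      have hquad := c15_quad_nonneg
        (TY q (YG j (fun i => per i) (fun i => 2 ^ r i) s) (Ygl j (fun i => per i) (fun i => 2 ^ r i) s))
        (TY_nonneg _ _ _) (vY q (YV j (fun i => per i) (fun i => 2 ^ r i) s)) (c15_vY _ _) (2 * s + 2 * 2 ^ r j)
      have hsw' := hsw.trans (mul_le_mul_of_nonneg_right (Real.exp_le_exp.2 hvol) hquad)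
      have hfs := free_step per r s j hj hs hs1 (Real.exp (Ym / (d : ℝ) ^ K)) (Real.exp (n * Ym / (d : ℝ) ^ K)) x
        hc hE hx0 (N2_pos hq _ _ _ fun i => Nat.one_le_two_pow) hsw' Γ (fun ℓ => by
          refine ih (Function.update per j true) hcard (fun t => Γ (Function.update t j ℓ)) ?_
          intro i hi t v
          by_cases hij : i = j
          · subst hij
            show Γ (Function.update (Function.update t i v) i ℓ) = Γ (Function.update t i ℓ)
            rw [Function.update_idem]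
          · rw [Function.update_of_ne hij] at hi
            show Γ (Function.update (Function.update t i v) j ℓ) = Γ (Function.update t j ℓ)
            rw [Function.update_comm hij, hΓ i hi])
      have hexp : Real.exp (Ym / (d : ℝ) ^ K) * Real.exp (n * Ym / (d : ℝ) ^ K) =
          Real.exp (((n + 1 : ℕ) : ℝ) * Ym / (d : ℝ) ^ K) := by
        rw [← Real.exp_add]
        congr 1
        push_cast
        ring
      rw [hexp] at hfs
      exact hfs
  have hfin := key d (fun _ => false) (by simp) Γ (fun i hi => by simp at hi)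
  exact hfin

end Pool.Agent.LC
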