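import Pool.Agent.Lib_MP_2c424f_lc2.WDefs

/-!
# MP_2c424f_pr, corners in the linear regime, part VI.B: definitions

Domains in layers: a layer is a pair of colourings of the cross section.
-/

set_option autoImplicit false

open Finset Matrix

namespace Pool.Agent.LC

open Pool.Agent.LO Pool.Agent.LIN Pool.Agent.THR Pool.Agent.COR

/-! ## Layers over a cross section `Y` -/

section layer
variable {Y : Type} {q : ℕ}

/-- valid layer: both colourings are proper and they agree on the glue set -/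
def vld (H : SimpleGraph Y) (g : Y → Prop) (σ : Y → Fin q × Fin q) : Prop :=
  (∀ y y', H.Adj y y' → (σ y).1 ≠ (σ y').1) ∧ (∀ y y', H.Adj y y' → (σ y).2 ≠ (σ y').2) ∧ ∀ y, g y → (σ y).1 = (σ y).2

/-- layers which may be neighbours -/
def dif (σ σ' : Y → Fin q × Fin q) : Prop := ∀ y, (σ y).1 ≠ (σ' y).1 ∧ (σ y).2 ≠ (σ' y).2

/-- symmetric layer -/
def smy (σ : Y → Fin q × Fin q) : Prop := ∀ y, (σ y).1 = (σ y).2

open scoped Classical in
/-- transfer matrix -/
noncomputable def TY (q : ℕ) (H : SimpleGraph Y) (g : Y → Prop) : Matrix (Y → Fin q × Fin q) (Y → Fin q × Fin q) ℝ :=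
  Matrix.of fun σ σ' => if vld H g σ ∧ vld H g σ' ∧ dif σ σ' then 1 else 0

open scoped Classical in
/-- indicator of the symmetric layers -/
noncomputable def vY (q : ℕ) (Y : Type) : (Y → Fin q × Fin q) → ℝ := fun σ => if smy σ then 1 else 0

/-- glue set of the product with a path -/
def glp (g : Y → Prop) (m : ℕ) (z : Y × Fin (m + 1)) : Prop := g z.1 ∨ z.2.val = 0 ∨ z.2.val = m

end layer

/-- successor in the path `0, …, s-1, s+2L, …, 2s+2L` and in the cycle `s, …, s+2L-1` -/
def nxt (s L a b : ℕ) : Prop :=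
  (a + 1 = b ∧ b ≠ s ∧ b ≠ s + 2 * L) ∨ (a + 1 = s ∧ b = s + 2 * L) ∨ (a + 1 = s + 2 * L ∧ b = s)

/-- path `0, …, s-1, s+2L, …, 2s+2L` and cycle `s, …, s+2L-1` -/
def RX (s L : ℕ) : SimpleGraph (Fin (2 * s + 2 * L + 1)) where
  Adj a b := a ≠ b ∧ (nxt s L a.val b.val ∨ nxt s L b.val a.val)
  symm := ⟨fun _ _ h => ⟨h.1.symm, h.2.symm⟩⟩
  loopless := ⟨fun _ h => h.1 rfl⟩

/-! ## The cross section of `W_per` in the direction `j` -/

section cross
variable {d : ℕ} (j : Fin d) (p : {i // i ≠ j} → Bool) (L : Fin d → ℕ) (s : ℕ)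

/-- the vertices of the cross section -/
abbrev YV := ∀ i : {i // i ≠ j}, Fin (lm (p i) (L i) s + 1)

/-- the graph of the cross section -/
def YG : SimpleGraph (YV j p L s) :=
  prG (fun i : {i // i ≠ j} => lm (p i) (L i) s + 1) fun i => lnG (p i) (lm (p i) (L i) s + 1)

/-- the glue set of the cross section -/
def Ygl (y : YV j p L s) : Prop := ∃ i : {i // i ≠ j}, p i = false ∧ ((y i).val = 0 ∨ (y i).val = lm (p i) (L i) s)

/-- even points of the cross section -/
def Yev (y : YV j p L s) : Prop := Even (∑ i, (y i).val)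

/-- the points of the blocks in the cross section -/
def Ypt (t : Fin d → ℕ) (a b : Bt d) : YV j p L s := fun i =>
  Fin.ofNat (lm (p i) (L i) s + 1) (off (p i) s + 2 * t i + b01 (a i) + b01 (b i))

/-- one of three layers -/
def l3 {A : Type} (a b c : A) (x y : Bool) : A := if x then (if y then c else b) else (if y then b else a)

/-- the event of the blocks in the slab `ℓ` between the layers `a`, `b`, `c` -/
def Qs {q : ℕ} (Γ : (Fin d → ℕ) → Option (Option (Fin q))) (ℓ : ℕ) (a b c : YV j p L s → Fin q × Fin q) : Prop :=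
  ∀ t : Fin d → ℕ, t j = ℓ → (∀ i : {i // i ≠ j}, t i < nbk (p i) (L i)) → ∀ τ, Γ t = some τ →
    BDP τ fun α β => (l3 a b c (α j) (β j) (Ypt j p L s t α β)).1

open scoped Classical in
/-- the matrix of the slab `ℓ` -/
noncomputable def Ps {q : ℕ} (Γ : (Fin d → ℕ) → Option (Option (Fin q))) (ℓ : ℕ) :
    Matrix (YV j p L s → Fin q × Fin q) (YV j p L s → Fin q × Fin q) ℝ :=
  Matrix.of fun a c => ∑ b, TY q (YG j p L s) (Ygl j p L s) a b * TY q (YG j p L s) (Ygl j p L s) b c *
    (if Qs j p L s Γ ℓ a b c then 1 else 0)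

open scoped Classical in
/-- number of the bad blocks in the slab `ℓ` -/
noncomputable def wnS {q : ℕ} (Γ : (Fin d → ℕ) → Option (Option (Fin q))) (ℓ : ℕ) : ℕ :=
  (univ.filter fun t : ∀ i : {i // i ≠ j}, Fin (nbk (p i) (L i)) =>
    Γ (fun i => if h : i = j then ℓ else (t ⟨i, h⟩).val) ≠ none).card

end cross

/-! ## The switching layer in a product -/

section sw
variable {Y : Type} (s L h : ℕ)

/-- the two copies of the layer: `s, …, s+h-1` and `s+2L, …, s+2L+h-1` -/
def ib (b : Bool) (z : (Y × Bool) × Fin h) : (Y × Fin (2 * s + 2 * L + 1)) × Bool :=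
  ((z.1.1, Fin.ofNat (2 * s + 2 * L + 1) (s + (if b then 2 * L else 0) + z.2.val)), z.1.2)

/-- the graph of the layer -/
def LG (H : SimpleGraph Y) (g : Y → Prop) : SimpleGraph ((Y × Bool) × Fin h) :=
  SimpleGraph.comap (ib s L h false) (D2 (H.boxProd (RX s L)) (glp g (2 * s + 2 * L)))

/-- parity in the product -/
def evP (evY : Y → Prop) {m : ℕ} (z : (Y × Fin m) × Bool) : Prop := evY z.1.1 ↔ Even z.1.2.val

end sw

/-- number of cells of side `l` in an interval of `n` points -/
def kk (l n : ℕ) : ℕ := (n - 4) / (l + 2)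

/-- index set of the cells of a layer -/
abbrev CI {d : ℕ} (j : Fin d) (p : {i // i ≠ j} → Bool) (L : Fin d → ℕ) (s l h : ℕ) :=
  (Bool × ∀ i : {i // i ≠ j}, Fin (kk l (lm (p i) (L i) s + 1))) × Fin (kk l h)

/-- the cells of a layer -/
def kap {d : ℕ} (j : Fin d) (p : {i // i ≠ j} → Bool) (L : Fin d → ℕ) (s l h : ℕ) (hh : 0 < h)
    (k : CI j p L s l h) (u : BxV d l) : (YV j p L s × Bool) × Fin h :=
  haveI : NeZero h := ⟨hh.ne'⟩
  ((fun i => Fin.ofNat _ ((l + 2) * (k.1.2 i).val + 2 + (u i).val), k.1.1), Fin.ofNat h ((l + 2) * k.2.val + 2 + (u j).val))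

end Pool.Agent.LC
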